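import Pool.Agent.D0H95.AL.Hfun
import Pool.Agent.H974R2.Count

/-!
The number of open clusters of a box: derivative in the parameter, and the limit.
-/

set_option autoImplicit false
set_option maxHeartbeats 400000

namespace Pool.Agent.D0H95.AL

open H974 H12S H973N Finset Filter MeasureTheory

/-- Vertices of the `n × n` box. -/
noncomputable def Vb (n : ℕ) : Finset Vtx := Finset.Ico (0:ℤ) n ×ˢ Finset.Ico (0:ℤ) n

/-- Edges of the `n × n` box. -/
noncomputable def Sb (n : ℕ) : Finset Edg := RE 0 (n - 1) 0 (n - 1)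

/-- The number of clusters of the box. -/
noncomputable def nC (n : ℕ) (F : Finset Edg) : ℕ := NC src tgt (Vb n) Set.univ (↑F : Set Edg)

theorem Sb_ends {n : ℕ} {e : Edg} (he : e ∈ Sb n) : src e ∈ Vb n ∧ tgt e ∈ Vb n := by
  obtain ⟨x, y, b⟩ := e
  unfold Sb at he
  unfold Vb
  cases b
  · rw [mem_RE_false] at he
    simp only [src_mk, tgt_false, Finset.mem_product, Finset.mem_Ico]
    omega
  · rw [mem_RE_true] at he
    simp only [src_mk, tgt_true, Finset.mem_product, Finset.mem_Ico]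
    omega

theorem nC_insert {n : ℕ} {e : Edg} (he : e ∈ Sb n) {F : Finset Edg} (heF : e ∉ F) :
    (nC n (insert e F) : ℝ) - nC n F = -(1 - ind (hC e F)) := by
  obtain ⟨h1, h2⟩ := Sb_ends he
  have h3 := NC_insert (s := src) (t := tgt) (K := Vb n) (B := Set.univ) (F := (↑F : Set Edg))
    (e := e) h1 h2
  have hRB : ∀ x : Vtx, RB src tgt Set.univ (↑F : Set Edg) x := fun x =>
    ⟨x, Set.mem_univ _, GR.refl _ _⟩
  have e1 : ind (RB src tgt Set.univ (↑F : Set Edg) (src e) ∧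
      RB src tgt Set.univ (↑F : Set Edg) (tgt e) ∧ ¬ GR src tgt (↑F : Set Edg) (src e) (tgt e)) =
      1 - ind (hC e F) := by
    rw [← ind_not]
    apply ind_congr
    have e2 : ((↑F : Set Edg) \ {e}) = (↑F : Set Edg) := by
      rw [Set.sdiff_singleton_eq_self]
      exact heF
    unfold hC
    rw [e2]
    constructor
    · rintro ⟨_, _, h⟩
      exact h
    · intro h
      exact ⟨hRB _, hRB _, h⟩
  rw [e1] at h3
  unfold nC
  rw [Finset.coe_insert]
  linarith

theorem TC_univ [DecidableEq (Set Vtx)] (n : ℕ) (F : Set Edg) :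
    TC src tgt (Vb n) Set.univ F = (Vb n).image (clu src tgt F) := by
  ext C
  rw [mem_TC, Finset.mem_image]
  constructor
  · rintro ⟨x, hx, _, h⟩
    exact ⟨x, hx, h⟩
  · rintro ⟨x, hx, h⟩
    exact ⟨x, hx, ⟨x, Set.mem_univ _, GR.refl _ _⟩, h⟩

/-- Mean number of clusters. -/
noncomputable def mC (n : ℕ) (q : ℝ) : ℝ := Ex (fun _ => q) (Sb n) (fun F => (nC n F : ℝ))

/-- The sum of the probabilities that the end points of an edge are not connected off it. -/
noncomputable def dC (n : ℕ) (q : ℝ) : ℝ := ∑ e ∈ Sb n, (1 - PQ q (Sb n) (hC e))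

theorem mC_deriv (n : ℕ) (q : ℝ) : HasDerivAt (mC n) (-(dC n q)) q := by
  have h := Ex_hasDerivAt (E := Edg) (fun q _ => q) (fun _ => (1:ℝ)) q
    (fun _ => hasDerivAt_id q) (Sb n) (fun F => (nC n F : ℝ))
  refine h.congr_deriv ?_
  unfold dC
  rw [← Finset.sum_neg_distrib]
  refine Finset.sum_congr rfl fun e he => ?_
  rw [one_mul]
  have e1 : Ex (fun _ => q) ((Sb n).erase e) (fun F => (nC n (insert e F) : ℝ) - nC n F) =
      Ex (fun _ => q) ((Sb n).erase e) (fun F => (-1:ℝ) * (1 - ind (hC e F))) := by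
    refine Ex_congr fun F hF => ?_
    rw [nC_insert he (fun h' => (Finset.mem_erase.mp (hF h')).1 rfl)]
    ring
  rw [e1, Ex_mul_left, Ex_sub, Ex_const]
  have e2 : PQ q (Sb n) (hC e) = PQ q ((Sb n).erase e) (hC e) := by
    refine Pr_local (Finset.erase_subset _ _) fun F hF => ?_
    have e3 : ((↑(F ∩ (Sb n).erase e) : Set Edg) \ {e}) = ((↑F : Set Edg) \ {e}) := by
      ext x
      simp only [Finset.coe_inter, Finset.coe_erase, Set.mem_sdiff, Set.mem_inter_iff,
        Finset.mem_coe, Set.mem_singleton_iff]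
      constructor
      · rintro ⟨⟨h1, _⟩, h2⟩
        exact ⟨h1, h2⟩
      · rintro ⟨h1, h2⟩
        exact ⟨⟨h1, hF h1, h2⟩, h2⟩
    unfold hC
    rw [e3]
  rw [e2]
  unfold PQ Pr
  ring

theorem dC_cont (n : ℕ) : Continuous (dC n) := by
  unfold dC
  refine continuous_finsetSum _ fun e _ => ?_
  exact continuous_const.sub (cont_Pr _ _)

theorem mC_zero (n : ℕ) : mC n 0 = (n:ℝ)^2 := by
  unfold mC
  have e1 : Ex (fun _ => (0:ℝ)) (Sb n) (fun F => (nC n F : ℝ)) = (nC n ∅ : ℝ) := by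
    unfold Ex
    rw [Finset.sum_eq_single ∅]
    · simp
    · intro F _ hF
      obtain ⟨e, he⟩ := Finset.nonempty_iff_ne_empty.mpr hF
      rw [Finset.prod_eq_zero he rfl]
      ring
    · intro h
      exact absurd (Finset.empty_mem_powerset _) h
  rw [e1]
  have hr : ∀ x y : Vtx, GR src tgt (∅ : Set Edg) x y → x = y := by
    intro x y h
    induction h with
    | refl => rfl
    | tail _ hs _ =>
      obtain ⟨g, hg, _⟩ := hs
      exact absurd hg (Set.notMem_empty g)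
  classical
  unfold nC NC
  rw [TC_univ, Finset.card_image_of_injOn]
  · unfold Vb
    rw [Finset.card_product, Int.card_Ico]
    simp
    ring
  · intro x _ y _ hxy
    have h1 : y ∈ clu src tgt (↑(∅ : Finset Edg) : Set Edg) y := GR.refl _ _
    have h2 : y ∈ clu src tgt (↑(∅ : Finset Edg) : Set Edg) x := by
      rw [show clu src tgt (↑(∅ : Finset Edg) : Set Edg) x = clu src tgt
        (↑(∅ : Finset Edg) : Set Edg) y from hxy]
      exact h1
    have h3 : GR src tgt (↑(∅ : Finset Edg) : Set Edg) x y := h2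
    rw [Finset.coe_empty] at h3
    exact hr x y h3

theorem mC_eq (n : ℕ) (q : ℝ) : mC n q = (n:ℝ)^2 - ∫ t in (0:ℝ)..q, dC n t := by
  have h := intervalIntegral.integral_eq_sub_of_hasDerivAt (a := 0) (b := q) (f := mC n)
    (f' := fun t => -(dC n t)) (fun t _ => mC_deriv n t)
    ((dC_cont n).neg.intervalIntegrable _ _)
  rw [intervalIntegral.integral_neg, mC_zero] at h
  linarith

/-! ### the limit -/

theorem card_Sb (n : ℕ) (hn : 1 ≤ n) : ((Sb n).card : ℝ) = 2 * n * (n - 1) := by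
  have e1 : Sb n = (Finset.Ico (0:ℤ) (n - 1) ×ˢ (Finset.Ico (0:ℤ) n ×ˢ ({true} : Finset Bool))) ∪
      (Finset.Ico (0:ℤ) n ×ˢ (Finset.Ico (0:ℤ) (n - 1) ×ˢ ({false} : Finset Bool))) := by
    ext ⟨x, y, b⟩
    unfold Sb
    cases b
    · rw [mem_RE_false]
      simp
      omega
    · rw [mem_RE_true]
      simp
      omega
  have hd : Disjoint (Finset.Ico (0:ℤ) (n - 1) ×ˢ (Finset.Ico (0:ℤ) n ×ˢ ({true} : Finset Bool)))
      (Finset.Ico (0:ℤ) n ×ˢ (Finset.Ico (0:ℤ) (n - 1) ×ˢ ({false} : Finset Bool))) := by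
    rw [Finset.disjoint_left]
    rintro ⟨x, y, b⟩ h1 h2
    simp at h1 h2
    rw [h1.2.2] at h2
    simp at h2
  rw [e1, Finset.card_union_of_disjoint hd]
  simp only [Finset.card_product, Int.card_Ico, Finset.card_singleton]
  have e2 : ((n:ℤ) - 1 - 0).toNat = n - 1 := by omega
  have e3 : ((n:ℤ) - 0).toNat = n := by omega
  rw [e2, e3]
  push_cast [Nat.cast_sub hn]
  ring

/-- Edges next to the boundary of the box. -/
theorem card_rim (n ℓ : ℕ) : (((Sb n).filter (fun e => ¬ blk (bp e) ℓ ⊆ Sb n)).card : ℝ) ≤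
    8 * (ℓ + 1) * n := by
  have e1 : (Sb n).filter (fun e => ¬ blk (bp e) ℓ ⊆ Sb n) ⊆
      ((Finset.Ico (0:ℤ) (ℓ + 1) ∪ Finset.Ico ((n:ℤ) - (ℓ + 1)) n) ×ˢ
        (Finset.Ico (0:ℤ) n ×ˢ (Finset.univ : Finset Bool))) ∪
      (Finset.Ico (0:ℤ) n ×ˢ ((Finset.Ico (0:ℤ) (ℓ + 1) ∪ Finset.Ico ((n:ℤ) - (ℓ + 1)) n) ×ˢ
        (Finset.univ : Finset Bool))) := by
    intro e he
    rw [Finset.mem_filter] at he
    obtain ⟨h1, h2⟩ := he
    obtain ⟨⟨r1, r2⟩, r3, r4⟩ := NP.RE_weak h1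
    have h3 : e.1 < ℓ ∨ (n:ℤ) - 1 - ℓ < e.1 ∨ e.2.1 < ℓ ∨ (n:ℤ) - 1 - ℓ < e.2.1 := by
      by_contra hcon
      push Not at hcon
      apply h2
      unfold blk bp Sb
      apply RE_subset <;> simp only <;> omega
    simp only [Finset.mem_union, Finset.mem_product, Finset.mem_Ico, Finset.mem_univ, and_true]
    omega
  have h4 := Finset.card_le_card e1
  have h5 := h4.trans (Finset.card_union_le _ _)
  simp only [Finset.card_product, Finset.card_univ, Fintype.card_bool, Int.card_Ico] at h5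
  have h6 : (Finset.Ico (0:ℤ) (ℓ + 1) ∪ Finset.Ico ((n:ℤ) - (ℓ + 1)) n).card ≤ 2 * (ℓ + 1) := by
    refine (Finset.card_union_le _ _).trans ?_
    rw [Int.card_Ico, Int.card_Ico]
    omega
  have e3 : ((n:ℤ) - 0).toNat = n := by omega
  rw [e3] at h5
  have h7 : ((Sb n).filter (fun e => ¬ blk (bp e) ℓ ⊆ Sb n)).card ≤ 8 * (ℓ + 1) * n := by
    refine h5.trans ?_
    calc (Finset.Ico (0:ℤ) (ℓ + 1) ∪ Finset.Ico ((n:ℤ) - (ℓ + 1)) n).card * (n * 2) +
        n * ((Finset.Ico (0:ℤ) (ℓ + 1) ∪ Finset.Ico ((n:ℤ) - (ℓ + 1)) n).card * 2) ≤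
        (2 * (ℓ + 1)) * (n * 2) + n * ((2 * (ℓ + 1)) * 2) := by
          apply Nat.add_le_add
          · exact Nat.mul_le_mul_right _ h6
          · exact Nat.mul_le_mul_left _ (Nat.mul_le_mul_right _ h6)
      _ = _ := by ring
  exact_mod_cast h7

theorem dC_bounds {n ℓ : ℕ} (hn : 1 ≤ n) {q : ℝ} (h0 : 0 ≤ q) (h1 : q ≤ 1) :
    2 * (n:ℝ) * (n - 1) * (1 - Hf q) ≤ dC n q ∧
      dC n q ≤ 2 * (n:ℝ) * (n - 1) * (1 - Hl true q ℓ) + 8 * (ℓ + 1) * n := by
  have hOk : Ok (fun _ : Edg => q) := fun _ => ⟨h0, h1⟩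
  constructor
  · unfold dC
    rw [← card_Sb n hn, ← nsmul_eq_mul, ← Finset.sum_const]
    refine Finset.sum_le_sum fun e he => ?_
    have h2 : Sb n ⊆ blk (bp e) n := by
      obtain ⟨⟨r1, r2⟩, r3, r4⟩ := NP.RE_weak he
      unfold Sb blk bp
      apply RE_subset <;> simp only <;> omega
    have h3 := pr_hC_le h0 h1 h2
    have h4 := Hl_le_Hf h0 h1 n
    linarith
  · have e1 : dC n q = ∑ e ∈ (Sb n).filter (fun e => blk (bp e) ℓ ⊆ Sb n),
        (1 - PQ q (Sb n) (hC e)) + ∑ e ∈ (Sb n).filter (fun e => ¬ blk (bp e) ℓ ⊆ Sb n),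
        (1 - PQ q (Sb n) (hC e)) := (Finset.sum_filter_add_sum_filter_not _ _ _).symm
    have h2 : ∑ e ∈ (Sb n).filter (fun e => blk (bp e) ℓ ⊆ Sb n),
        (1 - PQ q (Sb n) (hC e)) ≤ 2 * (n:ℝ) * (n - 1) * (1 - Hl true q ℓ) := by
      calc ∑ e ∈ (Sb n).filter (fun e => blk (bp e) ℓ ⊆ Sb n), (1 - PQ q (Sb n) (hC e)) ≤
          ∑ e ∈ (Sb n).filter (fun e => blk (bp e) ℓ ⊆ Sb n), (1 - Hl true q ℓ) := by
            refine Finset.sum_le_sum fun e he => ?_
            have := pr_hC_ge h0 h1 (Finset.mem_filter.mp he).2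
            linarith
        _ = (((Sb n).filter (fun e => blk (bp e) ℓ ⊆ Sb n)).card : ℝ) * (1 - Hl true q ℓ) := by
            rw [Finset.sum_const, nsmul_eq_mul]
        _ ≤ ((Sb n).card : ℝ) * (1 - Hl true q ℓ) := by
            apply mul_le_mul_of_nonneg_right _ (by linarith [Hl_le_one (b := true) h0 h1 ℓ])
            exact_mod_cast Finset.card_filter_le _ _
        _ = _ := by rw [card_Sb n hn]
    have h3 : ∑ e ∈ (Sb n).filter (fun e => ¬ blk (bp e) ℓ ⊆ Sb n),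
        (1 - PQ q (Sb n) (hC e)) ≤ 8 * (ℓ + 1) * n := by
      calc ∑ e ∈ (Sb n).filter (fun e => ¬ blk (bp e) ℓ ⊆ Sb n), (1 - PQ q (Sb n) (hC e)) ≤
          ∑ e ∈ (Sb n).filter (fun e => ¬ blk (bp e) ℓ ⊆ Sb n), (1:ℝ) := by
            refine Finset.sum_le_sum fun e _ => ?_
            have := Pr_nonneg hOk (Sb n) (hC e)
            linarith
        _ = (((Sb n).filter (fun e => ¬ blk (bp e) ℓ ⊆ Sb n)).card : ℝ) := by
            rw [Finset.sum_const, nsmul_eq_mul, mul_one]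
        _ ≤ _ := card_rim n ℓ
    rw [e1]
    linarith

theorem dC_tendsto {q : ℝ} (h0 : 0 ≤ q) (h1 : q ≤ 1) :
    Tendsto (fun n : ℕ => dC n q / (n:ℝ)^2) atTop (nhds (2 * (1 - Hf q))) := by
  have hinv : Tendsto (fun n : ℕ => 1 / (n:ℝ)) atTop (nhds 0) := tendsto_one_div_atTop_nhds_zero_nat
  have hsq : Tendsto (fun n : ℕ => Nat.sqrt n) atTop atTop := by
    refine tendsto_atTop_mono' atTop ?_ (tendsto_id.comp (tendsto_atTop_atTop.mpr ?_ :
      Tendsto (fun n : ℕ => Nat.sqrt n) atTop atTop))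
    · exact Eventually.of_forall fun n => le_rfl
    · intro b
      refine ⟨b * b, fun a ha => ?_⟩
      exact Nat.le_sqrt.mpr ha
  have t1 : Tendsto (fun n : ℕ => 2 * (1 - 1 / (n:ℝ)) * (1 - Hf q)) atTop
      (nhds (2 * (1 - 0) * (1 - Hf q))) := (((hinv.const_sub 1).const_mul 2).mul_const _)
  have t2 : Tendsto (fun n : ℕ => (Nat.sqrt n : ℝ) / n) atTop (nhds 0) := by
    have h2 : Tendsto (fun n : ℕ => 1 / (Nat.sqrt n : ℝ)) atTop (nhds 0) := hinv.comp hsq
    refine squeeze_zero' (Eventually.of_forall fun n => by positivity) ?_ h2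
    filter_upwards [eventually_ge_atTop 1] with n hn
    have h3 : 1 ≤ Nat.sqrt n := Nat.le_sqrt.mpr (by omega)
    have h4 : Nat.sqrt n * Nat.sqrt n ≤ n := Nat.sqrt_le n
    have h3' : (0:ℝ) < Nat.sqrt n := by exact_mod_cast h3
    have hn' : (0:ℝ) < n := by exact_mod_cast hn
    rw [div_le_div_iff₀ hn' h3', one_mul]
    exact_mod_cast h4
  have t3 : Tendsto (fun n : ℕ => 2 * (1 - 1 / (n:ℝ)) * (1 - Hl true q (Nat.sqrt n)) +
      8 * ((Nat.sqrt n : ℝ) / n + 1 / n)) atTop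
      (nhds (2 * (1 - 0) * (1 - Hf q) + 8 * (0 + 0))) := by
    apply Tendsto.add
    · exact ((hinv.const_sub 1).const_mul 2).mul (((Hf_tendsto h0 h1).comp hsq).const_sub 1)
    · exact (t2.add hinv).const_mul 8
  have e0 : 2 * (1 - 0) * (1 - Hf q) = 2 * (1 - Hf q) := by ring
  have e0' : 2 * (1 - 0) * (1 - Hf q) + 8 * (0 + 0) = 2 * (1 - Hf q) := by ring
  rw [e0] at t1
  rw [e0'] at t3
  refine tendsto_of_tendsto_of_tendsto_of_le_of_le' t1 t3 ?_ ?_
  · filter_upwards [eventually_ge_atTop 1] with n hn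
    have hn' : (0:ℝ) < n := by exact_mod_cast hn
    have h2 := (dC_bounds (ℓ := 0) hn h0 h1).1
    rw [le_div_iff₀ (by positivity)]
    refine le_trans (le_of_eq ?_) h2
    field_simp
  · filter_upwards [eventually_ge_atTop 1] with n hn
    have hn' : (0:ℝ) < n := by exact_mod_cast hn
    have h2 := (dC_bounds (ℓ := Nat.sqrt n) hn h0 h1).2
    rw [div_le_iff₀ (by positivity)]
    refine h2.trans (le_of_eq ?_)
    field_simp

/-- The limit of the mean number of clusters. -/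
noncomputable def kap0 (q : ℝ) : ℝ := 1 - ∫ t in (0:ℝ)..q, 2 * (1 - Hf t)

theorem mC_tendsto {q : ℝ} (h0 : 0 ≤ q) (h1 : q ≤ 1) :
    Tendsto (fun n : ℕ => mC n q / (n:ℝ)^2) atTop (nhds (kap0 q)) := by
  have t1 : Tendsto (fun n : ℕ => ∫ t in (0:ℝ)..q, dC n t / (n:ℝ)^2) atTop
      (nhds (∫ t in (0:ℝ)..q, 2 * (1 - Hf t))) := by
    apply intervalIntegral.tendsto_integral_filter_of_dominated_convergence (fun _ => (2:ℝ))
    · filter_upwards with n
      exact ((dC_cont n).div_const _).aestronglyMeasurable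
    · filter_upwards [eventually_ge_atTop 1] with n hn
      filter_upwards with t ht
      rw [Set.uIoc_of_le h0] at ht
      have ht0 : 0 ≤ t := ht.1.le
      have ht1 : t ≤ 1 := ht.2.trans h1
      have hOk : Ok (fun _ : Edg => t) := fun _ => ⟨ht0, ht1⟩
      have hn' : (0:ℝ) < n := by exact_mod_cast hn
      have hn1 : (1:ℝ) ≤ n := by exact_mod_cast hn
      have h2 : 0 ≤ dC n t := by
        unfold dC
        exact Finset.sum_nonneg fun e _ => by linarith [Pr_le_one hOk (Sb n) (hC e)]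
      have h3 : dC n t ≤ 2 * (n:ℝ)^2 := by
        unfold dC
        calc ∑ e ∈ Sb n, (1 - PQ t (Sb n) (hC e)) ≤ ∑ e ∈ Sb n, (1:ℝ) :=
              Finset.sum_le_sum fun e _ => by linarith [Pr_nonneg hOk (Sb n) (hC e)]
          _ = ((Sb n).card : ℝ) := by rw [Finset.sum_const, nsmul_eq_mul, mul_one]
          _ = 2 * n * (n - 1) := card_Sb n hn
          _ ≤ _ := by nlinarith
      rw [Real.norm_eq_abs, abs_of_nonneg (by positivity), div_le_iff₀ (by positivity)]
      exact h3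
    · exact intervalIntegrable_const
    · filter_upwards with t ht
      rw [Set.uIoc_of_le h0] at ht
      exact dC_tendsto ht.1.le (ht.2.trans h1)
  have t2 := t1.const_sub 1
  refine t2.congr' ?_
  filter_upwards [eventually_ge_atTop 1] with n hn
  have hn' : (0:ℝ) < n := by exact_mod_cast hn
  rw [mC_eq, intervalIntegral.integral_div]
  field_simp

end Pool.Agent.D0H95.AL
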