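import Pool.Agent.H974R2.Plan4

/-!
Planar duality for the connection of the end points of an edge.
-/

set_option autoImplicit false
set_option maxHeartbeats 4000000

namespace Pool.Agent.D0H95.AL

open H974 Finset

/-- Potential of a cycle. -/
theorem cycle_pot {a b c d : ℤ} {Z : Edg → ZMod 2} (hZ : ∀ e, Z e ≠ 0 → e ∈ RE a b c d)
    (hbd : ∀ x y, bd Z x y = 0) : ∃ s : ℤ → ℤ → ZMod 2,
      (∀ x y, s (x + 1) y = s x y + Z (x, y, true)) ∧
      (∀ x y, s x (y + 1) = s x y + Z (x, y, false)) := by
  have hZ0 : ∀ e, e ∉ RE a b c d → Z e = 0 := by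
    intro e he
    by_contra h
    exact he (hZ e h)
  obtain ⟨s, hs⟩ : ∃ s : ℤ → ℤ → ZMod 2, s = fun x y => ∑ i ∈ Finset.Ico a x, Z (i, y, true) :=
    ⟨_, rfl⟩
  have s0 : ∀ x y, x ≤ a → s x y = 0 := by
    intro x y hx
    rw [hs]
    simp only
    rw [Finset.Ico_eq_empty (by omega), Finset.sum_empty]
  have sH' : ∀ x y, a ≤ x → s (x + 1) y = s x y + Z (x, y, true) := by
    intro x y hx
    simp only [hs]
    rw [sum_Ico_int_succ hx]
  have sH : ∀ x y, s (x + 1) y = s x y + Z (x, y, true) := by
    intro x y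
    rcases le_or_gt a x with hx | hx
    · exact sH' x y hx
    · rw [s0 _ _ (by omega), s0 _ _ (by omega), hZ0 (x, y, true) (by
        rw [mem_RE_true]; omega)]
      ring
  have hleft : ∀ y, Z (a, y, false) = 0 := by
    intro y
    have h := hbd (a - 1) y
    unfold bd at h
    rw [hZ0 (a - 1, y, true) (by simp), hZ0 (a - 1, y + 1, true) (by simp),
      hZ0 (a - 1, y, false) (by simp), sub_add_cancel] at h
    simpa using h
  have sV : ∀ (n : ℕ) (y : ℤ), s (a + n) (y + 1) + s (a + n) y = Z (a + n, y, false) := by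
    intro n y
    induction n with
    | zero =>
      have : Z (a + ((0:ℕ):ℤ), y, false) = 0 := by
        have := hleft y
        simpa using this
      rw [this]
      simp [hs]
    | succ n ih =>
      have e1 : a + ((n + 1 : ℕ) : ℤ) = (a + n) + 1 := by push_cast; ring
      rw [e1, sH' _ _ (by omega), sH' _ _ (by omega)]
      have h3 := hbd (a + n) y
      unfold bd at h3
      have h5 := zmod2_add_self (Z (a + n + 1, y, false))
      linear_combination ih + h3 - h5
  refine ⟨s, sH, ?_⟩
  intro x y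
  rcases le_or_gt a x with hx | hx
  · obtain ⟨n, hn⟩ := Int.eq_ofNat_of_zero_le (sub_nonneg.mpr hx)
    have e1 : x = a + n := by omega
    have h3 := sV n y
    rw [← e1] at h3
    have h4 := zmod2_add_self (s x y)
    linear_combination h3 - h4
  · rw [s0 _ _ (by omega), s0 _ _ (by omega), hZ0 (x, y, false) (by
      rw [mem_RE_false]; omega)]
    ring

theorem cycle_reach {a b c d : ℤ} {Z : Edg → ZMod 2} (hZ : ∀ e, Z e ≠ 0 → e ∈ RE a b c d)
    (hbd : ∀ x y, bd Z x y = 0) {G : Set Edg} (hGZ : ∀ e ∈ G, Z e = 0) {e : Edg}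
    (h : Reach G (src e) (tgt e)) : Z e = 0 := by
  obtain ⟨s, sH, sV⟩ := cycle_pot hZ hbd
  have hpath : ∀ w w' : Vtx, Reach G w w' → s w'.1 w'.2 = s w.1 w.2 := by
    intro w w' hr
    induction hr with
    | refl => rfl
    | @tail w' w'' _ hstep ih =>
      obtain ⟨⟨x0, y0, bo⟩, heG, hcase⟩ := hstep
      have hZe := hGZ _ heG
      cases bo
      · have h3 := sV x0 y0
        rw [hZe, add_zero] at h3
        simp only [src_mk, tgt_false] at hcase
        rcases hcase with ⟨h4, h5⟩ | ⟨h4, h5⟩
        · rw [← h4] at ih; rw [← h5]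
          exact h3.trans ih
        · rw [← h5] at ih; rw [← h4]
          exact h3.symm.trans ih
      · have h3 := sH x0 y0
        rw [hZe, add_zero] at h3
        simp only [src_mk, tgt_true] at hcase
        rcases hcase with ⟨h4, h5⟩ | ⟨h4, h5⟩
        · rw [← h4] at ih; rw [← h5]
          exact h3.trans ih
        · rw [← h5] at ih; rw [← h4]
          exact h3.symm.trans ih
  have k := hpath _ _ h
  obtain ⟨x0, y0, bo⟩ := e
  cases bo
  · simp only [src_mk, tgt_false] at k
    have h3 := sV x0 y0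
    rw [k] at h3
    simpa using h3
  · simp only [src_mk, tgt_true] at k
    have h3 := sH x0 y0
    rw [k] at h3
    simpa using h3

/-- If the faces of `e` are connected by a dual path off `e`, then the end points of `e` are not
connected off `e`. -/
theorem dual_B {a b c d : ℤ} {F : Set Edg} {e : Edg} (he : e ∈ RE a b c d)
    (h : DReach ((↑(RE a b c d) \ F) \ {e}) (dsrc e) (dtgt e)) :
    ¬ Reach (F \ {e}) (src e) (tgt e) := by
  intro hr
  obtain ⟨Z, hZ1, hZ2⟩ := chain_of_dreach h
  have h1 : Z e + b2 (e = e) = 0 := by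
    apply cycle_reach (Z := fun e' => Z e' + b2 (e' = e)) (a := a) (b := b) (c := c) (d := d)
        (G := F \ {e}) _ _ _ hr
    · intro e' h'
      by_cases hee : e' = e
      · rw [hee]; exact he
      · have h'' : Z e' + b2 (e' = e) ≠ 0 := h'
        rw [b2_not_of hee, add_zero] at h''
        exact (hZ1 e' h'').1.1
    · intro x y
      rw [bd_add, hZ2, bd_single]
      exact zmod2_add_self _
    · intro e' he'
      have hee : e' ≠ e := he'.2
      have hz : Z e' = 0 := by
        by_contra hcon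
        exact (hZ1 e' hcon).1.2 he'.1
      simp only [hz, b2_not_of hee, add_zero]
  have h2 : Z e = 0 := by
    by_contra hcon
    exact (hZ1 e hcon).2 rfl
  rw [h2, b2_of (rfl : e = e), zero_add] at h1
  exact one_ne_zero h1

/-- If the end points of `e` are not connected and one of them has a cluster which does not reach
the boundary, then the faces of `e` are connected by a dual path off `e`. -/
theorem dual_A {a b c d : ℤ} {F : Set Edg} {e : Edg}
    {x0 y0 : Vtx}
    (hxy : (x0 = src e ∧ y0 = tgt e) ∨ (x0 = tgt e ∧ y0 = src e)) (hin : inR a b c d x0)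
    (hx : ∀ w ∈ bdR a b c d, ¬ Reach F x0 w) (huv : ¬ Reach F x0 y0) :
    DReach ((↑(RE a b c d) \ F) \ {e}) (dsrc e) (dtgt e) := by
  by_contra hcon
  obtain ⟨W, hW⟩ : ∃ W : Vtx → Prop, W = fun w => Reach F x0 w := ⟨_, rfl⟩
  have hWin : ∀ w, W w → (a < w.1 ∧ w.1 < b) ∧ (c < w.2 ∧ w.2 < d) := by
    intro w hw
    rw [hW] at hw
    by_contra h
    have h' : w.1 ≤ a ∨ b ≤ w.1 ∨ w.2 ≤ c ∨ d ≤ w.2 := by omega
    obtain ⟨w', k1, k2, k3⟩ := first_exit hin hw h'
    exact hx w' ⟨k1, k2⟩ (k3.mono Set.inter_subset_left)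
  obtain ⟨G, hG⟩ : ∃ G : Set Edg, G = bdry W \ {e} := ⟨_, rfl⟩
  have hbR : ∀ g ∈ bdry W, g ∈ RE a b c d := by
    rintro ⟨x, y, bo⟩ hg
    have h3 : W (src (x, y, bo)) ∨ W (tgt (x, y, bo)) := by
      by_contra h
      push Not at h
      exact hg ⟨fun h' => absurd h' h.1, fun h' => absurd h' h.2⟩
    cases bo
    · rw [mem_RE_false]
      rcases h3 with h3 | h3
      · have := hWin _ h3
        simp only [src_mk] at this
        omega
      · have := hWin _ h3
        simp only [tgt_false] at this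
        omega
    · rw [mem_RE_true]
      rcases h3 with h3 | h3
      · have := hWin _ h3
        simp only [src_mk] at this
        omega
      · have := hWin _ h3
        simp only [tgt_true] at this
        omega
  have hGsub : G ⊆ (↑(RE a b c d) \ F) \ {e} := by
    rw [hG]
    rintro g ⟨hg1, hg3⟩
    refine ⟨⟨hbR g hg1, ?_⟩, hg3⟩
    intro hgF
    apply hg1
    rw [hW]
    constructor
    · intro h
      exact Reach.trans h (Adj.reach ⟨g, hgF, Or.inl ⟨rfl, rfl⟩⟩)
    · intro h
      exact Reach.trans h (Adj.reach ⟨g, hgF, Or.inr ⟨rfl, rfl⟩⟩)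
  have heW : e ∈ bdry W := by
    intro h
    rw [hW] at h
    rcases hxy with ⟨h1, h2⟩ | ⟨h1, h2⟩
    · rw [← h1, ← h2] at h
      exact huv (h.mp (Reach.refl _ _))
    · rw [← h1, ← h2] at h
      exact huv (h.mpr (Reach.refl _ _))
  obtain ⟨C, hC⟩ : ∃ C : Vtx → Prop, C = fun f => DReach G (dsrc e) f := ⟨_, rfl⟩
  have hCf0 : C (dsrc e) := by rw [hC]; exact DReach.refl _ _
  have hCf1 : ¬ C (dtgt e) := by
    rw [hC]
    intro h
    exact hcon (DReach.mono hGsub h)
  have hCcl : ∀ g ∈ G, (C (dsrc g) ↔ C (dtgt g)) := by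
    intro g hg
    rw [hC]
    constructor
    · intro h; exact DReach.trans h (DAdj.reach ⟨g, hg, Or.inl ⟨rfl, rfl⟩⟩)
    · intro h; exact DReach.trans h (DAdj.reach ⟨g, hg, Or.inr ⟨rfl, rfl⟩⟩)
  obtain ⟨Z, hZ⟩ : ∃ Z : Edg → ZMod 2, Z = fun g => b2 (g ∈ G ∧ C (dtgt g)) := ⟨_, rfl⟩
  have hZG : ∀ g, Z g ≠ 0 → g ∈ G ∧ C (dtgt g) := by
    intro g hg
    by_contra hcon
    exact hg (by rw [hZ]; exact b2_not_of hcon)
  have hZ0 : ∀ g, g ∉ RE a b c d → Z g = 0 := by
    intro g hg
    by_contra h
    exact hg (hGsub (hZG g h).1).1.1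
  have hswap : ∀ g, Z g = b2 (g ∈ G ∧ C (dsrc g)) := by
    intro g
    rw [hZ]
    apply b2_congr
    constructor
    · rintro ⟨h1, h2⟩; exact ⟨h1, (hCcl g h1).mpr h2⟩
    · rintro ⟨h1, h2⟩; exact ⟨h1, (hCcl g h1).mp h2⟩
  have hZ' : ∀ g, Z g = b2 (g ∈ G ∧ C (dtgt g)) := by intro g; rw [hZ]
  -- boundary of the chain
  have hb : ∀ x y, bd Z x y = b2 (dsrc e = (x, y)) := by
    intro x y
    by_cases hxy' : C (x, y)
    · have hone : ∀ g : Edg, (C (dtgt g) ∨ C (dsrc g)) →
          Z g = b2 (W (src g)) + b2 (W (tgt g)) + b2 (g = e) := by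
        intro g hCg
        have h1 : Z g = b2 (g ∈ G) := by
          rcases hCg with h | h
          · rw [hZ']; exact b2_congr ⟨fun k => k.1, fun k => ⟨k, h⟩⟩
          · rw [hswap]; exact b2_congr ⟨fun k => k.1, fun k => ⟨k, h⟩⟩
        rw [h1, ← b2_iff_add]
        by_cases hge : g = e
        · subst hge
          rw [b2_of (rfl : g = g), b2_of (show ¬ (W (src g) ↔ W (tgt g)) from heW),
            b2_not_of (by rw [hG]; exact fun h => h.2 rfl)]
          rfl
        · rw [b2_not_of hge, add_zero]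
          apply b2_congr
          rw [hG]
          constructor
          · intro h; exact h.1
          · intro h; exact ⟨h, hge⟩
      have m1 := hone (x, y, true) (Or.inl (by simpa using hxy'))
      have m2 := hone (x, y + 1, true) (Or.inr (by simpa using hxy'))
      have m3 := hone (x, y, false) (Or.inl (by simpa using hxy'))
      have m4 := hone (x + 1, y, false) (Or.inr (by simpa using hxy'))
      simp only [src_mk, tgt_true, tgt_false] at m1 m2 m3 m4
      have hs := bd_single e x y
      have n1 : ¬ (dtgt e = (x, y)) := by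
        intro h; rw [h] at hCf1; exact hCf1 hxy'
      rw [b2_not_of n1, add_zero] at hs
      unfold bd at hs ⊢
      rw [m1, m2, m3, m4, ← hs]
      have k1 := zmod2_add_self (b2 (W (x, y)))
      have k2 := zmod2_add_self (b2 (W (x + 1, y)))
      have k3 := zmod2_add_self (b2 (W (x, y + 1)))
      have k4 := zmod2_add_self (b2 (W (x + 1, y + 1)))
      linear_combination k1 + k2 + k3 + k4
    · have z1 : Z (x, y, true) = 0 := by
        rw [hZ']; exact b2_not_of (fun h => hxy' (by simpa using h.2))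
      have z2 : Z (x, y + 1, true) = 0 := by
        rw [hswap]; exact b2_not_of (fun h => hxy' (by simpa using h.2))
      have z3 : Z (x, y, false) = 0 := by
        rw [hZ']; exact b2_not_of (fun h => hxy' (by simpa using h.2))
      have z4 : Z (x + 1, y, false) = 0 := by
        rw [hswap]; exact b2_not_of (fun h => hxy' (by simpa using h.2))
      have n1 : ¬ (dsrc e = (x, y)) := by
        intro h; rw [h] at hCf0; exact hxy' hCf0
      unfold bd
      rw [z1, z2, z3, z4, b2_not_of n1]; ring
  have heR := hbR e heW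
  -- the face of `e` is in the large rectangle
  have hf0in : (a - 1 ≤ (dsrc e).1 ∧ (dsrc e).1 < b + 1) ∧
      (c - 1 ≤ (dsrc e).2 ∧ (dsrc e).2 < d + 1) := by
    obtain ⟨x, y, bo⟩ := e
    cases bo
    · rw [mem_RE_false] at heR
      simp only [dsrc_false]
      omega
    · rw [mem_RE_true] at heR
      simp only [dsrc_true]
      omega
  have hsum : ∑ x ∈ Finset.Ico (a - 1) (b + 1), ∑ y ∈ Finset.Ico (c - 1) (d + 1), bd Z x y = 0 := by
    have e1 : ∀ x ∈ Finset.Ico (a - 1) (b + 1), ∑ y ∈ Finset.Ico (c - 1) (d + 1), bd Z x y =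
        ∑ y ∈ Finset.Ico (c - 1) (d + 1), (Z (x, y, true) + Z (x, y + 1, true)) +
        ∑ y ∈ Finset.Ico (c - 1) (d + 1), (Z (x, y, false) + Z (x + 1, y, false)) := by
      intro x _
      rw [← Finset.sum_add_distrib]
      apply Finset.sum_congr rfl
      intro y _
      unfold bd; ring
    rw [Finset.sum_congr rfl e1, Finset.sum_add_distrib]
    have e2 : ∑ x ∈ Finset.Ico (a - 1) (b + 1), ∑ y ∈ Finset.Ico (c - 1) (d + 1),
        (Z (x, y, true) + Z (x, y + 1, true)) = 0 := by
      apply Finset.sum_eq_zero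
      intro x hx
      rw [telescope' (by omega) (fun y => Z (x, y, true))]
      rw [hZ0 (x, c - 1, true) (by rw [mem_RE_true]; omega),
        hZ0 (x, d + 1, true) (by rw [mem_RE_true]; omega)]
      ring
    have e3 : ∑ x ∈ Finset.Ico (a - 1) (b + 1), ∑ y ∈ Finset.Ico (c - 1) (d + 1),
        (Z (x, y, false) + Z (x + 1, y, false)) = 0 := by
      rw [Finset.sum_comm]
      apply Finset.sum_eq_zero
      intro y hy
      rw [telescope' (by omega) (fun x => Z (x, y, false))]
      rw [hZ0 (a - 1, y, false) (by rw [mem_RE_false]; omega),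
        hZ0 (b + 1, y, false) (by rw [mem_RE_false]; omega)]
      ring
    rw [e2, e3]; ring
  have hsum1 : ∑ x ∈ Finset.Ico (a - 1) (b + 1), ∑ y ∈ Finset.Ico (c - 1) (d + 1),
      bd Z x y = 1 := by
    rw [Finset.sum_eq_single (dsrc e).1, Finset.sum_eq_single (dsrc e).2]
    · rw [hb, b2_of rfl]
    · intro y _ hy
      rw [hb, b2_not_of]
      intro h
      apply hy
      rw [h]
    · intro h
      exact absurd (Finset.mem_Ico.mpr hf0in.2) h
    · intro x _ hx
      apply Finset.sum_eq_zero
      intro y _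
      rw [hb, b2_not_of]
      intro h
      apply hx
      rw [h]
    · intro h
      exact absurd (Finset.mem_Ico.mpr hf0in.1) h
  rw [hsum] at hsum1
  exact zero_ne_one hsum1

end Pool.Agent.D0H95.AL
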