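import Pool.Agent.W424.NC.ArmUp

/-!
Upper bound for the four-arm probability below the critical point, at all scales.
-/

set_option autoImplicit false

namespace Pool.Agent.D0H95.AL

open H974 H12S Finset Pool.Agent.W424.NC H31K

theorem a4_far {p : ℝ} (h0 : 0 ≤ p) (h1 : p ≤ 1) {N : ℕ} (hN : 2 ≤ N)
    (he : eps (1 - p) N ≤ 1/100) {j : ℕ} {m : ℕ} (hm : 1 ≤ m) (hm2 : m + 1 ≤ 2^j * N) :
    a4 p (2 * (2^j * N)) ≤ a4 p m * (1/4)^(2^j) := by
  obtain ⟨M, hM⟩ : ∃ M : ℕ, M = 2^j * N := ⟨_, rfl⟩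
  have ok := okq h0 h1
  have h3 := pr_nblk_pow h0 h1 hN he j (S := annE (2^j * N - 1) (2 * (2^j * N) - 1))
    (Finset.Subset.refl _)
  rw [← hM] at h3 hm2 ⊢
  obtain ⟨S, hS⟩ : ∃ S : Finset Edg, S = boxE (2 * M) := ⟨_, rfl⟩
  have s1 : boxE m ⊆ S := by rw [hS]; exact boxE_mono (by omega)
  have s2 : annE (M - 1) (2 * M - 1) ⊆ S := by
    rw [hS]; exact (annE_sub _ _).trans (boxE_mono (by omega))
  have hd : Disjoint (boxE m) (annE (M - 1) (2 * M - 1)) := by
    unfold annE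
    apply Finset.disjoint_of_subset_left (boxE_mono (show m ≤ M - 1 by omega))
    exact Finset.disjoint_sdiff
  have h5 : Pr (fun _ => p) S (fun F => ¬ Blk ((M - 1 : ℕ) : ℤ) ((2 * M - 1 : ℕ) : ℤ) F) =
      Pr (fun _ => p) (annE (M - 1) (2 * M - 1))
        (fun F => ¬ Blk ((M - 1 : ℕ) : ℤ) ((2 * M - 1 : ℕ) : ℤ) F) :=
    Pr_local s2 (fun F _ => Blk_loc (by omega) (Finset.Subset.refl _) F)
  have main : ∀ b : Bool, PQ p (boxE (2 * M)) (fun F => A4 (-(2 * M : ℕ)) ((2 * M : ℕ) : ℤ)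
      (-(2 * M : ℕ)) ((2 * M : ℕ) : ℤ) (e0 b) (↑F : Set Edg)) ≤
      PQ p (boxE m) (fun F => A4 (-m) m (-m) m (e0 b) (↑F : Set Edg)) * (1/4)^(2^j) := by
    intro b
    have hloc : ∀ F : Finset Edg, (A4 (-m) m (-m) m (e0 b) (↑F : Set Edg) ↔
        A4 (-m) m (-m) m (e0 b) (↑(F ∩ boxE m) : Set Edg)) := by
      intro F
      refine H973N.A4_congr ?_
      intro g hg _
      rw [Finset.coe_inter]
      exact ⟨fun h => ⟨h, Finset.mem_coe.mpr hg⟩, fun h => h.1⟩
    have h4 := Pr_indep (p := fun _ => p) s1 s2 hd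
      (A := fun F => A4 (-m) m (-m) m (e0 b) (↑F : Set Edg))
      (B := fun F => ¬ Blk ((M - 1 : ℕ) : ℤ) ((2 * M - 1 : ℕ) : ℤ) F)
      (fun F _ => hloc F)
      (fun F _ => Blk_loc (by omega) (Finset.Subset.refl _) F)
    have h4' : Pr (fun _ => p) S (fun F => A4 (-m) m (-m) m (e0 b) (↑F : Set Edg)) =
        Pr (fun _ => p) (boxE m) (fun F => A4 (-m) m (-m) m (e0 b) (↑F : Set Edg)) :=
      Pr_local s1 (fun F _ => hloc F)
    rw [h5, h4'] at h4
    have heb : e0 b ∈ RE (-(m:ℤ)) m (-m) m := by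
      unfold e0
      cases b
      · rw [mem_RE_false]; omega
      · rw [mem_RE_true]; omega
    have h6 : Pr (fun _ => p) (boxE (2 * M)) (fun F => A4 (-(2 * M : ℕ)) ((2 * M : ℕ) : ℤ)
      (-(2 * M : ℕ)) ((2 * M : ℕ) : ℤ) (e0 b) (↑F : Set Edg)) ≤
        Pr (fun _ => p) S (fun F => A4 (-m) m (-m) m (e0 b) (↑F : Set Edg) ∧
        ¬ Blk ((M - 1 : ℕ) : ℤ) ((2 * M - 1 : ℕ) : ℤ) F) := by
      rw [← hS]
      apply Pr_mono ok
      intro F _ hF
      constructor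
      · exact A4_sub (by omega) (by omega) (by omega) (by omega) heb hF
      · obtain ⟨w, ⟨_, hw⟩, hr⟩ := hF.1
        have hr' : Reach (↑F : Set Edg) (0, 0) w := by
          refine Reach.mono ?_ hr
          rintro x ⟨⟨k, -⟩, -⟩
          exact k
        apply not_blk_of_arm (v := w) (by positivity) (by omega) hr'
        push_cast at hw
        omega
    exact h6.trans (h4.le.trans (mul_le_mul_of_nonneg_left h3 (Pr_nonneg ok _ _)))
  unfold a4
  have m1 := main true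
  have m2 := main false
  rw [add_mul]
  exact add_le_add m1 m2

/-- The four-arm probability inside the window. -/
theorem a4_win (Λ : ℝ) (hΛ : 0 < Λ) : ∃ C : ℝ, 0 < C ∧ ∀ p : ℝ, 0 ≤ p → p ≤ 1/2 → ∀ n : ℕ, 1 ≤ n →
    (n:ℝ) * (1/2 - p)^(4/3 : ℝ) ≤ Λ → a4 p n ≤ C * (n:ℝ)^(-(5/4) : ℝ) := by
  obtain ⟨κ, b, c, C, hκ, hb, hc, hC, hnear⟩ := nearS
  obtain ⟨β, hβ⟩ : ∃ β : ℝ, β = b^(4/3 : ℝ) := ⟨_, rfl⟩
  have hβ0 : 0 < β := by rw [hβ]; positivity
  obtain ⟨Γ, hΓ⟩ : ∃ Γ : ℝ, Γ = max 1 (2 * Λ / β) := ⟨_, rfl⟩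
  have hΓ1 : 1 ≤ Γ := by rw [hΓ]; exact le_max_left _ _
  have hΓ2 : 2 * Λ / β ≤ Γ := by rw [hΓ]; exact le_max_right _ _
  have hG : 1 ≤ Γ^(5/4 : ℝ) := Real.one_le_rpow hΓ1 (by norm_num)
  refine ⟨(C + 2) * Γ^(5/4 : ℝ), by positivity, ?_⟩
  intro p hp0 hp n hn hnt
  have hnr : (1:ℝ) ≤ n := by exact_mod_cast hn
  have hn0 : (0:ℝ) < n := by linarith
  obtain ⟨s, hs⟩ : ∃ s : ℝ, s = 1/2 - p := ⟨_, rfl⟩
  have hs0 : 0 ≤ s := by rw [hs]; linarith
  rw [← hs] at hnt
  obtain ⟨t, ht⟩ : ∃ t : ℝ, t = s^(4/3 : ℝ) := ⟨_, rfl⟩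
  rw [← ht] at hnt
  have ht0 : 0 ≤ t := by rw [ht]; positivity
  have habs : |p - 1/2| = s := by rw [abs_sub_comm, abs_of_nonneg (by linarith), hs]
  have hpow : ∀ m : ℕ, 1 ≤ m → (m:ℝ) * t ≤ β → |p - 1/2| ≤ b * (m:ℝ)^(-(3/4 : ℝ)) := by
    intro m hm h
    have hm0 : (0:ℝ) < m := by
      have : 0 < m := hm
      exact_mod_cast this
    rw [habs]
    have e1 : s = t^(3/4 : ℝ) := by
      rw [ht, ← Real.rpow_mul hs0]; norm_num
    have e2 : b = β^(3/4 : ℝ) := by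
      rw [hβ, ← Real.rpow_mul hb.le]; norm_num
    rw [e1, e2, Real.rpow_neg hm0.le, ← div_eq_mul_inv, ← Real.div_rpow hβ0.le hm0.le]
    apply Real.rpow_le_rpow ht0 _ (by norm_num)
    rw [le_div_iff₀ hm0]
    linarith
  have hpn : 0 < (n:ℝ)^(-(5/4) : ℝ) := by positivity
  rcases le_or_gt t β with h1 | h1
  · -- a scale in the window
    obtain ⟨m, hm1, hmn, hmt, hmG⟩ : ∃ m : ℕ, 1 ≤ m ∧ m ≤ n ∧ (m:ℝ) * t ≤ β ∧ (n:ℝ) ≤ Γ * m := by
      rcases le_or_gt ((n:ℝ) * t) β with h2 | h2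
      · exact ⟨n, hn, le_rfl, h2, by nlinarith⟩
      · have ht1 : 0 < t := by
          by_contra hcon
          have : t = 0 := le_antisymm (not_lt.mp hcon) ht0
          rw [this, mul_zero] at h2
          linarith
        have hx1 : 1 ≤ β / t := by rw [le_div_iff₀ ht1]; linarith
        have hf1 : 1 ≤ ⌊β / t⌋₊ := Nat.le_floor (by exact_mod_cast hx1)
        have hf2 : (⌊β / t⌋₊ : ℝ) ≤ β / t := Nat.floor_le (by positivity)
        have hf3 : β / t < ⌊β / t⌋₊ + 1 := Nat.lt_floor_add_one _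
        have hf4 : (1:ℝ) ≤ ⌊β / t⌋₊ := by exact_mod_cast hf1
        refine ⟨⌊β / t⌋₊, hf1, ?_, ?_, ?_⟩
        · have h5 : (⌊β / t⌋₊ : ℝ) ≤ n := by
            refine hf2.trans ?_
            rw [div_le_iff₀ ht1]
            exact h2.le
          exact_mod_cast h5
        · calc (⌊β / t⌋₊ : ℝ) * t ≤ (β / t) * t := mul_le_mul_of_nonneg_right hf2 ht0
            _ = β := by field_simp
        · have h6 : (n:ℝ) ≤ Λ / t := by rw [le_div_iff₀ ht1]; exact hnt
          have h7 : Λ / t = (Λ / β) * (β / t) := by field_simp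
          have h8 : 0 < Λ / β := by positivity
          calc (n:ℝ) ≤ (Λ / β) * (β / t) := by rw [← h7]; exact h6
            _ ≤ (Λ / β) * (2 * ⌊β / t⌋₊) := by
                apply mul_le_mul_of_nonneg_left _ h8.le
                linarith
            _ = (2 * Λ / β) * ⌊β / t⌋₊ := by ring
            _ ≤ Γ * ⌊β / t⌋₊ := mul_le_mul_of_nonneg_right hΓ2 (by positivity)
    have hm0 : (0:ℝ) < m := by
      have : 0 < m := hm1
      exact_mod_cast this
    have h9 := ((hnear m hm1 p (hpow m hm1 hmt)).2 m hm1 le_rfl).2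
    have h10 : (m:ℝ)^(-(5/4 : ℝ)) ≤ Γ^(5/4 : ℝ) * (n:ℝ)^(-(5/4) : ℝ) := by
      rw [Real.rpow_neg hm0.le, Real.rpow_neg hn0.le, ← div_eq_mul_inv,
        ← Real.div_rpow (by linarith) hn0.le, ← Real.inv_rpow hm0.le]
      apply Real.rpow_le_rpow (by positivity) _ (by norm_num)
      rw [inv_le_comm₀ hm0 (by positivity), inv_div, div_le_iff₀ (by positivity)]
      linarith
    calc a4 p n ≤ a4 p m := a4_anti hp0 (by linarith) hm1 hmn
      _ ≤ C * (m:ℝ)^(-(5/4 : ℝ)) := h9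
      _ ≤ C * (Γ^(5/4 : ℝ) * (n:ℝ)^(-(5/4) : ℝ)) := mul_le_mul_of_nonneg_left h10 hC.le
      _ ≤ (C + 2) * (Γ^(5/4 : ℝ) * (n:ℝ)^(-(5/4) : ℝ)) :=
          mul_le_mul_of_nonneg_right (by linarith) (by positivity)
      _ = _ := by ring
  · have h2 : (n:ℝ) ≤ Γ := by
      have h3 : (n:ℝ) * β ≤ Λ := (mul_le_mul_of_nonneg_left h1.le hn0.le).trans hnt
      have h4 : (n:ℝ) ≤ Λ / β := by rw [le_div_iff₀ hβ0]; exact h3
      have h5 : Λ / β ≤ 2 * Λ / β := by
        apply div_le_div_of_nonneg_right _ hβ0.le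
        linarith
      linarith
    have h3 : 1 ≤ Γ^(5/4 : ℝ) * (n:ℝ)^(-(5/4) : ℝ) := by
      rw [Real.rpow_neg hn0.le, ← div_eq_mul_inv, ← Real.div_rpow (by linarith) hn0.le]
      apply Real.one_le_rpow _ (by norm_num)
      rw [le_div_iff₀ hn0]
      linarith
    calc a4 p n ≤ 2 := H12S.a4_le_two hp0 (by linarith) n
      _ ≤ (C + 2) * 1 := by linarith
      _ ≤ (C + 2) * (Γ^(5/4 : ℝ) * (n:ℝ)^(-(5/4) : ℝ)) :=
          mul_le_mul_of_nonneg_left h3 (by linarith)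
      _ = _ := by ring

theorem mul_exp_le2 (y : ℝ) (hy : 0 ≤ y) :
    y^2 * Real.exp (-(y/4)) ≤ 256 * Real.exp (-(y/8)) := by
  have h1 : y / 16 ≤ Real.exp (y / 16) := by
    have := Real.add_one_le_exp (y / 16)
    linarith
  have h3 : Real.exp (y/16) * Real.exp (-(y/16)) = 1 := by
    rw [← Real.exp_add]; simp
  have h4 : 0 < Real.exp (-(y/16)) := Real.exp_pos _
  have h5 : y * Real.exp (-(y/16)) ≤ 16 := by
    calc y * Real.exp (-(y/16)) = 16 * ((y/16) * Real.exp (-(y/16))) := by ring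
      _ ≤ 16 * (Real.exp (y/16) * Real.exp (-(y/16))) := by
          apply mul_le_mul_of_nonneg_left _ (by norm_num)
          exact mul_le_mul_of_nonneg_right h1 h4.le
      _ = 16 := by rw [h3]; ring
  have h2 : Real.exp (-(y/4)) = (Real.exp (-(y/16)))^2 * Real.exp (-(y/8)) := by
    rw [sq, ← Real.exp_add, ← Real.exp_add]; congr 1; ring
  rw [h2]
  calc y^2 * ((Real.exp (-(y/16)))^2 * Real.exp (-(y/8))) =
      (y * Real.exp (-(y/16)))^2 * Real.exp (-(y/8)) := by ring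
    _ ≤ 16^2 * Real.exp (-(y/8)) := by
        apply mul_le_mul_of_nonneg_right _ (Real.exp_pos _).le
        exact pow_le_pow_left₀ (by positivity) h5 2
    _ = _ := by norm_num

/-- Upper bound for the four-arm probability at and below the critical point. -/
theorem a4_upper : ∃ c C : ℝ, 0 < c ∧ 0 < C ∧ ∀ p : ℝ, 0 ≤ p → p ≤ 1/2 → ∀ n : ℕ, 1 ≤ n →
    a4 p n ≤ C * (n:ℝ)^(-(5/4) : ℝ) * Real.exp (-(c * (n * (1/2 - p)^(4/3 : ℝ)))) := by
  obtain ⟨E, hE, hfar⟩ := farN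
  obtain ⟨Cc, hCc, hwin⟩ := a4_win (4 * E) (by linarith)
  refine ⟨1 / (8 * E), 256 * Cc, by positivity, by positivity, ?_⟩
  intro p hp0 hp n hn
  have hnr : (1:ℝ) ≤ n := by exact_mod_cast hn
  have hn0 : (0:ℝ) < n := by linarith
  have hpn : 0 < (n:ℝ)^(-(5/4) : ℝ) := by positivity
  rcases hp.eq_or_lt with heq | hlt
  · subst heq
    have hcr := hwin (1/2) (by norm_num) le_rfl n hn (by
      rw [sub_self, Real.zero_rpow (by norm_num), mul_zero]
      linarith)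
    rw [sub_self, Real.zero_rpow (by norm_num), mul_zero, mul_zero, neg_zero, Real.exp_zero,
      mul_one]
    have : 0 < Cc * (n:ℝ)^(-(5/4) : ℝ) := by positivity
    linarith
  · obtain ⟨N, hN2, hNE, hN1, heps⟩ := hfar p hp0 hlt
    obtain ⟨t, ht⟩ : ∃ t : ℝ, t = (1/2 - p)^(4/3 : ℝ) := ⟨_, rfl⟩
    have ht0 : 0 < t := by rw [ht]; exact Real.rpow_pos_of_pos (by linarith) _
    rw [← ht] at hNE hN1 ⊢
    have hNr : (0:ℝ) < N := by
      have : 0 < N := by omega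
      exact_mod_cast this
    rcases le_or_gt n (4 * N) with hle | hgt
    · have h2 : (n:ℝ) * t ≤ 4 * E := by
        have : (n:ℝ) ≤ 4 * N := by exact_mod_cast hle
        calc (n:ℝ) * t ≤ (4 * N) * t := mul_le_mul_of_nonneg_right this ht0.le
          _ = 4 * (N * t) := by ring
          _ ≤ 4 * E := by linarith
      have hcr := hwin p hp0 hp n hn (by rw [← ht]; exact h2)
      have h1 : Real.exp (-1) ≤ Real.exp (-(1 / (8 * E) * (n * t))) := by
        apply Real.exp_le_exp.mpr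
        have h3 : 1 / (8 * E) * (n * t) ≤ 1 / (8 * E) * (4 * E) :=
          mul_le_mul_of_nonneg_left h2 (by positivity)
        have h4 : 1 / (8 * E) * (4 * E) = 1/2 := by field_simp; norm_num
        linarith
      have h5 : (1/8 : ℝ) ≤ Real.exp (-1) := by
        rw [Real.exp_neg, one_div]
        apply inv_anti₀ (Real.exp_pos _)
        have := Real.exp_one_lt_d9
        linarith
      calc a4 p n ≤ Cc * (n:ℝ)^(-(5/4) : ℝ) := hcr
        _ ≤ (256 * Cc * (n:ℝ)^(-(5/4) : ℝ)) * (1/8) := by nlinarith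
        _ ≤ _ := mul_le_mul_of_nonneg_left (h5.trans h1) (by positivity)
    · obtain ⟨q, hq⟩ : ∃ q : ℕ, q = n / (2 * N) := ⟨_, rfl⟩
      have hq2 : 2 ≤ q := by
        rw [hq, Nat.le_div_iff_mul_le (by omega)]
        omega
      obtain ⟨j, hj⟩ : ∃ j : ℕ, j = Nat.log 2 q := ⟨_, rfl⟩
      have hj1 : 1 ≤ j := by
        rw [hj]
        exact Nat.le_log_of_pow_le (by norm_num) (by omega)
      have hj2 : 2^j ≤ q := by rw [hj]; exact Nat.pow_log_le_self 2 (by omega)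
      have hj3 : q < 2^(j+1) := by rw [hj]; exact Nat.lt_pow_succ_log_self (by norm_num) q
      have h3 : q * (2 * N) ≤ n := by rw [hq]; exact Nat.div_mul_le_self n (2*N)
      have h4 : n < (q + 1) * (2 * N) := by
        have := Nat.lt_mul_div_succ n (show 0 < 2 * N by omega)
        rw [← hq] at this
        calc n < 2 * N * (q + 1) := this
          _ = (q + 1) * (2 * N) := by ring
      have h5 : 2 * (2^j * N) ≤ n := by
        calc 2 * (2^j * N) = 2^j * (2 * N) := by ring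
          _ ≤ q * (2 * N) := Nat.mul_le_mul_right _ hj2
          _ ≤ n := h3
      have h2N : N + 1 ≤ 2^j * N := by
        have : 2 ≤ 2^j := by
          calc 2 = 2^1 := rfl
            _ ≤ 2^j := Nat.pow_le_pow_right (by norm_num) hj1
        calc N + 1 ≤ 2 * N := by omega
          _ ≤ 2^j * N := Nat.mul_le_mul_right _ this
      have h6 := (a4_anti hp0 (by linarith) (by omega) h5).trans
        (a4_far hp0 (by linarith) hN2 heps (show 1 ≤ N by omega) h2N)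
      obtain ⟨y, hy⟩ : ∃ y : ℝ, y = (n:ℝ) / N := ⟨_, rfl⟩
      have hy1 : 1 ≤ y := by
        rw [hy, le_div_iff₀ hNr, one_mul]
        have : N ≤ n := by omega
        exact_mod_cast this
      have h7 : y / 4 ≤ (2:ℝ)^j := by
        have : n ≤ 2^j * (4 * N) := by
          have h8 : (q + 1) * (2 * N) ≤ 2^(j+1) * (2 * N) := Nat.mul_le_mul_right _ hj3
          have e : 2^(j+1) * (2 * N) = 2^j * (4 * N) := by ring
          omega
        have h8 : (n:ℝ) ≤ 2^j * (4 * N) := by exact_mod_cast this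
        rw [hy, div_div, div_le_iff₀ (by positivity)]
        linarith
      have h8 := quarter_pow_le h7
      have h9 : (N:ℝ)^(-(5/4) : ℝ) ≤ y^2 * (n:ℝ)^(-(5/4) : ℝ) := by
        have e : (N:ℝ)^(-(5/4) : ℝ) = y^(5/4 : ℝ) * (n:ℝ)^(-(5/4) : ℝ) := by
          rw [hy, Real.div_rpow hn0.le hNr.le, Real.rpow_neg hn0.le, Real.rpow_neg hNr.le]
          field_simp
        rw [e]
        apply mul_le_mul_of_nonneg_right _ hpn.le
        calc y^(5/4 : ℝ) ≤ y^(2:ℝ) := Real.rpow_le_rpow_of_exponent_le hy1 (by norm_num)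
          _ = y^2 := by norm_num
      have hNt : (N:ℝ) * (1/2 - p)^(4/3 : ℝ) ≤ 4 * E := by rw [← ht]; linarith
      have h10 : a4 p N ≤ Cc * (y^2 * (n:ℝ)^(-(5/4) : ℝ)) :=
        (hwin p hp0 hp N (by omega) hNt).trans (mul_le_mul_of_nonneg_left h9 hCc.le)
      have h11 : Real.exp (-(y/8)) ≤ Real.exp (-(1 / (8 * E) * (n * t))) := by
        apply Real.exp_le_exp.mpr
        have h12 : (n:ℝ) * t ≤ E * y := by
          calc (n:ℝ) * t = y * (N * t) := by rw [hy]; field_simp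
            _ ≤ y * E := mul_le_mul_of_nonneg_left hNE (by linarith)
            _ = E * y := mul_comm _ _
        have h13 : 1 / (8 * E) * (n * t) ≤ 1 / (8 * E) * (E * y) :=
          mul_le_mul_of_nonneg_left h12 (by positivity)
        have h14 : 1 / (8 * E) * (E * y) = y / 8 := by field_simp
        linarith
      calc a4 p n ≤ a4 p N * (1/4)^(2^j) := h6
        _ ≤ (Cc * (y^2 * (n:ℝ)^(-(5/4) : ℝ))) * Real.exp (-(y/4)) :=
            mul_le_mul h10 h8 (by positivity) (by positivity)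
        _ = Cc * (n:ℝ)^(-(5/4) : ℝ) * (y^2 * Real.exp (-(y/4))) := by ring
        _ ≤ Cc * (n:ℝ)^(-(5/4) : ℝ) * (256 * Real.exp (-(y/8))) :=
            mul_le_mul_of_nonneg_left (mul_exp_le2 y (by linarith)) (by positivity)
        _ ≤ Cc * (n:ℝ)^(-(5/4) : ℝ) * (256 * Real.exp (-(1 / (8 * E) * (n * t)))) := by
            apply mul_le_mul_of_nonneg_left _ (by positivity)
            linarith
        _ = _ := by ring

end Pool.Agent.D0H95.AL
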