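import Pool.Agent.D0H95.AL.Shell
import Pool.Agent.D0H95.AL.Far

/-!
The sum over the pairs of edges, for one edge.
-/

set_option autoImplicit false
set_option maxHeartbeats 4000000

namespace Pool.Agent.D0H95.AL

open H974 H12S H973N Finset

theorem dst_tri' (e f g : Edg) : dst e g ≤ dst e f + dst f g := by
  unfold dst
  apply max_le
  · calc |e.1 - g.1| ≤ |e.1 - f.1| + |f.1 - g.1| := abs_sub_le _ _ _
      _ ≤ _ := add_le_add (le_max_left _ _) (le_max_left _ _)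
  · calc |e.2.1 - g.2.1| ≤ |e.2.1 - f.2.1| + |f.2.1 - g.2.1| := abs_sub_le _ _ _
      _ ≤ _ := add_le_add (le_max_right _ _) (le_max_right _ _)

/-- `a` and `b` are the closest pair. -/
def cond (c a b : Edg) : Prop := a ≠ b ∧ dst a b ≤ dst c a ∧ dst a b ≤ dst c b

theorem shell {κ q : ℝ} {n : ℕ} (hW : Win q κ n) (hn : 12 ≤ n) {A : ℝ} (hA : 1 ≤ A)
    (ha : ∀ j : ℕ, a4 q (2^j) ≤ A * ((2:ℝ)^j) ^ (-(5/4) : ℝ)) {c : Edg} {k : ℕ}
    {S : Finset Edg} (hS : blk (bp c) (200 * 2^k) ⊆ S) {G V : Finset Edg}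
    (hG : ∀ a ∈ G, 32 * 2^k < dst c a ∧ dst c a ≤ 64 * 2^k) :
    ∑ a ∈ G, ∑ b ∈ V, ind (cond c a b) * PQ q S (T3 c a b) ≤
      10^10 * κ⁻¹ ^ 4 * A ^ 2 *
        (a4 q (2^k) * ((2:ℝ)^k * (Real.sqrt 2)^k * (1 + (2:ℝ)^k / n))) +
      10^10 * (((2:ℝ)^k)^4 * (a4 q (2^k))^3) := by
  have h0 : 0 ≤ q := by linarith [hW.lo]
  have h1 : q ≤ 1 := by linarith [hW.hi]
  have hOk : Ok (fun _ : Edg => q) := fun _ => ⟨h0, h1⟩
  have hp1 : 1 ≤ 2^k := Nat.one_le_two_pow
  have hpz : (0:ℤ) < 2^k := by positivity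
  have hBS : blk (bp c) (2^k) ⊆ S := by
    refine Finset.Subset.trans ?_ hS
    unfold blk
    push_cast
    apply RE_subset <;> linarith
  obtain ⟨g, hg⟩ : ∃ g : Edg → Edg → ℝ, g = fun a b => PQ q S (T3 c a b) := ⟨_, rfl⟩
  have hg0 : ∀ a b, 0 ≤ g a b := by intro a b; rw [hg]; exact Pr_nonneg hOk _ _
  have hsplit : ∑ a ∈ G, ∑ b ∈ V, ind (cond c a b) * g a b ≤
      ∑ a ∈ G, ∑ b ∈ V, ind (dst a b ≤ 4 * 2^k) * (ind (cond c a b) * g a b) +
      ∑ a ∈ G, ∑ b ∈ V, ind (cond c a b ∧ 4 * 2^k < dst a b ∧ dst a b ≤ 64 * 2^k) * g a b := by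
    rw [← Finset.sum_add_distrib]
    refine Finset.sum_le_sum fun a haG => ?_
    rw [← Finset.sum_add_distrib]
    refine Finset.sum_le_sum fun b _ => ?_
    by_cases hc : cond c a b
    · by_cases hd : dst a b ≤ 4 * 2^k
      · rw [ind_of hd, one_mul]
        have := mul_nonneg (ind_nonneg (cond c a b ∧ 4 * 2^k < dst a b ∧ dst a b ≤ 64 * 2^k))
          (hg0 a b)
        linarith
      · have h5 : cond c a b ∧ 4 * 2^k < dst a b ∧ dst a b ≤ 64 * 2^k :=
          ⟨hc, not_le.mp hd, hc.2.1.trans (hG a haG).2⟩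
        rw [ind_not_of hd, ind_of h5, ind_of hc]
        linarith [hg0 a b]
    · rw [ind_not_of hc, zero_mul, mul_zero, zero_add]
      exact mul_nonneg (ind_nonneg _) (hg0 a b)
  -- near pairs
  obtain ⟨B, hB⟩ : ∃ B : Finset Edg, B = blk (bp c) (2^k) := ⟨_, rfl⟩
  obtain ⟨N, hN⟩ : ∃ N : ℝ, N = 10^10 * κ⁻¹ ^ 4 * A ^ 2 *
      ((2:ℝ)^k * (Real.sqrt 2)^k * (1 + (2:ℝ)^k / n)) := ⟨_, rfl⟩
  have hN0 : 0 ≤ N := by
    rw [hN]
    have := hW.kpos
    positivity
  have near1 : ∀ a ∈ G, ∀ b ∈ V, ind (dst a b ≤ 4 * 2^k) * (ind (cond c a b) * g a b) ≤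
      Ex (fun _ => q) B (fun w => ind (L4 (2^k) c (↑w : Set Edg)) *
        (ind (dst a b ≤ 4 * 2^k) * PQ q (S \ B)
          (SD (CO {src c} {tgt c} (↑(w.erase c) : Set Edg)) a b))) := by
    intro a haG b _
    have hR0 : 0 ≤ Ex (fun _ => q) B (fun w => ind (L4 (2^k) c (↑w : Set Edg)) *
        (ind (dst a b ≤ 4 * 2^k) * PQ q (S \ B)
          (SD (CO {src c} {tgt c} (↑(w.erase c) : Set Edg)) a b))) :=
      Ex_nonneg hOk (fun w _ => mul_nonneg (ind_nonneg _)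
        (mul_nonneg (ind_nonneg _) (Pr_nonneg hOk _ _)))
    by_cases hd : dst a b ≤ 4 * 2^k
    · by_cases hc : cond c a b
      · rw [ind_of hc, one_mul]
        simp only [ind_of hd, one_mul]
        have hda := (hG a haG).1
        have haB : a ∉ blk (bp c) (2^k) := by
          apply not_mem_blk hp1
          push_cast
          linarith
        have hbB : b ∉ blk (bp c) (2^k) := by
          apply not_mem_blk hp1
          have h6 : dst c a ≤ dst c b + dst b a := dst_tri' c b a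
          rw [dstc b a] at h6
          push_cast
          linarith
        rw [hg, hB]
        exact inner h0 h1 hp1 hBS haB hbB hc.1
      · rw [ind_not_of hc, zero_mul, mul_zero]
        exact hR0
    · rw [ind_not_of hd, zero_mul] at *
      simp only [zero_mul, mul_zero] at hR0 ⊢
      exact hR0
  have near2 : ∑ a ∈ G, ∑ b ∈ V, ind (dst a b ≤ 4 * 2^k) * (ind (cond c a b) * g a b) ≤
      N * a4 q (2^k) := by
    have e1 : ∑ a ∈ G, ∑ b ∈ V, Ex (fun _ => q) B (fun w => ind (L4 (2^k) c (↑w : Set Edg)) *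
        (ind (dst a b ≤ 4 * 2^k) * PQ q (S \ B)
          (SD (CO {src c} {tgt c} (↑(w.erase c) : Set Edg)) a b))) =
        Ex (fun _ => q) B (fun w => ind (L4 (2^k) c (↑w : Set Edg)) *
          ∑ a ∈ G, ∑ b ∈ V, (ind (dst a b ≤ 4 * 2^k) * PQ q (S \ B)
          (SD (CO {src c} {tgt c} (↑(w.erase c) : Set Edg)) a b))) := by
      have e2 : ∀ a ∈ G, ∑ b ∈ V, Ex (fun _ => q) B (fun w => ind (L4 (2^k) c (↑w : Set Edg)) *
        (ind (dst a b ≤ 4 * 2^k) * PQ q (S \ B)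
          (SD (CO {src c} {tgt c} (↑(w.erase c) : Set Edg)) a b))) =
          Ex (fun _ => q) B (fun w => ∑ b ∈ V, ind (L4 (2^k) c (↑w : Set Edg)) *
        (ind (dst a b ≤ 4 * 2^k) * PQ q (S \ B)
          (SD (CO {src c} {tgt c} (↑(w.erase c) : Set Edg)) a b))) := by
        intro a _
        rw [Ex_sum]
      rw [Finset.sum_congr rfl e2, ← Ex_sum]
      refine Ex_congr ?_
      intro w _
      rw [Finset.mul_sum]
      refine Finset.sum_congr rfl fun a _ => ?_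
      rw [Finset.mul_sum]
    calc ∑ a ∈ G, ∑ b ∈ V, ind (dst a b ≤ 4 * 2^k) * (ind (cond c a b) * g a b) ≤
        ∑ a ∈ G, ∑ b ∈ V, Ex (fun _ => q) B (fun w => ind (L4 (2^k) c (↑w : Set Edg)) *
        (ind (dst a b ≤ 4 * 2^k) * PQ q (S \ B)
          (SD (CO {src c} {tgt c} (↑(w.erase c) : Set Edg)) a b))) :=
          Finset.sum_le_sum fun a haG => Finset.sum_le_sum fun b hbV => near1 a haG b hbV
      _ = _ := e1
      _ ≤ Ex (fun _ => q) B (fun w => ind (L4 (2^k) c (↑w : Set Edg)) * N) := by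
          refine Ex_mono hOk ?_
          intro w hw
          refine mul_le_mul_of_nonneg_left ?_ (ind_nonneg _)
          rw [hN]
          have h7 := shell_near hW hn hA ha hS (V := V) hG (w := w) (by rw [← hB]; exact hw)
          rw [← hB] at h7
          exact h7
      _ = N * PQ q B (fun w => L4 (2^k) c (↑w : Set Edg)) := by
          rw [Ex_mul_right, mul_comm]
          rfl
      _ ≤ N * a4 q (2^k) := by
          refine mul_le_mul_of_nonneg_left ?_ hN0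
          rw [hB]
          exact pr_L4 h0 h1 (Finset.Subset.refl _)
  -- far pairs
  have far : ∑ a ∈ G, ∑ b ∈ V, ind (cond c a b ∧ 4 * 2^k < dst a b ∧ dst a b ≤ 64 * 2^k) *
      g a b ≤ (162 * ((16 * 2^k : ℕ):ℝ)^2) * (162 * ((16 * 2^k : ℕ):ℝ)^2) * (a4 q (2^k))^3 := by
    have ha0 := a4nn h0 h1 (2^k)
    refine class_crude (ρ := 16 * 2^k) (by omega) (R := 16 * 2^k) (by omega) (c := c)
      (fun a haG => by have := (hG a haG).2; push_cast; linarith) g (by positivity)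
      (fun a b => cond c a b ∧ 4 * 2^k < dst a b ∧ dst a b ≤ 64 * 2^k)
      (fun a b h => by push_cast; linarith [h.2.2]) ?_
    intro a haG b _ hab
    obtain ⟨hc, hd1, hd2⟩ := hab
    have hda := hG a haG
    have hcb1 : 4 * 2^k < dst c b := lt_of_lt_of_le hd1 hc.2.2
    have hcb2 : dst c b ≤ 128 * 2^k := by
      have h6 : dst c b ≤ dst c a + dst a b := dst_tri' c a b
      linarith
    rw [hg]
    apply three_balls h0 h1 hp1 hBS
    · exact (shell_geo hS hda.1 hda.2 (by omega)).trans Finset.sdiff_subset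
    · refine Finset.Subset.trans ?_ hS
      obtain ⟨⟨b1, b2⟩, b3, b4⟩ := NP.dst_le hcb2
      unfold blk bp
      push_cast
      apply RE_subset <;> linarith
    · push_cast; linarith
    · push_cast; linarith
    · push_cast; linarith
  rw [hg] at hsplit near2 far
  refine hsplit.trans ((add_le_add near2 far).trans ?_)
  have ha0 := a4nn h0 h1 (2^k)
  have e5 : N * a4 q (2^k) = 10^10 * κ⁻¹ ^ 4 * A ^ 2 *
        (a4 q (2^k) * ((2:ℝ)^k * (Real.sqrt 2)^k * (1 + (2:ℝ)^k / n))) := by rw [hN]; ring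
  have e6 : (162 * ((16 * 2^k : ℕ):ℝ)^2) * (162 * ((16 * 2^k : ℕ):ℝ)^2) * (a4 q (2^k))^3 =
      (162 * 162 * 256 * 256) * (((2:ℝ)^k)^4 * (a4 q (2^k))^3) := by
    push_cast
    ring
  rw [e5, e6]
  have h8 : 0 ≤ ((2:ℝ)^k)^4 * (a4 q (2^k))^3 := by positivity
  linarith

/-! ### the sum over the shells -/

theorem tele_exp (c Γ : ℝ) (hc : 0 < c) (hΓ : 0 ≤ Γ) : ∃ C : ℝ, 0 < C ∧ ∀ t : ℝ, 0 < t → ∀ K : ℕ,
    ∑ k ∈ Finset.range K, ((2:ℝ)^k) ^ (1/4 : ℝ) * (1 + Γ * ((2:ℝ)^k * t)) *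
      Real.exp (-(c * ((2:ℝ)^k * t))) ≤ C * t ^ (-(1/4) : ℝ) := by
  obtain ⟨r, hr⟩ : ∃ r : ℝ, r = (2:ℝ) ^ (1/4 : ℝ) := ⟨_, rfl⟩
  have hr1 : 1 < r := by
    rw [hr]
    exact Real.one_lt_rpow (by norm_num) (by norm_num)
  have hr2 : r ≤ 2 := by
    rw [hr]
    calc (2:ℝ) ^ (1/4 : ℝ) ≤ (2:ℝ)^(1:ℝ) :=
          Real.rpow_le_rpow_of_exponent_le (by norm_num) (by norm_num)
      _ = 2 := by norm_num
  obtain ⟨L, hL⟩ : ∃ L : ℝ, L = 10 * (1 + Γ) * (2 + 4 / c ^ 2) := ⟨_, rfl⟩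
  have hL0 : 0 < L := by rw [hL]; positivity
  refine ⟨L / (r - 1), div_pos hL0 (by linarith), ?_⟩
  intro t ht K
  -- the pointwise bound
  obtain ⟨u, hu⟩ : ∃ u : ℕ → ℝ, u = fun k => ((2:ℝ)^k * t) ^ (1/4 : ℝ) := ⟨_, rfl⟩
  have hu0 : ∀ k, 0 ≤ u k := by intro k; rw [hu]; positivity
  have hus : ∀ k, u (k + 1) = r * u k := by
    intro k
    rw [hu, hr]
    simp only
    rw [← Real.mul_rpow (by norm_num) (by positivity)]
    congr 1
    ring
  have hu4 : ∀ k, (u k)^4 = (2:ℝ)^k * t := by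
    intro k
    rw [hu]
    simp only
    rw [← Real.rpow_natCast, ← Real.rpow_mul (by positivity)]
    norm_num
  have hux : ∀ k, ((2:ℝ)^k) ^ (1/4 : ℝ) = u k * t ^ (-(1/4) : ℝ) := by
    intro k
    rw [hu]
    simp only
    rw [Real.mul_rpow (by positivity) ht.le, mul_assoc, ← Real.rpow_add ht]
    norm_num
  have key : ∀ k, ((2:ℝ)^k) ^ (1/4 : ℝ) * (1 + Γ * ((2:ℝ)^k * t)) *
      Real.exp (-(c * ((2:ℝ)^k * t))) ≤
      L / (r - 1) * t ^ (-(1/4) : ℝ) * (u (k+1) / (1 + u (k+1)) - u k / (1 + u k)) := by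
    intro k
    have h1 := hu0 k
    obtain ⟨v, hv⟩ : ∃ v : ℝ, v = (2:ℝ)^k * t := ⟨_, rfl⟩
    have hv0 : 0 ≤ v := by rw [hv]; positivity
    have hv4 : (u k)^4 = v := by rw [hu4, hv]
    rw [← hv, hux k, hus k]
    obtain ⟨x, hx⟩ : ∃ x : ℝ, x = u k := ⟨_, rfl⟩
    rw [← hx] at h1 hv4 ⊢
    have e1 : r * x / (1 + r * x) - x / (1 + x) = (r - 1) * x / ((1 + r * x) * (1 + x)) := by
      have h2 : 0 < 1 + r * x := by positivity
      have h3 : 0 < 1 + x := by positivity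
      field_simp
      ring
    rw [e1]
    have hd : 0 < (1 + r * x) * (1 + x) := by positivity
    have h5 : (1 + r * x) * (1 + x) ≤ 10 * (1 + v) := by
      have h6 : (1 + r * x) * (1 + x) ≤ (1 + 2 * x) * (1 + x) := by
        apply mul_le_mul_of_nonneg_right _ (by positivity)
        have := mul_le_mul_of_nonneg_right hr2 h1
        linarith
      have h7 : x^2 ≤ 1 + v := by rw [← hv4]; nlinarith [sq_nonneg (x^2 - 1)]
      have h8 : x ≤ 1 + v := by nlinarith [sq_nonneg (x - 1)]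
      nlinarith
    have h9 : (1 + v) * (1 + v) ≤ (2 + 4 / c ^ 2) * Real.exp (c * v) := by
      have h10 := Real.quadratic_le_exp_of_nonneg (x := c * v) (by positivity)
      have h11 : (1 + v) * (1 + v) ≤ 2 + 2 * v^2 := by nlinarith [sq_nonneg (v - 1)]
      have h12 : 2 + 2 * v^2 ≤ (2 + 4 / c ^ 2) * (1 + c * v + (c * v)^2 / 2) := by
        have e2 : (2 + 4 / c ^ 2) * (1 + c * v + (c * v)^2 / 2) =
            2 + 2 * v^2 + (2 * (c * v) + (c * v)^2 + 4 / c^2 + 4 * v / c) := by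
          field_simp
          ring
        rw [e2]
        have : 0 ≤ 2 * (c * v) + (c * v)^2 + 4 / c^2 + 4 * v / c := by positivity
        linarith
      refine h11.trans (h12.trans ?_)
      exact mul_le_mul_of_nonneg_left h10 (by positivity)
    have hexp : Real.exp (c * v) * Real.exp (-(c * v)) = 1 := by
      rw [← Real.exp_add]; simp
    have h13 : (1 + Γ * v) * ((1 + r * x) * (1 + x)) * Real.exp (-(c * v)) ≤ L := by
      have h14 : (1 + Γ * v) * ((1 + r * x) * (1 + x)) ≤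
          10 * (1 + Γ) * ((1 + v) * (1 + v)) := by
        have h15 : 1 + Γ * v ≤ (1 + Γ) * (1 + v) := by nlinarith
        calc (1 + Γ * v) * ((1 + r * x) * (1 + x)) ≤ ((1 + Γ) * (1 + v)) * (10 * (1 + v)) :=
              mul_le_mul h15 h5 hd.le (by positivity)
          _ = _ := by ring
      calc (1 + Γ * v) * ((1 + r * x) * (1 + x)) * Real.exp (-(c * v)) ≤
          (10 * (1 + Γ) * ((1 + v) * (1 + v))) * Real.exp (-(c * v)) :=
            mul_le_mul_of_nonneg_right h14 (Real.exp_pos _).le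
        _ ≤ (10 * (1 + Γ) * ((2 + 4 / c ^ 2) * Real.exp (c * v))) * Real.exp (-(c * v)) := by
            apply mul_le_mul_of_nonneg_right _ (Real.exp_pos _).le
            exact mul_le_mul_of_nonneg_left h9 (by positivity)
        _ = 10 * (1 + Γ) * (2 + 4 / c ^ 2) * (Real.exp (c * v) * Real.exp (-(c * v))) := by ring
        _ = L := by rw [hexp, hL, mul_one]
    have ht4 : 0 ≤ t ^ (-(1/4) : ℝ) := by positivity
    have hr0 : 0 < r - 1 := by linarith
    have e3 : L / (r - 1) * t ^ (-(1/4) : ℝ) * ((r - 1) * x / ((1 + r * x) * (1 + x))) =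
        (x * t ^ (-(1/4) : ℝ)) * (L / ((1 + r * x) * (1 + x))) := by
      field_simp
    rw [e3]
    have h16 : (1 + Γ * v) * Real.exp (-(c * v)) ≤ L / ((1 + r * x) * (1 + x)) := by
      rw [le_div_iff₀ hd]
      linarith
    calc x * t ^ (-(1/4) : ℝ) * (1 + Γ * v) * Real.exp (-(c * v)) =
        (x * t ^ (-(1/4) : ℝ)) * ((1 + Γ * v) * Real.exp (-(c * v))) := by ring
      _ ≤ _ := mul_le_mul_of_nonneg_left h16 (by positivity)
  refine (Finset.sum_le_sum fun k _ => key k).trans ?_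
  rw [← Finset.mul_sum, Finset.sum_range_sub (fun k => u k / (1 + u k)) K]
  have h1 : u K / (1 + u K) ≤ 1 := by
    have := hu0 K
    rw [div_le_one (by positivity)]
    linarith
  have h2 : 0 ≤ u 0 / (1 + u 0) := by
    have := hu0 0
    positivity
  have h3 : 0 ≤ L / (r - 1) * t ^ (-(1/4) : ℝ) :=
    mul_nonneg (div_nonneg hL0.le (by linarith)) (by positivity)
  calc L / (r - 1) * t ^ (-(1/4) : ℝ) * (u K / (1 + u K) - u 0 / (1 + u 0)) ≤
      L / (r - 1) * t ^ (-(1/4) : ℝ) * 1 := mul_le_mul_of_nonneg_left (by linarith) h3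
    _ = _ := by ring

end Pool.Agent.D0H95.AL
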