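import Pool.Agent.D0H95.AL.Fix

/-!
The sum over all the pairs of edges, for one edge.
-/

set_option autoImplicit false
set_option maxHeartbeats 4000000

namespace Pool.Agent.D0H95.AL

open H974 H12S H973N Finset Pool.Agent.W424.NC

theorem ind_split64 (K : ℕ) (x : ℤ) : ind (x ≤ 64 * 2 ^ K) ≤ ind (x ≤ 32) +
    ∑ k ∈ Finset.range (K + 1), ind (32 * (2:ℤ) ^ k < x ∧ x ≤ 64 * (2:ℤ) ^ k) := by
  induction K with
  | zero =>
    rw [Finset.sum_range_one]
    by_cases h : x ≤ 32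
    · rw [ind_of h]
      have := ind_le_one (x ≤ 64 * 2 ^ 0)
      have := ind_nonneg (32 * (2:ℤ) ^ 0 < x ∧ x ≤ 64 * (2:ℤ) ^ 0)
      linarith
    · have : ind (x ≤ 64 * 2 ^ 0) ≤ ind (32 * (2:ℤ) ^ 0 < x ∧ x ≤ 64 * (2:ℤ) ^ 0) := by
        apply ind_mono
        intro h'
        norm_num at h' ⊢
        omega
      have := ind_nonneg (x ≤ 32)
      linarith
  | succ K ih =>
    rw [Finset.sum_range_succ]
    by_cases h : x ≤ 64 * 2 ^ K
    · have h1 : ind (x ≤ 64 * 2 ^ K) = 1 := ind_of h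
      have h2 := ind_le_one (x ≤ 64 * 2 ^ (K + 1))
      have h3 := ind_nonneg (32 * (2:ℤ) ^ (K + 1) < x ∧ x ≤ 64 * (2:ℤ) ^ (K + 1))
      linarith
    · have h1 : ind (x ≤ 64 * 2 ^ (K + 1)) ≤
          ind (32 * (2:ℤ) ^ (K + 1) < x ∧ x ≤ 64 * (2:ℤ) ^ (K + 1)) := by
        apply ind_mono
        intro h'
        push Not at h
        refine ⟨?_, h'⟩
        have : (32 : ℤ) * 2 ^ (K + 1) = 64 * 2 ^ K := by rw [pow_succ]; ring
        rw [this]
        exact h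
      have h2 := ind_nonneg (x ≤ 32)
      have h3 : 0 ≤ ∑ k ∈ Finset.range (K + 1), ind (32 * (2:ℤ) ^ k < x ∧ x ≤ 64 * (2:ℤ) ^ k) :=
        Finset.sum_nonneg fun _ _ => ind_nonneg _
      linarith

theorem pow_calc2 (x : ℝ) (hx : 0 < x) : x ^ (-(5/4) : ℝ) * (x * Real.sqrt x) = x ^ (1/4 : ℝ) := by
  have h3 : x * Real.sqrt x = x ^ (3/2 : ℝ) := by
    rw [Real.sqrt_eq_rpow]
    nth_rewrite 1 [← Real.rpow_one x]
    rw [← Real.rpow_add hx]
    norm_num
  rw [h3, ← Real.rpow_add hx]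
  norm_num

theorem pow_calc3 (x : ℝ) (hx : 0 < x) : x ^ 4 * (x ^ (-(5/4) : ℝ)) ^ 3 = x ^ (1/4 : ℝ) := by
  have h1 : (x ^ (-(5/4) : ℝ)) ^ 3 = x ^ (-(15/4) : ℝ) := by
    rw [← Real.rpow_natCast, ← Real.rpow_mul hx.le]; norm_num
  have h2 : x ^ 4 = x ^ (4 : ℝ) := by rw [← Real.rpow_natCast]; norm_num
  rw [h1, h2, ← Real.rpow_add hx]
  norm_num

theorem fixed_c : ∃ C s0 : ℝ, 0 < C ∧ 0 < s0 ∧ s0 ≤ 1/4 ∧ ∀ q : ℝ, 1/2 - s0 ≤ q → q < 1/2 →
    ∀ (c : Edg) (K : ℕ) (S : Finset Edg), blk (bp c) (200 * 2^K) ⊆ S → ∀ G V : Finset Edg,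
      ∑ a ∈ G, ∑ b ∈ V, ind (dst c a ≤ 64 * 2^K ∧ cond c a b) * PQ q S (T3 c a b) ≤
        C * (1/2 - q) ^ (-(1/3) : ℝ) := by
  obtain ⟨κ, b, c', C', hκ, hb, hc', hC', hnear⟩ := nearS
  obtain ⟨c1, C1, hc1, hC1, hup⟩ := a4_upper
  obtain ⟨A, hA⟩ : ∃ A : ℝ, A = max 1 C1 := ⟨_, rfl⟩
  have hA1 : 1 ≤ A := by rw [hA]; exact le_max_left _ _
  have hAC : C1 ≤ A := by rw [hA]; exact le_max_right _ _
  obtain ⟨β, hβ⟩ : ∃ β : ℝ, β = b^(4/3 : ℝ) := ⟨_, rfl⟩
  have hβ0 : 0 < β := by rw [hβ]; positivity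
  obtain ⟨C2, hC2, htele⟩ := tele_exp c1 (2 / β) hc1 (by positivity)
  obtain ⟨C3, hC3⟩ : ∃ C3 : ℝ, C3 = (10^10 * κ⁻¹ ^ 4 + 10^10) * A ^ 3 := ⟨_, rfl⟩
  have hC30 : 0 < C3 := by rw [hC3]; positivity
  refine ⟨162 * 162 * 64 * 64 + C3 * C2, min (1/4) (b / 24), by positivity,
    lt_min (by norm_num) (by positivity), min_le_left _ _, ?_⟩
  intro q hq0 hq1 c K S hS G V
  obtain ⟨s, hs⟩ : ∃ s : ℝ, s = 1/2 - q := ⟨_, rfl⟩
  have hs0 : 0 < s := by rw [hs]; linarith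
  have hs1 : s ≤ 1/4 := by
    have := min_le_left (1/4) (b / 24)
    rw [hs]; linarith
  have hs2 : s ≤ b / 24 := by
    have := min_le_right (1/4) (b / 24)
    rw [hs]; linarith
  have h0 : 0 ≤ q := by linarith
  have h1 : q ≤ 1 := by linarith
  have hOk : Ok (fun _ : Edg => q) := fun _ => ⟨h0, h1⟩
  obtain ⟨t, ht⟩ : ∃ t : ℝ, t = s^(4/3 : ℝ) := ⟨_, rfl⟩
  have ht0 : 0 < t := by rw [ht]; positivity
  have hts : t ^ (-(1/4) : ℝ) = s ^ (-(1/3) : ℝ) := by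
    rw [ht, ← Real.rpow_mul hs0.le]; norm_num
  -- the scale
  have hbt : 24 ≤ β / t := by
    rw [hβ, ht, ← Real.div_rpow hb.le hs0.le]
    have h24 : 24 ≤ b / s := by
      rw [le_div_iff₀ hs0]
      linarith
    calc (24:ℝ) ≤ b / s := h24
      _ = (b / s) ^ (1:ℝ) := (Real.rpow_one _).symm
      _ ≤ _ := Real.rpow_le_rpow_of_exponent_le (by linarith) (by norm_num)
  obtain ⟨n, hn⟩ : ∃ n : ℕ, n = ⌊β / t⌋₊ := ⟨_, rfl⟩
  have hn24 : 24 ≤ n := by rw [hn]; exact Nat.le_floor (by exact_mod_cast hbt)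
  have hn1 : (n:ℝ) ≤ β / t := by rw [hn]; exact Nat.floor_le (by positivity)
  have hn2 : β / t < n + 1 := by rw [hn]; exact Nat.lt_floor_add_one _
  have hn3 : (24:ℝ) ≤ n := by exact_mod_cast hn24
  have hnr : (0:ℝ) < n := by linarith
  have hinv : 1 / (n:ℝ) ≤ 2 / β * t := by
    rw [div_mul_eq_mul_div, div_le_div_iff₀ hnr hβ0]
    have h5 : β / t ≤ 2 * n := by linarith
    rw [div_le_iff₀ ht0] at h5
    linarith
  have habs : |q - 1/2| = s := by rw [abs_sub_comm, abs_of_nonneg (by linarith), hs]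
  have hwin0 : |q - 1/2| ≤ b * (n:ℝ)^(-(3/4 : ℝ)) := by
    rw [habs]
    have e1 : s = t^(3/4 : ℝ) := by
      rw [ht, ← Real.rpow_mul hs0.le]; norm_num
    have e2 : b = β^(3/4 : ℝ) := by
      rw [hβ, ← Real.rpow_mul hb.le]; norm_num
    rw [e1, e2, Real.rpow_neg hnr.le, ← div_eq_mul_inv, ← Real.div_rpow hβ0.le hnr.le]
    apply Real.rpow_le_rpow ht0.le _ (by norm_num)
    rw [le_div_iff₀ hnr, mul_comm, ← le_div_iff₀ ht0]
    exact hn1
  have hW : Win q κ n := (hnear n (by omega) q hwin0).1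
  -- the four-arm probabilities
  have hup' : ∀ k : ℕ, a4 q (2^k) ≤ A * ((2:ℝ)^k)^(-(5/4) : ℝ) *
      Real.exp (-(c1 * ((2:ℝ)^k * t))) := by
    intro k
    have h5 := hup q h0 hq1.le (2^k) Nat.one_le_two_pow
    rw [← hs, ← ht] at h5
    push_cast at h5
    refine h5.trans ?_
    apply mul_le_mul_of_nonneg_right _ (Real.exp_pos _).le
    exact mul_le_mul_of_nonneg_right hAC (by positivity)
  have ha : ∀ j : ℕ, a4 q (2^j) ≤ A * ((2:ℝ)^j) ^ (-(5/4) : ℝ) := by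
    intro j
    refine (hup' j).trans ?_
    have h5 : Real.exp (-(c1 * ((2:ℝ)^j * t))) ≤ 1 := by
      rw [Real.exp_le_one_iff]
      have : 0 ≤ c1 * ((2:ℝ)^j * t) := by positivity
      linarith
    exact mul_le_of_le_one_right (by positivity) h5
  -- splitting
  have hsplit : ∑ a ∈ G, ∑ b ∈ V, ind (dst c a ≤ 64 * 2^K ∧ cond c a b) * PQ q S (T3 c a b) ≤
      ∑ a ∈ G, ∑ b ∈ V, ind (dst c a ≤ 32 ∧ cond c a b) * PQ q S (T3 c a b) +
      ∑ k ∈ Finset.range (K + 1),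
        ∑ a ∈ G.filter (fun a => 32 * (2:ℤ)^k < dst c a ∧ dst c a ≤ 64 * (2:ℤ)^k), ∑ b ∈ V,
          ind (cond c a b) * PQ q S (T3 c a b) := by
    have e1 : ∑ k ∈ Finset.range (K + 1),
        ∑ a ∈ G.filter (fun a => 32 * (2:ℤ)^k < dst c a ∧ dst c a ≤ 64 * (2:ℤ)^k), ∑ b ∈ V,
          ind (cond c a b) * PQ q S (T3 c a b) =
        ∑ a ∈ G, ∑ k ∈ Finset.range (K + 1),
          ind (32 * (2:ℤ)^k < dst c a ∧ dst c a ≤ 64 * (2:ℤ)^k) *
            ∑ b ∈ V, ind (cond c a b) * PQ q S (T3 c a b) := by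
      rw [Finset.sum_comm]
      refine Finset.sum_congr rfl fun k _ => ?_
      rw [Finset.sum_filter]
      refine Finset.sum_congr rfl fun a _ => ?_
      by_cases h : 32 * (2:ℤ)^k < dst c a ∧ dst c a ≤ 64 * (2:ℤ)^k
      · rw [if_pos h, ind_of h, one_mul]
      · rw [if_neg h, ind_not_of h, zero_mul]
    rw [e1, ← Finset.sum_add_distrib]
    refine Finset.sum_le_sum fun a _ => ?_
    have hX : 0 ≤ ∑ b ∈ V, ind (cond c a b) * PQ q S (T3 c a b) :=
      Finset.sum_nonneg fun b _ => mul_nonneg (ind_nonneg _) (Pr_nonneg hOk _ _)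
    have e2 : ∀ x : ℤ, ∑ b ∈ V, ind (dst c a ≤ x ∧ cond c a b) * PQ q S (T3 c a b) =
        ind (dst c a ≤ x) * ∑ b ∈ V, ind (cond c a b) * PQ q S (T3 c a b) := by
      intro x
      rw [Finset.mul_sum]
      refine Finset.sum_congr rfl fun b _ => ?_
      rw [ind_and, mul_assoc]
    rw [e2, e2, ← Finset.sum_mul, ← add_mul]
    exact mul_le_mul_of_nonneg_right (ind_split64 K (dst c a)) hX
  -- small distances
  have hsmall : ∑ a ∈ G, ∑ b ∈ V, ind (dst c a ≤ 32 ∧ cond c a b) * PQ q S (T3 c a b) ≤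
      162 * 162 * 64 * 64 := by
    have e1 : ∑ a ∈ G, ∑ b ∈ V, ind (dst c a ≤ 32 ∧ cond c a b) * PQ q S (T3 c a b) =
        ∑ a ∈ G.filter (fun a => dst c a ≤ 32), ∑ b ∈ V,
          ind (dst c a ≤ 32 ∧ cond c a b) * PQ q S (T3 c a b) := by
      symm
      apply Finset.sum_subset (Finset.filter_subset _ _)
      intro a haG ha'
      rw [Finset.mem_filter, not_and] at ha'
      have h5 := ha' haG
      apply Finset.sum_eq_zero
      intro b _
      rw [ind_not_of (fun h => h5 h.1), zero_mul]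
    rw [e1]
    have h5 := class_crude (ρ := 8) (by norm_num) (R := 8) (by norm_num) (c := c)
      (G := G.filter (fun a => dst c a ≤ 32)) (V := V)
      (fun a haG => by
        have := (Finset.mem_filter.mp haG).2
        push_cast
        linarith) (fun a b => PQ q S (T3 c a b)) (A := 1) zero_le_one
      (fun a b => dst c a ≤ 32 ∧ cond c a b)
      (fun a b h => by
        have := h.2.2.1
        push_cast
        linarith [h.1])
      (fun a _ b _ _ => Pr_le_one hOk _ _)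
    refine h5.trans (le_of_eq ?_)
    norm_num
  -- one shell
  have hshell : ∀ k ∈ Finset.range (K + 1),
      ∑ a ∈ G.filter (fun a => 32 * (2:ℤ)^k < dst c a ∧ dst c a ≤ 64 * (2:ℤ)^k), ∑ b ∈ V,
          ind (cond c a b) * PQ q S (T3 c a b) ≤
      C3 * (((2:ℝ)^k) ^ (1/4 : ℝ) * (1 + 2 / β * ((2:ℝ)^k * t)) *
        Real.exp (-(c1 * ((2:ℝ)^k * t)))) := by
    intro k hk
    have hkK : k ≤ K := by
      have := Finset.mem_range.mp hk
      omega
    have hSk : blk (bp c) (200 * 2^k) ⊆ S := by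
      refine Finset.Subset.trans ?_ hS
      have h5 : (2:ℤ)^k ≤ 2^K := pow_le_pow_right₀ (by norm_num) hkK
      unfold blk
      push_cast
      apply RE_subset <;> linarith
    have h5 := shell hW (by omega) hA1 ha hSk (V := V)
      (G := G.filter (fun a => 32 * (2:ℤ)^k < dst c a ∧ dst c a ≤ 64 * (2:ℤ)^k))
      (fun a haG => (Finset.mem_filter.mp haG).2)
    refine h5.trans ?_
    obtain ⟨x, hx⟩ : ∃ x : ℝ, x = (2:ℝ)^k := ⟨_, rfl⟩
    have hx0 : 0 < x := by rw [hx]; positivity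
    obtain ⟨e, he⟩ : ∃ e : ℝ, e = Real.exp (-(c1 * (x * t))) := ⟨_, rfl⟩
    have he0 : 0 < e := by rw [he]; exact Real.exp_pos _
    have he1 : e ≤ 1 := by
      rw [he, Real.exp_le_one_iff]
      have : 0 ≤ c1 * (x * t) := by positivity
      linarith
    have hak := hup' k
    have hak0 := a4nn h0 h1 (2^k)
    have esq := sqrt_two_pow k
    rw [← hx] at hak esq ⊢
    rw [← he] at hak ⊢
    rw [← esq]
    have hxn : 1 + x / n ≤ 1 + 2 / β * (x * t) := by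
      have h6 : x / n = x * (1 / n) := by ring
      rw [h6]
      have := mul_le_mul_of_nonneg_left hinv hx0.le
      linarith
    have hY : 1 ≤ 1 + 2 / β * (x * t) := by
      have : 0 ≤ 2 / β * (x * t) := by positivity
      linarith
    have hsx : 0 ≤ Real.sqrt x := Real.sqrt_nonneg _
    have b1 : a4 q (2^k) * (x * Real.sqrt x * (1 + x / n)) ≤
        A * (x ^ (1/4 : ℝ) * (1 + 2 / β * (x * t)) * e) := by
      calc a4 q (2^k) * (x * Real.sqrt x * (1 + x / n)) ≤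
          (A * x ^ (-(5/4) : ℝ) * e) * (x * Real.sqrt x * (1 + 2 / β * (x * t))) :=
            mul_le_mul hak (mul_le_mul_of_nonneg_left hxn (by positivity)) (by positivity)
              (by positivity)
        _ = A * ((x ^ (-(5/4) : ℝ) * (x * Real.sqrt x)) * (1 + 2 / β * (x * t)) * e) := by ring
        _ = _ := by rw [pow_calc2 x hx0]
    have b2 : x ^ 4 * (a4 q (2^k)) ^ 3 ≤
        A ^ 3 * (x ^ (1/4 : ℝ) * (1 + 2 / β * (x * t)) * e) := by
      calc x ^ 4 * (a4 q (2^k)) ^ 3 ≤ x ^ 4 * (A * x ^ (-(5/4) : ℝ) * e) ^ 3 :=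
            mul_le_mul_of_nonneg_left (pow_le_pow_left₀ hak0 hak 3) (by positivity)
        _ = A ^ 3 * ((x ^ 4 * (x ^ (-(5/4) : ℝ)) ^ 3) * e * e ^ 2) := by ring
        _ = A ^ 3 * (x ^ (1/4 : ℝ) * e * e ^ 2) := by rw [pow_calc3 x hx0]
        _ ≤ A ^ 3 * (x ^ (1/4 : ℝ) * e * 1) := by
            apply mul_le_mul_of_nonneg_left _ (by positivity)
            apply mul_le_mul_of_nonneg_left _ (by positivity)
            exact pow_le_one₀ he0.le he1
        _ = A ^ 3 * (x ^ (1/4 : ℝ) * e) := by ring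
        _ ≤ A ^ 3 * ((x ^ (1/4 : ℝ) * e) * (1 + 2 / β * (x * t))) := by
            apply mul_le_mul_of_nonneg_left _ (by positivity)
            exact le_mul_of_one_le_right (by positivity) hY
        _ = _ := by ring
    obtain ⟨Z, hZ⟩ : ∃ Z : ℝ, Z = x ^ (1/4 : ℝ) * (1 + 2 / β * (x * t)) * e := ⟨_, rfl⟩
    rw [← hZ] at b1 b2 ⊢
    calc 10^10 * κ⁻¹ ^ 4 * A ^ 2 * (a4 q (2^k) * (x * Real.sqrt x * (1 + x / n))) +
          10^10 * (x ^ 4 * (a4 q (2^k)) ^ 3) ≤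
          10^10 * κ⁻¹ ^ 4 * A ^ 2 * (A * Z) + 10^10 * (A ^ 3 * Z) := by
          apply add_le_add
          · exact mul_le_mul_of_nonneg_left b1 (by positivity)
          · exact mul_le_mul_of_nonneg_left b2 (by positivity)
      _ = _ := by rw [hC3]; ring
  have hfin := Finset.sum_le_sum hshell
  rw [← Finset.mul_sum] at hfin
  have h6 := htele t ht0 (K + 1)
  rw [hts] at h6
  have h7 : 1 ≤ s ^ (-(1/3) : ℝ) :=
    Real.one_le_rpow_of_pos_of_le_one_of_nonpos hs0 (by linarith) (by norm_num)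
  rw [← hs]
  calc ∑ a ∈ G, ∑ b ∈ V, ind (dst c a ≤ 64 * 2^K ∧ cond c a b) * PQ q S (T3 c a b) ≤
      162 * 162 * 64 * 64 + C3 * (C2 * s ^ (-(1/3) : ℝ)) :=
        hsplit.trans (add_le_add hsmall (hfin.trans (mul_le_mul_of_nonneg_left h6 hC30.le)))
    _ ≤ 162 * 162 * 64 * 64 * s ^ (-(1/3) : ℝ) + C3 * (C2 * s ^ (-(1/3) : ℝ)) := by
        apply add_le_add _ le_rfl
        exact le_mul_of_one_le_right (by norm_num) h7
    _ = _ := by ring

end Pool.Agent.D0H95.AL
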