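import Pool.Agent.D0H95.AL.FixC
import Pool.Agent.H973R3.NC.DV
import Pool.Agent.H973R3.NC.ES

/-!
The sum over all the triples of edges of a box.
-/

set_option autoImplicit false
set_option maxHeartbeats 4000000

namespace Pool.Agent.D0H95.AL

open H974 H12S H973N Finset Pool.Agent.W424.NC

/-- Insertion of one edge costs at most a factor `q⁻¹`. -/
theorem pr_insert_le {q : ℝ} (h0 : 0 < q) (h1 : q ≤ 1) {S : Finset Edg} {g : Edg} (hg : g ∈ S)
    (B : Finset Edg → Prop) :
    q * PQ q S (fun F => B (insert g F)) ≤ PQ q S B := by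
  have hOk : Ok (fun _ : Edg => q) := fun _ => ⟨h0.le, h1⟩
  have e1 : PQ q S (fun F => B (insert g F)) = PQ q (S.erase g) (fun F => B (insert g F)) := by
    refine Pr_local (Finset.erase_subset g S) ?_
    intro F hF
    have : insert g (F ∩ S.erase g) = insert g F := by
      ext x
      simp only [mem_insert, mem_inter, mem_erase]
      constructor
      · rintro (h | ⟨h, _⟩)
        · exact Or.inl h
        · exact Or.inr h
      · rintro (h | h)
        · exact Or.inl h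
        · by_cases hx : x = g
          · exact Or.inl hx
          · exact Or.inr ⟨h, hx, hF h⟩
    rw [this]
  have e2 : PQ q S B = q * PQ q (S.erase g) (fun F => B (insert g F)) +
      (1 - q) * PQ q (S.erase g) B := ES.Ex_split q hg (fun F => ind (B F))
  rw [e1, e2]
  have : 0 ≤ (1 - q) * PQ q (S.erase g) B := mul_nonneg (by linarith) (Pr_nonneg hOk _ _)
  linarith

theorem reach_of_Pf {e f : Edg} {G : Finset Edg} (h : Pf (hC e) f G) :
    Reach (↑G : Set Edg) (src e) (src f) ∨ Reach (↑G : Set Edg) (src e) (tgt f) := by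
  obtain ⟨h1, h2⟩ := h
  have hs : ((↑(insert f G) : Set Edg) \ {e}) ⊆ insert f ((↑(G.erase f) : Set Edg) \ {e}) := by
    intro x hx
    simp only [Finset.coe_insert, Finset.coe_erase, Set.mem_sdiff, Set.mem_insert_iff,
      Finset.mem_coe, Set.mem_singleton_iff] at hx ⊢
    tauto
  have h3 : Reach (insert f ((↑(G.erase f) : Set Edg) \ {e})) (src e) (tgt e) := h1.mono hs
  have hm : ((↑(G.erase f) : Set Edg) \ {e}) ⊆ (↑G : Set Edg) := by
    intro x hx
    simp only [Finset.coe_erase, Set.mem_sdiff, Finset.mem_coe, Set.mem_singleton_iff] at hx ⊢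
    exact hx.1.1
  rcases (GR_insert (s := src) (t := tgt)).mp h3 with h4 | ⟨h4, _⟩ | ⟨h4, _⟩
  · exact absurd h4 h2
  · exact Or.inl (Reach.mono hm h4)
  · exact Or.inr (Reach.mono hm h4)

/-- The crude bound. -/
theorem crude {q : ℝ} (h0 : 1/4 ≤ q) (h1 : q ≤ 1) {S : Finset Edg} {e f g : Edg} (hg : g ∈ S)
    {r : ℕ} (hr : (r:ℤ) < dst e f) : PQ q S (T3 e f g) ≤ 4 * arm q r := by
  have hOk : Ok (fun _ : Edg => q) := fun _ => ⟨by linarith, h1⟩
  obtain ⟨B, hB⟩ : ∃ B : Finset Edg → Prop, B = fun F : Finset Edg => ∃ u : Vtx,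
      (u.1 ≤ (src e).1 - r ∨ (src e).1 + r ≤ u.1 ∨ u.2 ≤ (src e).2 - r ∨
      (src e).2 + r ≤ u.2) ∧ Reach (↑F : Set Edg) (src e) u := ⟨_, rfl⟩
  have hfar : ∀ u : Vtx, (u = src f ∨ u = tgt f) → (u.1 ≤ (src e).1 - r ∨ (src e).1 + r ≤ u.1 ∨
      u.2 ≤ (src e).2 - r ∨ (src e).2 + r ≤ u.2) := by
    obtain ⟨x, y, b⟩ := e
    obtain ⟨x', y', b'⟩ := f
    unfold dst at hr
    simp only at hr
    have h5 : (r:ℤ) < |x - x'| ∨ (r:ℤ) < |y - y'| := lt_max_iff.mp hr
    have h6 : (x - x' < -r ∨ (r:ℤ) < x - x') ∨ (y - y' < -r ∨ (r:ℤ) < y - y') := by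
      rcases h5 with h5 | h5
      · left
        rcases lt_abs.mp h5 with h | h
        · right; exact h
        · left; linarith
      · right
        rcases lt_abs.mp h5 with h | h
        · right; exact h
        · left; linarith
    rintro u (rfl | rfl)
    · simp only [src_mk]
      omega
    · cases b'
      · simp only [src_mk, tgt_false]
        omega
      · simp only [src_mk, tgt_true]
        omega
  have s1 : PQ q S (T3 e f g) ≤ PQ q S (fun F => B (insert g F)) := by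
    refine Pr_mono hOk ?_
    intro F _ hF
    have h2 : Reach (↑(insert g F) : Set Edg) (src e) (src f) ∨
        Reach (↑(insert g F) : Set Edg) (src e) (tgt f) := by
      rcases hF.1 with h | h
      · have hm : (↑(F.erase g) : Set Edg) ⊆ ↑(insert g F) := by
          intro x hx
          simp only [Finset.coe_erase, Finset.coe_insert, Set.mem_sdiff, Set.mem_insert_iff,
            Finset.mem_coe] at hx ⊢
          exact Or.inr hx.1
        rcases reach_of_Pf h with h | h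
        · exact Or.inl (h.mono hm)
        · exact Or.inr (h.mono hm)
      · exact reach_of_Pf h
    rw [hB]
    rcases h2 with h2 | h2
    · exact ⟨_, hfar _ (Or.inl rfl), h2⟩
    · exact ⟨_, hfar _ (Or.inr rfl), h2⟩
  have s2 := pr_insert_le (by linarith) h1 hg B
  have s3 : PQ q S B ≤ arm q r := by
    rw [hB]
    exact arm_bound (by linarith) h1 S (src e) r
  have s4 : 0 ≤ PQ q S (fun F => B (insert g F)) := Pr_nonneg hOk _ _
  have s5 : 1/4 * PQ q S (fun F => B (insert g F)) ≤ q * PQ q S (fun F => B (insert g F)) :=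
    mul_le_mul_of_nonneg_right h0 s4
  linarith

/-! ### cardinalities -/

theorem card_boxE_le (n : ℕ) : ((boxE n).card : ℝ) ≤ 2 * (2 * (n:ℝ) + 1)^2 := by
  have h1 : boxE n ⊆ (Finset.Icc (-(n:ℤ)) n) ×ˢ ((Finset.Icc (-(n:ℤ)) n) ×ˢ
      (Finset.univ : Finset Bool)) := by
    intro e he
    obtain ⟨⟨h1, h2⟩, h3, h4⟩ := NP.RE_weak he
    rw [Finset.mem_product, Finset.mem_product, Finset.mem_Icc, Finset.mem_Icc]
    exact ⟨⟨h1, h2⟩, ⟨h3, h4⟩, Finset.mem_univ _⟩
  have h2 := Finset.card_le_card h1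
  rw [Finset.card_product, Finset.card_product, Int.card_Icc, Finset.card_univ,
    Fintype.card_bool] at h2
  have e1 : ((n:ℤ) + 1 - -(n:ℤ)).toNat = 2 * n + 1 := by
    rw [show (n:ℤ) + 1 - -(n:ℤ) = ((2 * n + 1 : ℕ) : ℤ) by push_cast; ring]
    exact Int.toNat_natCast _
  rw [e1] at h2
  have h3 : ((boxE n).card : ℝ) ≤ ((2 * n + 1) * ((2 * n + 1) * 2) : ℕ) := by exact_mod_cast h2
  refine h3.trans (le_of_eq ?_)
  push_cast
  ring

theorem le_card_boxE (n : ℕ) : 4 * (n:ℝ)^2 ≤ ((boxE n).card : ℝ) := by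
  have h1 : ((Finset.Ico (-(n:ℤ)) n) ×ˢ ((Finset.Ico (-(n:ℤ)) n) ×ˢ
      ({true} : Finset Bool))) ⊆ boxE n := by
    rintro ⟨x, y, b⟩ h
    rw [Finset.mem_product, Finset.mem_product, Finset.mem_Ico, Finset.mem_Ico,
      Finset.mem_singleton] at h
    simp only at h
    obtain ⟨h1, h2, rfl⟩ := h
    unfold boxE
    rw [mem_RE_true]
    omega
  have h2 := Finset.card_le_card h1
  rw [Finset.card_product, Finset.card_product, Int.card_Ico, Finset.card_singleton] at h2
  have e1 : ((n:ℤ) - -(n:ℤ)).toNat = 2 * n := by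
    rw [show (n:ℤ) - -(n:ℤ) = ((2 * n : ℕ) : ℤ) by push_cast; ring]
    exact Int.toNat_natCast _
  rw [e1] at h2
  have h3 : (((2 * n) * ((2 * n) * 1) : ℕ) : ℝ) ≤ ((boxE n).card : ℝ) := by exact_mod_cast h2
  refine le_trans (le_of_eq ?_) h3
  push_cast
  ring

/-! ### the total sum -/

theorem T3_self1 {e g : Edg} {F : Finset Edg} : ¬ T3 e e g F := by
  rintro ⟨h, _⟩
  have key : ∀ G : Finset Edg, ¬ Pf (hC e) e G := by
    rintro G ⟨h1, h2⟩
    apply h2
    unfold hC at h1 ⊢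
    refine Reach.mono ?_ h1
    intro x hx
    simp only [Finset.coe_insert, Finset.coe_erase, Set.mem_sdiff, Set.mem_insert_iff,
      Finset.mem_coe, Set.mem_singleton_iff] at hx ⊢
    tauto
  rcases h with h | h
  · exact key _ h
  · exact key _ h

theorem T3_self2 {e f : Edg} {F : Finset Edg} : ¬ T3 e f e F := by
  rintro ⟨_, h, _⟩
  have key : ∀ G : Finset Edg, ¬ Pf (hC e) e G := by
    rintro G ⟨h1, h2⟩
    apply h2
    unfold hC at h1 ⊢
    refine Reach.mono ?_ h1
    intro x hx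
    simp only [Finset.coe_insert, Finset.coe_erase, Set.mem_sdiff, Set.mem_insert_iff,
      Finset.mem_coe, Set.mem_singleton_iff] at hx ⊢
    tauto
  rcases h with h | h
  · exact key _ h
  · exact key _ h

theorem cond_cover {e f g : Edg} (hef : e ≠ f) (heg : e ≠ g) (hfg : f ≠ g) :
    cond e f g ∨ cond f e g ∨ cond g e f := by
  unfold cond
  have s1 := dstc f e
  have s2 := dstc g e
  have s3 := dstc g f
  rcases le_total (dst f g) (dst e f) with h1 | h1
  · rcases le_total (dst f g) (dst e g) with h2 | h2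
    · exact Or.inl ⟨hfg, h1, h2⟩
    · refine Or.inr (Or.inl ⟨heg, ?_, h2⟩)
      rw [s1]
      linarith
  · rcases le_total (dst e f) (dst e g) with h2 | h2
    · refine Or.inr (Or.inr ⟨hef, ?_, ?_⟩)
      · rw [s2]; exact h2
      · rw [s3]; exact h1
    · refine Or.inr (Or.inl ⟨heg, ?_, ?_⟩)
      · rw [s1]; exact h2
      · linarith

theorem total : ∃ C s0 : ℝ, 0 < C ∧ 0 < s0 ∧ s0 ≤ 1/4 ∧ ∀ q : ℝ, 1/2 - s0 ≤ q → q < 1/2 →
    ∀ K : ℕ, ∑ e ∈ boxE (64 * 2^K), ∑ f ∈ boxE (400 * 2^K), ∑ g ∈ (boxE (400 * 2^K)).erase f,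
      PQ q (boxE (400 * 2^K)) (T3 e f g) ≤
      ((boxE (64 * 2^K)).card : ℝ) * (C * (1/2 - q) ^ (-(1/3) : ℝ) +
        12 * ((boxE (400 * 2^K)).card : ℝ)^2 * arm q (64 * 2^K)) := by
  obtain ⟨C, s0, hC, hs0, hs04, hfix⟩ := fixed_c
  refine ⟨19 * C, s0, by positivity, hs0, hs04, ?_⟩
  intro q hq0 hq1 K
  have h0 : 1/4 ≤ q := by linarith
  have h0' : 0 ≤ q := by linarith
  have h1 : q ≤ 1 := by linarith
  have hOk : Ok (fun _ : Edg => q) := fun _ => ⟨h0', h1⟩
  obtain ⟨S, hS⟩ : ∃ S : Finset Edg, S = boxE (400 * 2^K) := ⟨_, rfl⟩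
  obtain ⟨core, hcore⟩ : ∃ S : Finset Edg, S = boxE (64 * 2^K) := ⟨_, rfl⟩
  obtain ⟨big, hbig⟩ : ∃ S : Finset Edg, S = boxE (130 * 2^K) := ⟨_, rfl⟩
  rw [← hS, ← hcore]
  obtain ⟨X, hX⟩ : ∃ X : ℝ, X = C * (1/2 - q) ^ (-(1/3) : ℝ) := ⟨_, rfl⟩
  have hX0 : 0 ≤ X := by
    rw [hX]
    have : 0 < 1/2 - q := by linarith
    positivity
  obtain ⟨T, hT⟩ : ∃ T : Edg → Edg → Edg → ℝ, T = fun e f g => PQ q S (T3 e f g) := ⟨_, rfl⟩
  have hT0 : ∀ e f g, 0 ≤ T e f g := by intro e f g; rw [hT]; exact Pr_nonneg hOk _ _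
  have hp : (0:ℤ) < 2^K := by positivity
  have hp1 : 1 ≤ 2^K := Nat.one_le_two_pow
  -- geometry
  have geoS : ∀ c ∈ big, blk (bp c) (200 * 2^K) ⊆ S := by
    intro c hc
    rw [hbig] at hc
    obtain ⟨⟨r1, r2⟩, r3, r4⟩ := NP.RE_weak hc
    rw [hS]
    unfold blk bp boxE
    push_cast at r1 r2 r3 r4 ⊢
    apply RE_subset <;> linarith
  have core_big : core ⊆ big := by
    rw [hcore, hbig]
    exact boxE_mono (by omega)
  have near_big : ∀ e ∈ core, ∀ f, dst f e ≤ 64 * 2^K → f ∈ big := by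
    intro e he f hf
    rw [hcore] at he
    obtain ⟨⟨r1, r2⟩, r3, r4⟩ := NP.RE_weak he
    obtain ⟨⟨b1, b2⟩, b3, b4⟩ := NP.dst_le hf
    rw [hbig]
    unfold boxE
    push_cast at r1 r2 r3 r4
    have hp2 : (1:ℤ) ≤ 2^K := by omega
    apply NP.RE_strong
    push_cast
    refine ⟨⟨?_, ?_⟩, ?_, ?_⟩ <;> linarith
  -- pointwise bound
  obtain ⟨M, hM⟩ : ∃ M : ℝ, M = 4 * arm q (64 * 2^K) := ⟨_, rfl⟩
  have hM0 : 0 ≤ M := by rw [hM]; have := arm_nonneg h0' h1 (64 * 2^K); positivity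
  have hfar : ∀ c a b : Edg, b ∈ S → ind (cond c a b) * T c a b ≤
      ind (dst c a ≤ 64 * 2^K ∧ cond c a b) * T c a b + M := by
    intro c a b hb
    by_cases hd : dst c a ≤ 64 * 2^K
    · by_cases hc : cond c a b
      · rw [ind_of hc, ind_of ⟨hd, hc⟩]
        linarith
      · rw [ind_not_of hc, zero_mul]
        have := mul_nonneg (ind_nonneg (dst c a ≤ 64 * 2^K ∧ cond c a b)) (hT0 c a b)
        linarith
    · have h5 : T c a b ≤ M := by
        rw [hT, hM]
        exact crude h0 h1 hb (by push_cast; push Not at hd; exact hd)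
      have h6 := mul_nonneg (ind_nonneg (dst c a ≤ 64 * 2^K ∧ cond c a b)) (hT0 c a b)
      have h7 : ind (cond c a b) * T c a b ≤ 1 * T c a b :=
        mul_le_mul_of_nonneg_right (ind_le_one _) (hT0 c a b)
      linarith
  have point : ∀ e ∈ core, ∀ f ∈ S, ∀ g ∈ S.erase f, T e f g ≤
      (ind (dst e f ≤ 64 * 2^K ∧ cond e f g) * T e f g +
      ind (dst f e ≤ 64 * 2^K ∧ cond f e g) * T f e g) +
      (ind (dst g e ≤ 64 * 2^K ∧ cond g e f) * T g e f + 3 * M) := by
    intro e _ f hf g hg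
    have hg' := Finset.mem_erase.mp hg
    have n1 := mul_nonneg (ind_nonneg (dst e f ≤ 64 * 2^K ∧ cond e f g)) (hT0 e f g)
    have n2 := mul_nonneg (ind_nonneg (dst f e ≤ 64 * 2^K ∧ cond f e g)) (hT0 f e g)
    have n3 := mul_nonneg (ind_nonneg (dst g e ≤ 64 * 2^K ∧ cond g e f)) (hT0 g e f)
    have zero_of : (∀ F : Finset Edg, ¬ T3 e f g F) → T e f g = 0 := by
      intro h
      rw [hT]
      have : PQ q S (T3 e f g) = PQ q S (fun _ => False) :=
        Pr_congr fun F _ => ⟨fun h' => (h F h').elim, fun h' => h'.elim⟩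
      simp only [this]
      unfold PQ Pr
      rw [Ex_congr (g := fun _ => (0:ℝ)) (fun F _ => ind_not_of (fun h => h)), Ex_const]
    by_cases hef : e = f
    · subst hef
      rw [zero_of (fun F => T3_self1)]
      linarith
    by_cases heg : e = g
    · subst heg
      rw [zero_of (fun F => T3_self2)]
      linarith
    have hfg : f ≠ g := fun h => hg'.1 h.symm
    rcases cond_cover hef heg hfg with h | h | h
    · have h5 := hfar e f g hg'.2
      rw [ind_of h, one_mul] at h5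
      linarith
    · have h5 := hfar f e g hg'.2
      have h6 : T e f g ≤ T f e g := by
        rw [hT]
        exact Pr_mono hOk fun F _ hF => T3_swap hef heg hfg hF
      rw [ind_of h, one_mul] at h5
      linarith
    · have h5 := hfar g e f hf
      have h6 : T e f g ≤ T g e f := by
        rw [hT]
        exact Pr_mono hOk fun F _ hF =>
          T3_swap heg hef (Ne.symm hfg) (T3_swap' hef heg hfg hF)
      rw [ind_of h, one_mul] at h5
      linarith
  have sum_le : ∀ (e f : Edg) (u : Edg → ℝ), (∀ g, 0 ≤ u g) →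
      ∑ g ∈ S.erase f, u g ≤ ∑ g ∈ S, u g := by
    intro e f u hu
    exact Finset.sum_le_sum_of_subset_of_nonneg (Finset.erase_subset _ _) (fun g _ _ => hu g)
  -- the four sums
  have hA1 : ∑ e ∈ core, ∑ f ∈ S, ∑ g ∈ S.erase f,
      ind (dst e f ≤ 64 * 2^K ∧ cond e f g) * T e f g ≤ (core.card : ℝ) * X := by
    calc ∑ e ∈ core, ∑ f ∈ S, ∑ g ∈ S.erase f,
        ind (dst e f ≤ 64 * 2^K ∧ cond e f g) * T e f g ≤ ∑ e ∈ core, X := by
          refine Finset.sum_le_sum fun e he => ?_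
          refine le_trans (Finset.sum_le_sum fun f _ => sum_le e f _ fun g =>
            mul_nonneg (ind_nonneg _) (hT0 e f g)) ?_
          rw [hT, hX]
          exact hfix q hq0 hq1 e K S (geoS e (core_big he)) S S
      _ = _ := by rw [Finset.sum_const, nsmul_eq_mul]
  have hA2 : ∑ e ∈ core, ∑ f ∈ S, ∑ g ∈ S.erase f,
      ind (dst f e ≤ 64 * 2^K ∧ cond f e g) * T f e g ≤ (big.card : ℝ) * X := by
    have h5 : ∑ e ∈ core, ∑ f ∈ S, ∑ g ∈ S.erase f,
        ind (dst f e ≤ 64 * 2^K ∧ cond f e g) * T f e g ≤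
        ∑ e ∈ core, ∑ f ∈ big, ∑ g ∈ S,
          ind (dst f e ≤ 64 * 2^K ∧ cond f e g) * T f e g := by
      refine Finset.sum_le_sum fun e he => ?_
      have h6 : ∑ f ∈ S, ∑ g ∈ S.erase f,
          ind (dst f e ≤ 64 * 2^K ∧ cond f e g) * T f e g ≤
          ∑ f ∈ S ∪ big, ∑ g ∈ S, ind (dst f e ≤ 64 * 2^K ∧ cond f e g) * T f e g := by
        refine le_trans (Finset.sum_le_sum fun f _ => sum_le e f _ fun g =>
            mul_nonneg (ind_nonneg _) (hT0 f e g)) ?_
        exact Finset.sum_le_sum_of_subset_of_nonneg Finset.subset_union_left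
          (fun f _ _ => Finset.sum_nonneg fun g _ => mul_nonneg (ind_nonneg _) (hT0 f e g))
      refine h6.trans (le_of_eq ?_)
      symm
      apply Finset.sum_subset Finset.subset_union_right
      intro f _ hf
      apply Finset.sum_eq_zero
      intro g _
      rw [ind_not_of (fun h => hf (near_big e he f h.1)), zero_mul]
    refine h5.trans ?_
    rw [Finset.sum_comm]
    calc ∑ f ∈ big, ∑ e ∈ core, ∑ g ∈ S,
        ind (dst f e ≤ 64 * 2^K ∧ cond f e g) * T f e g ≤ ∑ f ∈ big, X := by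
          refine Finset.sum_le_sum fun f hf => ?_
          rw [hT, hX]
          exact hfix q hq0 hq1 f K S (geoS f hf) core S
      _ = _ := by rw [Finset.sum_const, nsmul_eq_mul]
  have hA3 : ∑ e ∈ core, ∑ f ∈ S, ∑ g ∈ S.erase f,
      ind (dst g e ≤ 64 * 2^K ∧ cond g e f) * T g e f ≤ (big.card : ℝ) * X := by
    have h5 : ∑ e ∈ core, ∑ f ∈ S, ∑ g ∈ S.erase f,
        ind (dst g e ≤ 64 * 2^K ∧ cond g e f) * T g e f ≤
        ∑ e ∈ core, ∑ g ∈ big, ∑ f ∈ S,
          ind (dst g e ≤ 64 * 2^K ∧ cond g e f) * T g e f := by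
      refine Finset.sum_le_sum fun e he => ?_
      have h6 : ∑ f ∈ S, ∑ g ∈ S.erase f,
          ind (dst g e ≤ 64 * 2^K ∧ cond g e f) * T g e f ≤
          ∑ f ∈ S, ∑ g ∈ S ∪ big, ind (dst g e ≤ 64 * 2^K ∧ cond g e f) * T g e f := by
        refine Finset.sum_le_sum fun f _ => ?_
        refine (sum_le e f _ fun g => mul_nonneg (ind_nonneg _) (hT0 g e f)).trans ?_
        exact Finset.sum_le_sum_of_subset_of_nonneg Finset.subset_union_left
          (fun g _ _ => mul_nonneg (ind_nonneg _) (hT0 g e f))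
      refine h6.trans (le_of_eq ?_)
      rw [Finset.sum_comm]
      symm
      apply Finset.sum_subset Finset.subset_union_right
      intro g _ hg
      apply Finset.sum_eq_zero
      intro f _
      rw [ind_not_of (fun h => hg (near_big e he g h.1)), zero_mul]
    refine h5.trans ?_
    rw [Finset.sum_comm]
    calc ∑ g ∈ big, ∑ e ∈ core, ∑ f ∈ S,
        ind (dst g e ≤ 64 * 2^K ∧ cond g e f) * T g e f ≤ ∑ g ∈ big, X := by
          refine Finset.sum_le_sum fun g hg => ?_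
          rw [hT, hX]
          exact hfix q hq0 hq1 g K S (geoS g hg) core S
      _ = _ := by rw [Finset.sum_const, nsmul_eq_mul]
  have hA4 : ∑ e ∈ core, ∑ f ∈ S, ∑ g ∈ S.erase f, 3 * M ≤
      (core.card : ℝ) * ((S.card : ℝ)^2 * (3 * M)) := by
    have h5 : ∀ f ∈ S, ∑ g ∈ S.erase f, 3 * M ≤ (S.card : ℝ) * (3 * M) := by
      intro f _
      rw [Finset.sum_const, nsmul_eq_mul]
      apply mul_le_mul_of_nonneg_right _ (by positivity)
      exact_mod_cast Finset.card_le_card (Finset.erase_subset f S)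
    calc ∑ e ∈ core, ∑ f ∈ S, ∑ g ∈ S.erase f, 3 * M ≤
        ∑ e ∈ core, ∑ f ∈ S, (S.card : ℝ) * (3 * M) :=
          Finset.sum_le_sum fun e _ => Finset.sum_le_sum h5
      _ = _ := by
          rw [Finset.sum_const, Finset.sum_const, nsmul_eq_mul, nsmul_eq_mul]
          ring
  have hcb : (big.card : ℝ) ≤ 9 * (core.card : ℝ) := by
    have h5 := card_boxE_le (130 * 2^K)
    have h6 := le_card_boxE (64 * 2^K)
    rw [← hbig] at h5
    rw [← hcore] at h6
    push_cast at h5 h6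
    have h7 : (1:ℝ) ≤ 2^K := one_le_pow₀ (by norm_num)
    nlinarith
  have hall : ∑ e ∈ core, ∑ f ∈ S, ∑ g ∈ S.erase f, T e f g ≤
      ((core.card : ℝ) * X + (big.card : ℝ) * X) + ((big.card : ℝ) * X +
        (core.card : ℝ) * ((S.card : ℝ)^2 * (3 * M))) := by
    refine le_trans (Finset.sum_le_sum fun e he => Finset.sum_le_sum fun f hf =>
      Finset.sum_le_sum fun g hg => point e he f hf g hg) ?_
    simp only [Finset.sum_add_distrib]
    exact add_le_add (add_le_add hA1 hA2) (add_le_add hA3 hA4)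
  rw [hT] at hall
  refine hall.trans ?_
  have h9 := mul_le_mul_of_nonneg_right hcb hX0
  have e9 : (core.card : ℝ) * (19 * C * (1/2 - q) ^ (-(1/3) : ℝ) +
      12 * (S.card : ℝ)^2 * arm q (64 * 2^K)) =
      19 * ((core.card : ℝ) * X) + (core.card : ℝ) * ((S.card : ℝ)^2 * (3 * M)) := by
    rw [hX, hM]; ring
  rw [e9]
  linarith

end Pool.Agent.D0H95.AL
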