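import Pool.Agent.D0H95.AL.Dual
import Pool.Agent.D0H95.AL.Tot
import Pool.Agent.H973R3.NC.CT

/-!
The probability that the end points of an edge are connected off the edge.
-/

set_option autoImplicit false
set_option maxHeartbeats 4000000

namespace Pool.Agent.D0H95.AL

open H974 H12S H973N Finset Filter

/-- In the box of radius `ℓ`. -/
noncomputable def Hl (b : Bool) (q : ℝ) (ℓ : ℕ) : ℝ := PQ q (boxE ℓ) (hC (e0 b))

theorem hC_incr (e : Edg) (S : Finset Edg) : IncrE S (hC e) := fun F G h _ hF => hC_mono e F G h hF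

theorem Hl_nonneg {b : Bool} {q : ℝ} (h0 : 0 ≤ q) (h1 : q ≤ 1) (ℓ : ℕ) : 0 ≤ Hl b q ℓ :=
  Pr_nonneg (fun _ => ⟨h0, h1⟩) _ _

theorem Hl_le_one {b : Bool} {q : ℝ} (h0 : 0 ≤ q) (h1 : q ≤ 1) (ℓ : ℕ) : Hl b q ℓ ≤ 1 :=
  Pr_le_one (fun _ => ⟨h0, h1⟩) _ _

theorem Hl_mono {b : Bool} {q : ℝ} (h0 : 0 ≤ q) (h1 : q ≤ 1) {ℓ ℓ' : ℕ} (h : ℓ ≤ ℓ') :
    Hl b q ℓ ≤ Hl b q ℓ' :=
  Pr_mono_set (fun _ => ⟨h0, h1⟩) (boxE_mono h) (hC_incr _ _)

theorem hC_trl (x y : ℤ) (b : Bool) (F : Finset Edg) :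
    hC (x, y, b) ((trl x y).mp F) ↔ hC (e0 b) F := by
  have e1 : ((↑((trl x y).mp F) : Set Edg) \ {(x, y, b)}) =
      (trl x y).φ '' ((↑F : Set Edg) \ {e0 b}) := by
    ext ⟨x1, y1, b1⟩
    simp only [Set.mem_sdiff, Finset.mem_coe, Set.mem_singleton_iff, LSym.mem_mp, Set.mem_image]
    constructor
    · rintro ⟨h1, h3⟩
      refine ⟨(trl x y).φ.symm (x1, y1, b1), ⟨h1, ?_⟩, Equiv.apply_symm_apply _ _⟩
      intro h4
      apply h3
      have h5 := congrArg (trl x y).φ h4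
      rw [Equiv.apply_symm_apply] at h5
      rw [h5]
      simp [e0, trl]
    · rintro ⟨g, ⟨h1, h2⟩, h3⟩
      constructor
      · rw [← h3, Equiv.symm_apply_apply]
        exact h1
      · intro h4
        apply h2
        rw [h4] at h3
        have h5 := congrArg (trl x y).φ.symm h3
        rw [Equiv.symm_apply_apply] at h5
        rw [h5]
        simp [e0, trl]
  have hsrc : src (x, y, b) = (trl x y).ψ (src (e0 b)) := by
    unfold e0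
    simp [trl]
  have htgt : tgt (x, y, b) = (trl x y).ψ (tgt (e0 b)) := by
    unfold e0
    cases b <;> simp [trl, add_comm]
  unfold hC
  rw [e1, hsrc, htgt]
  exact (trl x y).reach_iff

theorem pr_hC_blk (q : ℝ) (e : Edg) (ℓ : ℕ) :
    PQ q (blk (bp e) ℓ) (hC e) = Hl e.2.2 q ℓ := by
  obtain ⟨x, y, b⟩ := e
  have e2 : blk (bp (x, y, b)) ℓ = (trl x y).mp (boxE ℓ) := by
    unfold blk boxE bp
    rw [trl_RE]
    congr 1 <;> simp only <;> ring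
  rw [e2]
  unfold PQ Hl
  rw [LSym.pr]
  exact Pr_congr fun F _ => hC_trl x y b F

theorem Hl_tf (q : ℝ) (ℓ : ℕ) : Hl false q ℓ = Hl true q ℓ := by
  have e2 : boxE ℓ = tps.mp (boxE ℓ) := by
    unfold boxE
    rw [tps_RE]
  unfold Hl
  conv_lhs => rw [e2]
  unfold PQ
  rw [LSym.pr]
  refine Pr_congr fun F _ => ?_
  have e1 : ((↑(tps.mp F) : Set Edg) \ {e0 false}) = tps.φ '' ((↑F : Set Edg) \ {e0 true}) := by
    ext ⟨x1, y1, b1⟩
    simp only [Set.mem_sdiff, Finset.mem_coe, Set.mem_singleton_iff, LSym.mem_mp, Set.mem_image]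
    constructor
    · rintro ⟨h1, h3⟩
      refine ⟨tps.φ.symm (x1, y1, b1), ⟨h1, ?_⟩, Equiv.apply_symm_apply _ _⟩
      intro h4
      apply h3
      have h5 := congrArg tps.φ h4
      rw [Equiv.apply_symm_apply] at h5
      rw [h5]
      simp [e0, tps]
    · rintro ⟨g, ⟨h1, h2⟩, h3⟩
      constructor
      · rw [← h3, Equiv.symm_apply_apply]
        exact h1
      · intro h4
        apply h2
        rw [h4] at h3
        have h5 := congrArg tps.φ.symm h3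
        rw [Equiv.symm_apply_apply] at h5
        rw [h5]
        simp [e0, tps]
  have hsrc : src (e0 false) = tps.ψ (src (e0 true)) := by
    unfold e0
    simp [tps]
  have htgt : tgt (e0 false) = tps.ψ (tgt (e0 true)) := by
    unfold e0
    simp [tps]
  unfold hC
  rw [e1, hsrc, htgt]
  exact tps.reach_iff

theorem Hl_b (b : Bool) (q : ℝ) (ℓ : ℕ) : Hl b q ℓ = Hl true q ℓ := by
  cases b
  · exact Hl_tf q ℓ
  · rfl

/-- Bounds for the connection probability in a box which contains a ball. -/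
theorem pr_hC_ge {q : ℝ} (h0 : 0 ≤ q) (h1 : q ≤ 1) {e : Edg} {ℓ : ℕ} {S : Finset Edg}
    (hS : blk (bp e) ℓ ⊆ S) : Hl true q ℓ ≤ PQ q S (hC e) := by
  rw [← Hl_b e.2.2, ← pr_hC_blk]
  exact Pr_mono_set (fun _ => ⟨h0, h1⟩) hS (hC_incr _ _)

theorem pr_hC_le {q : ℝ} (h0 : 0 ≤ q) (h1 : q ≤ 1) {e : Edg} {ℓ : ℕ} {S : Finset Edg}
    (hS : S ⊆ blk (bp e) ℓ) : PQ q S (hC e) ≤ Hl true q ℓ := by
  rw [← Hl_b e.2.2, ← pr_hC_blk]
  exact Pr_mono_set (fun _ => ⟨h0, h1⟩) hS (hC_incr _ _)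

/-! ### finite boxes -/

theorem exit_or {G : Set Edg} {a b c d : ℤ} {u v : Vtx} (hu : inR a b c d u) (h : Reach G u v) :
    (∃ w ∈ bdR a b c d, Reach (G ∩ ↑(RE a b c d)) u w) ∨ Reach (G ∩ ↑(RE a b c d)) u v := by
  by_cases hex : ∃ w ∈ bdR a b c d, Reach (G ∩ ↑(RE a b c d)) u w
  · exact Or.inl hex
  · right
    have hin : ∀ w, Reach G u w → (a < w.1 ∧ w.1 < b) ∧ (c < w.2 ∧ w.2 < d) := by
      intro w hw
      by_contra h
      have h' : w.1 ≤ a ∨ b ≤ w.1 ∨ w.2 ≤ c ∨ d ≤ w.2 := by omega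
      obtain ⟨w', k1, k2, k3⟩ := first_exit hu hw h'
      exact hex ⟨w', ⟨k1, k2⟩, k3⟩
    refine GR_restrict (s := src) (t := tgt) (F := G) (H := G ∩ ↑(RE a b c d)) h ?_
    intro g hg hr
    refine ⟨hg, ?_⟩
    have := hin _ hr
    obtain ⟨x, y, bo⟩ := g
    rw [Finset.mem_coe]
    cases bo
    · rw [mem_RE_false]; simp only [src_mk] at this; omega
    · rw [mem_RE_true]; simp only [src_mk] at this; omega

theorem e0_inR {ℓ : ℕ} (hℓ : 1 ≤ ℓ) (b : Bool) : inR (-ℓ) ℓ (-ℓ) ℓ (src (e0 b)) ∧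
    inR (-ℓ) ℓ (-ℓ) ℓ (tgt (e0 b)) := by
  unfold e0 inR
  cases b
  · simp only [src_mk, tgt_false]; omega
  · simp only [src_mk, tgt_true]; omega

theorem a4_of_diff {ℓ : ℕ} (hℓ : 1 ≤ ℓ) {b : Bool} {F : Finset Edg} (h : hC (e0 b) F)
    (h' : ¬ hC (e0 b) (F ∩ boxE ℓ)) : A4 (-ℓ) ℓ (-ℓ) ℓ (e0 b) (↑F : Set Edg) := by
  have e1 : ((↑F : Set Edg) \ {e0 b}) ∩ ↑(RE (-ℓ : ℤ) ℓ (-ℓ) ℓ) =
      ((↑F : Set Edg) ∩ ↑(RE (-ℓ : ℤ) ℓ (-ℓ) ℓ)) \ {e0 b} := by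
    ext g
    simp only [Set.mem_inter_iff, Set.mem_sdiff]
    tauto
  have e2 : ((↑(F ∩ boxE ℓ) : Set Edg) \ {e0 b}) =
      ((↑F : Set Edg) ∩ ↑(RE (-ℓ : ℤ) ℓ (-ℓ) ℓ)) \ {e0 b} := by
    rw [Finset.coe_inter]
    rfl
  unfold hC at h h'
  rw [e2] at h'
  obtain ⟨i1, i2⟩ := e0_inR hℓ b
  refine ⟨?_, ?_, h'⟩
  · rcases exit_or i1 h with h3 | h3
    · rwa [e1] at h3
    · rw [e1] at h3
      exact absurd h3 h'
  · rcases exit_or i2 h.symm with h3 | h3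
    · rwa [e1] at h3
    · rw [e1] at h3
      exact absurd h3.symm h'

theorem Hl_diff {q : ℝ} (h0 : 0 ≤ q) (h1 : q ≤ 1) {ℓ ℓ' : ℕ} (hℓ : 1 ≤ ℓ) (h : ℓ ≤ ℓ') :
    Hl true q ℓ' ≤ Hl true q ℓ + a4 q ℓ := by
  have hOk : Ok (fun _ : Edg => q) := fun _ => ⟨h0, h1⟩
  have e1 : Hl true q ℓ = PQ q (boxE ℓ') (fun F => hC (e0 true) (F ∩ boxE ℓ)) := by
    unfold Hl
    have e2 : PQ q (boxE ℓ') (fun F => hC (e0 true) (F ∩ boxE ℓ)) =
        PQ q (boxE ℓ) (fun F => hC (e0 true) (F ∩ boxE ℓ)) := by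
      refine Pr_local (boxE_mono h) fun F _ => ?_
      rw [Finset.inter_assoc, Finset.inter_self]
    rw [e2]
    refine Pr_congr fun F hF => ?_
    rw [Finset.inter_eq_left.mpr hF]
  have e3 : PQ q (boxE ℓ') (fun F => A4 (-ℓ) ℓ (-ℓ) ℓ (e0 true) (↑F : Set Edg)) ≤ a4 q ℓ := by
    have e4 : blk (bp (e0 true)) ℓ = boxE ℓ := by
      unfold blk bp e0 boxE
      simp
    have h5 := pr_L4 h0 h1 (ρ := ℓ) (e := e0 true) (S := boxE ℓ') (by
      rw [e4]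
      exact boxE_mono h)
    refine le_trans (le_of_eq ?_) h5
    refine Pr_congr fun F _ => ?_
    unfold L4 e0
    simp
  have e5 : Hl true q ℓ' ≤ PQ q (boxE ℓ') (fun F => hC (e0 true) (F ∩ boxE ℓ) ∨
      A4 (-ℓ) ℓ (-ℓ) ℓ (e0 true) (↑F : Set Edg)) := by
    refine Pr_mono hOk fun F _ hF => ?_
    by_cases h6 : hC (e0 true) (F ∩ boxE ℓ)
    · exact Or.inl h6
    · exact Or.inr (a4_of_diff hℓ hF h6)
  have e6 := Pr_or_le hOk (boxE ℓ') (fun F => hC (e0 true) (F ∩ boxE ℓ))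
    (fun F => A4 (-ℓ) ℓ (-ℓ) ℓ (e0 true) (↑F : Set Edg))
  rw [e1]
  linarith

/-- The limit. -/
noncomputable def Hf (q : ℝ) : ℝ := ⨆ ℓ : ℕ, Hl true q ℓ

theorem Hl_bdd {q : ℝ} (h0 : 0 ≤ q) (h1 : q ≤ 1) :
    BddAbove (Set.range (fun ℓ : ℕ => Hl true q ℓ)) := by
  refine ⟨1, ?_⟩
  rintro x ⟨ℓ, rfl⟩
  exact Hl_le_one h0 h1 ℓ

theorem Hl_le_Hf {q : ℝ} (h0 : 0 ≤ q) (h1 : q ≤ 1) (ℓ : ℕ) : Hl true q ℓ ≤ Hf q :=
  le_ciSup (Hl_bdd h0 h1) ℓ

theorem Hf_le {q x : ℝ} (h : ∀ ℓ, Hl true q ℓ ≤ x) : Hf q ≤ x := ciSup_le h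

theorem Hf_tendsto {q : ℝ} (h0 : 0 ≤ q) (h1 : q ≤ 1) :
    Tendsto (fun ℓ : ℕ => Hl true q ℓ) atTop (nhds (Hf q)) :=
  tendsto_atTop_ciSup (fun _ _ h => Hl_mono h0 h1 h) (Hl_bdd h0 h1)

theorem Hf_sub {q : ℝ} (h0 : 0 ≤ q) (h1 : q ≤ 1) {ℓ : ℕ} (hℓ : 1 ≤ ℓ) :
    Hf q ≤ Hl true q ℓ + a4 q ℓ := by
  apply Hf_le
  intro ℓ'
  rcases le_total ℓ ℓ' with h | h
  · exact Hl_diff h0 h1 hℓ h
  · have := Hl_mono (b := true) h0 h1 h
    have := a4nn h0 h1 ℓ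
    linarith

theorem Hf_nonneg {q : ℝ} (h0 : 0 ≤ q) (h1 : q ≤ 1) : 0 ≤ Hf q :=
  (Hl_nonneg h0 h1 0).trans (Hl_le_Hf h0 h1 0)

theorem Hf_le_one {q : ℝ} (h0 : 0 ≤ q) (h1 : q ≤ 1) : Hf q ≤ 1 :=
  Hf_le fun ℓ => Hl_le_one h0 h1 ℓ

/-! ### duality -/

theorem DR_dl (F : Finset Edg) (e : Edg) :
    DReach ((↑F : Set Edg) \ {e}) (dsrc e) (dtgt e) ↔ hC (dl e) (dmp F) := by
  unfold hC
  rw [src_dl, tgt_dl, ← reach_dl]
  have e1 : dl '' ((↑F : Set Edg) \ {e}) = (↑(dmp F) : Set Edg) \ {dl e} := by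
    rw [Set.image_sdiff dl.injective, Set.image_singleton, coe_dmp]
  rw [e1]

theorem dual_fin {q : ℝ} (h0 : 0 ≤ q) (h1 : q ≤ 1) {ℓ : ℕ} (hℓ : 1 ≤ ℓ) :
    PQ (1 - q) (dmp (boxE ℓ)) (hC (dl (e0 true))) ≤ 1 - Hl true q ℓ ∧
      1 - Hl true q ℓ ≤ PQ (1 - q) (dmp (boxE ℓ)) (hC (dl (e0 true))) + a4 q ℓ := by
  have hOk : Ok (fun _ : Edg => q) := fun _ => ⟨h0, h1⟩
  have e1 : PQ (1 - q) (dmp (boxE ℓ)) (hC (dl (e0 true))) = PQ q (boxE ℓ)
      (fun F => DReach (((↑(RE (-ℓ : ℤ) ℓ (-ℓ) ℓ) : Set Edg) \ ↑F) \ {e0 true})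
        (dsrc (e0 true)) (dtgt (e0 true))) := by
    unfold PQ
    rw [pr_dmp]
    have e2 : Pr (fun _ => 1 - q) (boxE ℓ) (fun F => hC (dl (e0 true)) (dmp F)) =
        Pr (fun _ => q) (boxE ℓ) (fun F => hC (dl (e0 true)) (dmp (boxE ℓ \ F))) :=
      Pr_compl (p := fun _ : Edg => q) (boxE ℓ) (fun F => hC (dl (e0 true)) (dmp F))
    rw [e2]
    refine Pr_congr fun F _ => ?_
    rw [← DR_dl, Finset.coe_sdiff]
    rfl
  have he : e0 true ∈ RE (-ℓ : ℤ) ℓ (-ℓ) ℓ := by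
    unfold e0
    rw [mem_RE_true]; omega
  have e3 : 1 - Hl true q ℓ = PQ q (boxE ℓ) (fun F => ¬ hC (e0 true) F) := by
    exact (Pr_not (boxE ℓ) (hC (e0 true))).symm
  rw [e1, e3]
  constructor
  · refine Pr_mono hOk fun F _ hF => ?_
    exact dual_B he hF
  · have e4 : PQ q (boxE ℓ) (fun F => A4 (-ℓ) ℓ (-ℓ) ℓ (e0 true) (↑F : Set Edg)) ≤ a4 q ℓ := by
      unfold a4
      have := Pr_nonneg hOk (boxE ℓ) (fun F => A4 (-ℓ) ℓ (-ℓ) ℓ (e0 false) (↑F : Set Edg))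
      linarith
    have e6 := Pr_or_le hOk (boxE ℓ)
      (fun F => DReach (((↑(RE (-ℓ : ℤ) ℓ (-ℓ) ℓ) : Set Edg) \ ↑F) \ {e0 true})
        (dsrc (e0 true)) (dtgt (e0 true)))
      (fun F => A4 (-ℓ) ℓ (-ℓ) ℓ (e0 true) (↑F : Set Edg))
    have e5 : PQ q (boxE ℓ) (fun F => ¬ hC (e0 true) F) ≤ PQ q (boxE ℓ)
      (fun F => DReach (((↑(RE (-ℓ : ℤ) ℓ (-ℓ) ℓ) : Set Edg) \ ↑F) \ {e0 true})
        (dsrc (e0 true)) (dtgt (e0 true)) ∨ A4 (-ℓ) ℓ (-ℓ) ℓ (e0 true) (↑F : Set Edg)) := by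
      refine Pr_mono hOk fun F hF hn => ?_
      have hFe : ((↑F : Set Edg) ∩ ↑(RE (-ℓ : ℤ) ℓ (-ℓ) ℓ)) \ {e0 true} =
          (↑F : Set Edg) \ {e0 true} := by
        rw [Set.inter_eq_left.mpr (by exact_mod_cast hF)]
      obtain ⟨i1, i2⟩ := e0_inR hℓ true
      have hset : (((↑(RE (-ℓ : ℤ) ℓ (-ℓ) ℓ) : Set Edg) \ (↑F \ {e0 true})) \ {e0 true}) =
          (((↑(RE (-ℓ : ℤ) ℓ (-ℓ) ℓ) : Set Edg) \ ↑F) \ {e0 true}) := by
        ext g
        simp only [Set.mem_sdiff, Set.mem_singleton_iff]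
        tauto
      by_cases k1 : ∃ w ∈ bdR (-ℓ : ℤ) ℓ (-ℓ) ℓ, Reach ((↑F : Set Edg) \ {e0 true})
          (src (e0 true)) w
      · by_cases k2 : ∃ w ∈ bdR (-ℓ : ℤ) ℓ (-ℓ) ℓ, Reach ((↑F : Set Edg) \ {e0 true})
            (tgt (e0 true)) w
        · right
          refine ⟨?_, ?_, ?_⟩
          · rw [hFe]; exact k1
          · rw [hFe]; exact k2
          · rw [hFe]; exact hn
        · left
          push Not at k2
          have := dual_A (a := -ℓ) (b := ℓ) (c := -ℓ) (d := ℓ) (F := (↑F : Set Edg) \ {e0 true})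
            (e := e0 true) (x0 := tgt (e0 true)) (y0 := src (e0 true)) (Or.inr ⟨rfl, rfl⟩) i2 k2
            (fun h => hn h.symm)
          rw [hset] at this
          exact this
      · left
        push Not at k1
        have := dual_A (a := -ℓ) (b := ℓ) (c := -ℓ) (d := ℓ) (F := (↑F : Set Edg) \ {e0 true})
          (e := e0 true) (x0 := src (e0 true)) (y0 := tgt (e0 true)) (Or.inl ⟨rfl, rfl⟩) i1 k1 hn
        rw [hset] at this
        exact this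
    linarith

theorem dmp_box_sub (ℓ : ℕ) : dmp (boxE ℓ) ⊆ blk (bp (dl (e0 true))) (ℓ + 2) := by
  intro x hx
  rw [mem_dmp] at hx
  obtain ⟨x1, y1, b1⟩ := x
  unfold boxE at hx
  unfold blk bp e0
  cases b1
  · simp only [dl, Equiv.coe_fn_symm_mk, Bool.false_eq_true, if_false, mem_RE_true] at hx
    rw [mem_RE_false]
    simp [dl]
    omega
  · simp only [dl, Equiv.coe_fn_symm_mk, if_true, mem_RE_false] at hx
    rw [mem_RE_true]
    simp [dl]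
    omega

theorem sub_dmp_box (ℓ : ℕ) : blk (bp (dl (e0 true))) ℓ ⊆ dmp (boxE (ℓ + 2)) := by
  intro x hx
  rw [mem_dmp]
  obtain ⟨x1, y1, b1⟩ := x
  unfold boxE
  unfold blk bp e0 at hx
  cases b1
  · rw [mem_RE_false] at hx
    simp [dl] at hx
    simp only [dl, Equiv.coe_fn_symm_mk, Bool.false_eq_true, if_false, mem_RE_true]
    push_cast
    omega
  · rw [mem_RE_true] at hx
    simp [dl] at hx
    simp only [dl, Equiv.coe_fn_symm_mk, if_true, mem_RE_false]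
    push_cast
    omega

theorem a4_tendsto {q : ℝ} (h0 : 0 ≤ q) (h1 : q ≤ 1/2) :
    Tendsto (fun n : ℕ => a4 q n) atTop (nhds 0) := by
  obtain ⟨c, C, hc, hC, h⟩ := a4_upper
  have h2 : Tendsto (fun n : ℕ => C * (n:ℝ)^(-(5/4) : ℝ)) atTop (nhds (C * 0)) := by
    apply Tendsto.const_mul
    exact (tendsto_rpow_neg_atTop (by norm_num : (0:ℝ) < 5/4)).comp tendsto_natCast_atTop_atTop
  rw [mul_zero] at h2
  refine squeeze_zero' (Eventually.of_forall fun n => a4nn h0 (by linarith) n) ?_ h2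
  filter_upwards [eventually_ge_atTop 1] with n hn
  refine (h q h0 h1 n hn).trans ?_
  have h5 : Real.exp (-(c * (n * (1/2 - q)^(4/3 : ℝ)))) ≤ 1 := by
    rw [Real.exp_le_one_iff]
    have : 0 ≤ (1/2 - q)^(4/3 : ℝ) := Real.rpow_nonneg (by linarith) _
    have : 0 ≤ c * ((n:ℝ) * (1/2 - q)^(4/3 : ℝ)) := by positivity
    linarith
  exact mul_le_of_le_one_right (by positivity) h5

theorem Hf_dual0 {q : ℝ} (h0 : 0 ≤ q) (h1 : q ≤ 1/2) : Hf (1 - q) = 1 - Hf q := by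
  have h1' : q ≤ 1 := by linarith
  have k0 : 0 ≤ 1 - q := by linarith
  have k1 : 1 - q ≤ 1 := by linarith
  apply le_antisymm
  · apply Hf_le
    intro ℓ
    have t1 : Tendsto (fun n : ℕ => 1 - Hl true q n) atTop (nhds (1 - Hf q)) :=
      (Hf_tendsto h0 h1').const_sub 1
    refine ge_of_tendsto t1 ?_
    filter_upwards [eventually_ge_atTop (ℓ + 2)] with n hn
    obtain ⟨m, rfl⟩ : ∃ m, n = m + 2 := ⟨n - 2, by omega⟩
    have h3 := (dual_fin h0 h1' (ℓ := m + 2) (by omega)).1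
    have h4 := pr_hC_ge k0 k1 (sub_dmp_box m)
    have h5 := Hl_mono (b := true) k0 k1 (show ℓ ≤ m by omega)
    linarith
  · have t1 : Tendsto (fun n : ℕ => 1 - Hl true q n - a4 q n) atTop (nhds (1 - Hf q - 0)) :=
      ((Hf_tendsto h0 h1').const_sub 1).sub (a4_tendsto h0 h1)
    rw [sub_zero] at t1
    refine le_of_tendsto t1 ?_
    filter_upwards [eventually_ge_atTop 1] with n hn
    have h3 := (dual_fin h0 h1' hn).2
    have h4 := pr_hC_le k0 k1 (dmp_box_sub n)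
    have h5 := Hl_le_Hf k0 k1 (n + 2)
    linarith

/-- Duality. -/
theorem Hf_dual {q : ℝ} (h0 : 0 ≤ q) (h1 : q ≤ 1) : Hf (1 - q) = 1 - Hf q := by
  rcases le_total q (1/2) with h | h
  · exact Hf_dual0 h0 h
  · have h2 := Hf_dual0 (q := 1 - q) (by linarith) (by linarith)
    rw [sub_sub_cancel] at h2
    linarith

theorem Hf_half : Hf (1/2) = 1/2 := by
  have h := Hf_dual (q := 1/2) (by norm_num) (by norm_num)
  norm_num at h
  linarith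

/-! ### continuity -/

theorem Hl_cont (ℓ : ℕ) : Continuous (fun q : ℝ => Hl true q ℓ) := cont_Pr _ _

theorem Hf_cont1 : ContinuousOn Hf (Set.Icc 0 (1/2)) := by
  obtain ⟨c, C, hc, hC, h⟩ := a4_upper
  have hu : TendstoUniformlyOn (fun (n : ℕ) (q : ℝ) => Hl true q n) Hf atTop
      (Set.Icc 0 (1/2)) := by
    rw [Metric.tendstoUniformlyOn_iff]
    intro ε hε
    have h2 : Tendsto (fun n : ℕ => C * (n:ℝ)^(-(5/4) : ℝ)) atTop (nhds (C * 0)) := by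
      apply Tendsto.const_mul
      exact (tendsto_rpow_neg_atTop (by norm_num : (0:ℝ) < 5/4)).comp tendsto_natCast_atTop_atTop
    rw [mul_zero] at h2
    filter_upwards [h2.eventually (gt_mem_nhds hε), eventually_ge_atTop 1] with n hn hn1 q hq
    have h1' : q ≤ 1 := by linarith [hq.2]
    have h3 := Hf_sub hq.1 h1' hn1
    have h4 := Hl_le_Hf hq.1 h1' n
    have h6 := h q hq.1 hq.2 n hn1
    have h5 : Real.exp (-(c * (n * (1/2 - q)^(4/3 : ℝ)))) ≤ 1 := by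
      rw [Real.exp_le_one_iff]
      have : 0 ≤ (1/2 - q)^(4/3 : ℝ) := Real.rpow_nonneg (by linarith [hq.2]) _
      have : 0 ≤ c * ((n:ℝ) * (1/2 - q)^(4/3 : ℝ)) := by positivity
      linarith
    have h7 : a4 q n ≤ C * (n:ℝ)^(-(5/4) : ℝ) := h6.trans (mul_le_of_le_one_right (by positivity) h5)
    rw [Real.dist_eq, abs_of_nonneg (by linarith)]
    linarith
  exact hu.continuousOn (Frequently.of_forall fun n => (Hl_cont n).continuousOn)

theorem Hf_cont2 : ContinuousOn Hf (Set.Icc (1/2) 1) := by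
  have h1 : ContinuousOn (fun q : ℝ => 1 - Hf (1 - q)) (Set.Icc (1/2) 1) := by
    apply ContinuousOn.sub continuousOn_const
    refine Hf_cont1.comp (by fun_prop) ?_
    intro q hq
    exact ⟨by linarith [hq.2], by linarith [hq.1]⟩
  refine h1.congr ?_
  intro q hq
  have := Hf_dual (q := q) (by linarith [hq.1]) hq.2
  simp only
  linarith

theorem Hf_cont : ContinuousOn Hf (Set.Icc 0 1) := by
  have e : Set.Icc (0:ℝ) 1 = Set.Icc 0 (1/2) ∪ Set.Icc (1/2) 1 := by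
    rw [Set.Icc_union_Icc_eq_Icc] <;> norm_num
  rw [e]
  exact Hf_cont1.union_of_isClosed Hf_cont2 isClosed_Icc isClosed_Icc

end Pool.Agent.D0H95.AL
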