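import Pool.Agent.D0H95.AL.Tri

/-!
Local four-arm events from triple differences, and bounds for the probabilities.
-/

set_option autoImplicit false

namespace Pool.Agent.D0H95.AL

open H974 H12S H973N Finset

theorem Off_edge {a b c d : ℤ} {e : Edg} (he : e ∉ RE a b c d) :
    Off a b c d {src e} {tgt e} := by
  obtain ⟨x, y, _ | _⟩ := e
  · rw [mem_RE_false] at he
    rintro v (hv | hv) ⟨h1, h2⟩
    · rw [Set.mem_singleton_iff] at hv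
      subst hv
      simp only [src_mk] at h1 h2
      omega
    · rw [Set.mem_singleton_iff] at hv
      subst hv
      simp only [tgt_false] at h1 h2
      omega
  · rw [mem_RE_true] at he
    rintro v (hv | hv) ⟨h1, h2⟩
    · rw [Set.mem_singleton_iff] at hv
      subst hv
      simp only [src_mk] at h1 h2
      omega
    · rw [Set.mem_singleton_iff] at hv
      subst hv
      simp only [tgt_true] at h1 h2
      omega

theorem mem_blk_self {ρ : ℕ} (hρ : 1 ≤ ρ) (x : Edg) : x ∈ blk (bp x) ρ := by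
  have hρ' : (1 : ℤ) ≤ ρ := by exact_mod_cast hρ
  unfold blk bp
  apply NP.RE_strong
  refine ⟨⟨?_, ?_⟩, ?_, ?_⟩ <;> simp only <;> linarith

/-- Edges at distance more than `2 ρ` have disjoint balls. -/
theorem blk_sep {ρ : ℕ} {e g : Edg} (h : 2 * (ρ : ℤ) < dst e g) :
    ∀ x ∈ blk (bp g) ρ, x ∉ blk (bp e) ρ := by
  intro x hx hx'
  unfold blk bp at hx hx'
  obtain ⟨⟨p1, p2⟩, p3, p4⟩ := NP.RE_weak hx
  obtain ⟨⟨r1, r2⟩, r3, r4⟩ := NP.RE_weak hx'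
  simp only at p1 p2 p3 p4 r1 r2 r3 r4
  have : dst e g ≤ 2 * ρ := by
    unfold dst
    apply max_le <;> rw [abs_le] <;> constructor <;> linarith
  linarith

theorem not_mem_blk {ρ : ℕ} (hρ : 1 ≤ ρ) {e g : Edg} (h : 2 * (ρ : ℤ) < dst e g) :
    g ∉ blk (bp e) ρ := blk_sep h g (mem_blk_self hρ g)

theorem dstc (e g : Edg) : dst e g = dst g e := by
  unfold dst
  rw [abs_sub_comm e.1, abs_sub_comm e.2.1]

theorem Pf_hC_L4 {e f : Edg} {ρ : ℕ} (hρ : 1 ≤ ρ) (he : e ∉ blk (bp f) ρ) {H : Finset Edg}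
    (h : Pf (hC e) f H) : L4 ρ f (↑H : Set Edg) := by
  have hfe : f ≠ e := fun h' => he (h' ▸ mem_blk_self hρ f)
  have hO : Off (f.1 - ρ) (f.1 + ρ) (f.2.1 - ρ) (f.2.1 + ρ) {src e} {tgt e} := Off_edge he
  have h1 : Pf (CO {src e} {tgt e} ∅) f (H.erase e) := by
    obtain ⟨k1, k2⟩ := h
    refine ⟨⟨src e, rfl, tgt e, rfl, ?_⟩, ?_⟩
    · refine Reach.mono ?_ k1
      intro x hx
      simp only [Finset.coe_insert, Set.mem_sdiff, Set.mem_insert_iff, Finset.mem_coe,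
        Set.mem_singleton_iff, Finset.coe_erase, Set.union_empty] at hx ⊢
      tauto
    · rintro ⟨u, hu, v, hv, k3⟩
      apply k2
      rw [Set.mem_singleton_iff] at hu hv
      subst hu; subst hv
      refine Reach.mono ?_ k3
      intro x hx
      simp only [Set.mem_sdiff, Finset.mem_coe, Set.mem_singleton_iff, Finset.coe_erase,
        Set.union_empty] at hx ⊢
      tauto
  have h2 := piv_L4 hρ (O := ∅) (fun g hg => absurd hg (Set.notMem_empty g)) hO h1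
  refine (NP.L4_congr' ?_).1 h2
  intro x hx _
  rw [Finset.mem_erase]
  exact ⟨fun h => h.2, fun h => ⟨fun h' => he (h' ▸ hx), h⟩⟩

theorem L4_erase {ρ : ℕ} {f g : Edg} (hg : g ∉ blk (bp f) ρ) {F : Finset Edg} :
    L4 ρ f (↑(F.erase g) : Set Edg) ↔ L4 ρ f (↑F : Set Edg) := by
  refine NP.L4_congr' ?_
  intro x hx _
  rw [Finset.mem_erase]
  exact ⟨fun h => h.2, fun h => ⟨fun h' => hg (h' ▸ hx), h⟩⟩

theorem L4_insert {ρ : ℕ} {f g : Edg} (hg : g ∉ blk (bp f) ρ) {F : Finset Edg} :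
    L4 ρ f (↑(insert g F) : Set Edg) ↔ L4 ρ f (↑F : Set Edg) := by
  refine NP.L4_congr' ?_
  intro x hx _
  rw [Finset.mem_insert]
  constructor
  · rintro (h | h)
    · exact absurd hx (h ▸ hg)
    · exact h
  · exact fun h => Or.inr h

theorem T3_L4 {e f g : Edg} {ρ : ℕ} (hρ : 1 ≤ ρ) (he : e ∉ blk (bp f) ρ)
    (hg : g ∉ blk (bp f) ρ) {F : Finset Edg} (h : T3 e f g F) : L4 ρ f (↑F : Set Edg) := by
  rcases h.1 with h | h
  · exact (L4_erase hg).1 (Pf_hC_L4 hρ he h)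
  · exact (L4_insert hg).1 (Pf_hC_L4 hρ he h)

theorem ne_of_dst {ρ : ℕ} {e g : Edg} (h : 2 * (ρ : ℤ) < dst e g) : e ≠ g := by
  rintro rfl
  rw [NP.dst_self] at h
  have : (0 : ℤ) ≤ ρ := Int.natCast_nonneg ρ
  linarith

theorem a4nn {q : ℝ} (h0 : 0 ≤ q) (h1 : q ≤ 1) (m : ℕ) : 0 ≤ a4 q m := by
  have hOk : Ok (fun _ : Edg => q) := fun _ => ⟨h0, h1⟩
  unfold a4
  exact add_nonneg (Pr_nonneg hOk _ _) (Pr_nonneg hOk _ _)

/-- Three separated edges. -/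
theorem three_balls {q : ℝ} (h0 : 0 ≤ q) (h1 : q ≤ 1) {S : Finset Edg} {ρ : ℕ} (hρ : 1 ≤ ρ)
    {e f g : Edg} (he : blk (bp e) ρ ⊆ S) (hf : blk (bp f) ρ ⊆ S) (hg : blk (bp g) ρ ⊆ S)
    (hef : 2 * (ρ : ℤ) < dst e f) (heg : 2 * (ρ : ℤ) < dst e g) (hfg : 2 * (ρ : ℤ) < dst f g) :
    PQ q S (T3 e f g) ≤ (a4 q ρ) ^ 3 := by
  have hOk : Ok (fun _ : Edg => q) := fun _ => ⟨h0, h1⟩
  have n1 := ne_of_dst hef
  have n2 := ne_of_dst heg
  have n3 := ne_of_dst hfg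
  have hfe : 2 * (ρ : ℤ) < dst f e := by rwa [dstc]
  have hge : 2 * (ρ : ℤ) < dst g e := by rwa [dstc]
  have hgf : 2 * (ρ : ℤ) < dst g f := by rwa [dstc]
  have step1 : PQ q S (T3 e f g) ≤ PQ q S (fun F => L4 ρ e (↑F : Set Edg) ∧
      (L4 ρ f (↑F : Set Edg) ∧ L4 ρ g (↑F : Set Edg))) := by
    refine Pr_mono hOk ?_
    intro F _ hF
    refine ⟨T3_L4 hρ (not_mem_blk hρ hef) (not_mem_blk hρ heg) (T3_swap n1 n2 n3 hF),
      T3_L4 hρ (not_mem_blk hρ hfe) (not_mem_blk hρ hfg) hF,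
      T3_L4 hρ (not_mem_blk hρ hge) (not_mem_blk hρ hgf) (T3_swap' n1 n2 n3 hF)⟩
  refine step1.trans ?_
  have ha := a4nn h0 h1 ρ
  have loc : ∀ {x y : Edg}, (∀ z ∈ blk (bp x) ρ, z ∉ blk (bp y) ρ) → ∀ F : Finset Edg, F ⊆ S →
      (L4 ρ x (↑F : Set Edg) ↔ L4 ρ x (↑(F ∩ (S \ blk (bp y) ρ)) : Set Edg)) := by
    intro x y hxy F hF
    apply NP.L4_congr'
    intro z hz _
    rw [Finset.mem_inter, Finset.mem_sdiff]
    exact ⟨fun h => ⟨h, hF h, hxy z hz⟩, fun h => h.1⟩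
  refine (NP.indep_L4 h0 h1 he ?_).trans ?_
  · intro F hF
    rw [← loc (blk_sep hef) F hF, ← loc (blk_sep heg) F hF]
  · have step2 : PQ q S (fun F => L4 ρ f (↑F : Set Edg) ∧ L4 ρ g (↑F : Set Edg)) ≤
        a4 q ρ * PQ q S (fun F => L4 ρ g (↑F : Set Edg)) :=
      NP.indep_L4 h0 h1 hf (loc (blk_sep hfg))
    have step3 := pr_L4 h0 h1 hg
    calc a4 q ρ * PQ q S (fun F => L4 ρ f (↑F : Set Edg) ∧ L4 ρ g (↑F : Set Edg))
        ≤ a4 q ρ * (a4 q ρ * PQ q S (fun F => L4 ρ g (↑F : Set Edg))) :=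
          mul_le_mul_of_nonneg_left step2 ha
      _ ≤ a4 q ρ * (a4 q ρ * a4 q ρ) :=
          mul_le_mul_of_nonneg_left (mul_le_mul_of_nonneg_left step3 ha) ha
      _ = (a4 q ρ) ^ 3 := by ring

theorem hC_CO {c : Edg} {w H : Finset Edg} (hH : c ∉ H) :
    hC c (w ∪ H) ↔ CO {src c} {tgt c} (↑(w.erase c) : Set Edg) H := by
  have e1 : ((↑(w ∪ H) : Set Edg) \ {c}) = (↑H : Set Edg) ∪ ↑(w.erase c) := by
    ext x
    simp only [Finset.coe_union, Set.mem_sdiff, Set.mem_union, Finset.mem_coe,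
      Set.mem_singleton_iff, Finset.coe_erase]
    constructor
    · rintro ⟨h1 | h1, h2⟩
      · exact Or.inr ⟨h1, h2⟩
      · exact Or.inl h1
    · rintro (h1 | h1)
      · exact ⟨Or.inr h1, fun h => hH (h ▸ h1)⟩
      · exact ⟨Or.inl h1.1, h1.2⟩
  unfold hC CO Cn
  rw [e1]
  constructor
  · intro h
    exact ⟨_, rfl, _, rfl, h⟩
  · rintro ⟨u, hu, v, hv, h⟩
    rw [Set.mem_singleton_iff] at hu hv
    subst hu; subst hv
    exact h

theorem SD_CO {c a b : Edg} {w F : Finset Edg} (ha : a ∉ w) (hb : b ∉ w) (hca : c ≠ a)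
    (hcb : c ≠ b) (hc : c ∉ F) (h : SD (hC c) a b (w ∪ F)) :
    SD (CO {src c} {tgt c} (↑(w.erase c) : Set Edg)) a b F := by
  have i1 : ∀ (x : Edg) (H : Finset Edg), insert x (w ∪ H) = w ∪ insert x H := by
    intro x H
    rw [Finset.union_insert]
  have i2 : ∀ (x : Edg) (H : Finset Edg), x ∉ w → (w ∪ H).erase x = w ∪ H.erase x := by
    intro x H hx
    rw [Finset.erase_union_distrib, Finset.erase_eq_of_notMem hx]
  have m1 : ∀ {x : Edg} {H : Finset Edg}, c ≠ x → c ∉ H → c ∉ insert x H := by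
    intro x H h1 h2 h3
    rcases Finset.mem_insert.mp h3 with h | h
    · exact h1 h
    · exact h2 h
  have m2 : ∀ {x : Edg} {H : Finset Edg}, c ∉ H → c ∉ H.erase x := by
    intro x H h2 h3
    exact h2 (Finset.mem_of_mem_erase h3)
  obtain ⟨h1, h2, h3, h4⟩ := h
  unfold Pf at h1 h2
  rw [i2 b F hb, i1 a, i2 a _ ha, i1 b, i1 a, i2 a _ ha, hC_CO (m1 hca (m2 hc)),
    hC_CO (m2 (m2 hc)), hC_CO (m1 hca (m1 hcb hc)), hC_CO (m2 (m1 hcb hc))] at h1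
  rw [i2 a F ha, i1 b, i2 b _ hb, i1 a, i1 b, i2 b _ hb, hC_CO (m1 hcb (m2 hc)),
    hC_CO (m2 (m2 hc)), hC_CO (m1 hcb (m1 hca hc)), hC_CO (m2 (m1 hca hc))] at h2
  rw [i1 b, i1 a, hC_CO (m1 hca (m1 hcb hc))] at h3
  rw [i2 a F ha, i2 b _ hb, hC_CO (m2 (m2 hc))] at h4
  exact ⟨h1, h2, h3, h4⟩

/-- Conditioning on the configuration in the ball around `c`. -/
theorem inner {q : ℝ} (h0 : 0 ≤ q) (h1 : q ≤ 1) {S : Finset Edg} {ρ : ℕ} (hρ : 1 ≤ ρ)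
    {c a b : Edg} (hB : blk (bp c) ρ ⊆ S) (ha : a ∉ blk (bp c) ρ) (hb : b ∉ blk (bp c) ρ)
    (hab : a ≠ b) :
    PQ q S (T3 c a b) ≤ Ex (fun _ => q) (blk (bp c) ρ) (fun w => ind (L4 ρ c (↑w : Set Edg)) *
      PQ q (S \ blk (bp c) ρ) (SD (CO {src c} {tgt c} (↑(w.erase c) : Set Edg)) a b)) := by
  have hOk : Ok (fun _ : Edg => q) := fun _ => ⟨h0, h1⟩
  have hcB : c ∈ blk (bp c) ρ := mem_blk_self hρ c
  have hca : c ≠ a := fun h => ha (h ▸ hcB)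
  have hcb : c ≠ b := fun h => hb (h ▸ hcB)
  have eS : S = blk (bp c) ρ ∪ (S \ blk (bp c) ρ) := (Finset.union_sdiff_of_subset hB).symm
  have e1 : PQ q S (T3 c a b) = Ex (fun _ => q) (blk (bp c) ρ) (fun w =>
      Ex (fun _ => q) (S \ blk (bp c) ρ) (fun F => ind (T3 c a b (w ∪ F)))) := by
    unfold PQ Pr
    conv_lhs => rw [eS]
    rw [Ex_union Finset.disjoint_sdiff]
  rw [e1]
  refine Ex_mono hOk ?_
  intro w hw
  have haw : a ∉ w := fun h => ha (hw h)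
  have hbw : b ∉ w := fun h => hb (hw h)
  have e2 : ind (L4 ρ c (↑w : Set Edg)) *
      PQ q (S \ blk (bp c) ρ) (SD (CO {src c} {tgt c} (↑(w.erase c) : Set Edg)) a b) =
      Ex (fun _ => q) (S \ blk (bp c) ρ) (fun F => ind (L4 ρ c (↑w : Set Edg)) *
        ind (SD (CO {src c} {tgt c} (↑(w.erase c) : Set Edg)) a b F)) := by
    rw [Ex_mul_left]
    rfl
  rw [e2]
  refine Ex_mono hOk ?_
  intro F hF
  rw [← ind_and]
  refine ind_mono ?_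
  intro h
  have hcF : c ∉ F := fun h' => (Finset.mem_sdiff.mp (hF h')).2 hcB
  refine ⟨?_, SD_CO haw hbw hca hcb hcF h⟩
  have k1 : L4 ρ c (↑(w ∪ F) : Set Edg) := T3_L4 hρ ha hb (T3_swap hca hcb hab h)
  refine (NP.L4_congr' ?_).1 k1
  intro x hx _
  rw [Finset.mem_union]
  constructor
  · rintro (h | h)
    · exact h
    · exact absurd hx (Finset.mem_sdiff.mp (hF h)).2
  · exact fun h => Or.inl h

/-! ### pairs of edges, with forced open edges -/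

theorem SD_L4O {I J : Set Vtx} {O : Set Edg} {ρ : ℕ} (hρ : 1 ≤ ρ) {e g : Edg} {F : Finset Edg}
    (hO : ∀ x ∈ O, x ∉ blk (bp e) ρ)
    (hI : Off (e.1 - ρ) (e.1 + ρ) (e.2.1 - ρ) (e.2.1 + ρ) I J) (hg : g ∉ blk (bp e) ρ)
    (h : Pf (CO I J O) e (F.erase g) ∨ Pf (CO I J O) e (insert g F)) :
    L4 ρ e (↑F : Set Edg) := by
  rcases h with h | h
  · exact (L4_erase hg).1 (piv_L4 hρ hO hI h)
  · exact (L4_insert hg).1 (piv_L4 hρ hO hI h)

theorem SD_BfO {I J : Set Vtx} {O : Set Edg} {e g : Edg} {b F : Finset Edg} (he : e ∈ b)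
    (hg : g ∈ b) (h : SD (CO I J O) e g F) : Bf (CO I J O) b F := by
  obtain ⟨_, _, h3, h4⟩ := h
  refine ⟨TS.CO_mono ?_ h3, fun h5 => h4 (TS.CO_mono ?_ h5)⟩
  · intro x hx
    rw [Finset.mem_insert, Finset.mem_insert] at hx
    rw [Finset.mem_union]
    rcases hx with rfl | rfl | hx
    · exact Or.inr he
    · exact Or.inr hg
    · exact Or.inl hx
  · intro x hx
    rw [Finset.mem_sdiff] at hx
    rw [Finset.mem_erase, Finset.mem_erase]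
    exact ⟨fun h => hx.2 (h ▸ hg), fun h => hx.2 (h ▸ he), hx.1⟩

theorem pair_O {q : ℝ} (h0 : 0 ≤ q) (h1 : q ≤ 1) {U : Finset Edg} {I J : Set Vtx} {O : Set Edg}
    (hOU : Disjoint O (↑U : Set Edg)) {ρ : ℕ} (hρ : 1 ≤ ρ) {e g : Edg}
    (hbe : blk (bp e) ρ ⊆ U) (hbg : blk (bp g) ρ ⊆ U)
    (hOe : Off (e.1 - ρ) (e.1 + ρ) (e.2.1 - ρ) (e.2.1 + ρ) I J)
    (hOg : Off (g.1 - ρ) (g.1 + ρ) (g.2.1 - ρ) (g.2.1 + ρ) I J)
    (h4 : dst e g ≤ 4 * ρ) (h2 : 2 * (ρ : ℤ) < dst e g) :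
    PQ q U (SD (CO I J O) e g) ≤
      (a4 q ρ) ^ 2 * PQ q U (Bf (CO I J O) (NP.tb ρ (NP.tl ρ e))) := by
  have hOk : Ok (fun _ : Edg => q) := fun _ => ⟨h0, h1⟩
  have hρ' : (1 : ℤ) ≤ ρ := by exact_mod_cast hρ
  have hee : dst e e ≤ 4 * ρ := by rw [NP.dst_self]; positivity
  have hge := blk_sep h2
  have hg1 : g ∉ blk (bp e) ρ := not_mem_blk hρ h2
  have he1 : e ∉ blk (bp g) ρ := not_mem_blk hρ (by rwa [dstc])
  have dO : ∀ {x : Edg}, blk (bp x) ρ ⊆ U → ∀ y ∈ O, y ∉ blk (bp x) ρ := by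
    intro x hx y hy hy'
    exact Set.disjoint_left.mp hOU hy (by exact_mod_cast hx hy')
  have step1 : PQ q U (SD (CO I J O) e g) ≤
      PQ q U (fun F => L4 ρ e (↑F : Set Edg) ∧ (L4 ρ g (↑F : Set Edg) ∧
        Bf (CO I J O) (NP.tb ρ (NP.tl ρ e)) F)) := by
    refine Pr_mono hOk ?_
    intro F _ hF
    refine ⟨SD_L4O hρ (dO hbe) hOe hg1 hF.1, SD_L4O hρ (dO hbg) hOg he1 hF.2.1,
      SD_BfO (NP.mem_tb hρ hee) (NP.mem_tb hρ h4) hF⟩
  refine step1.trans ?_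
  have hBl : ∀ (x : Edg), dst e x ≤ 4 * ρ → ∀ F, F ⊆ U →
      (Bf (CO I J O) (NP.tb ρ (NP.tl ρ e)) F ↔
        Bf (CO I J O) (NP.tb ρ (NP.tl ρ e)) (F ∩ (U \ blk (bp x) ρ))) :=
    fun x hx F hF => NP.Bf_local (NP.ball_sub_tb hρ hx) F hF
  refine (NP.indep_L4 h0 h1 hbe ?_).trans ?_
  · intro F hF
    rw [← hBl e hee F hF]
    apply and_congr_left
    intro _
    apply NP.L4_congr'
    intro x hx _
    rw [Finset.mem_inter, Finset.mem_sdiff]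
    exact ⟨fun h => ⟨h, hF h, hge x hx⟩, fun h => h.1⟩
  · have ha : 0 ≤ a4 q ρ := a4nn h0 h1 ρ
    rw [sq, mul_assoc]
    exact mul_le_mul_of_nonneg_left (NP.indep_L4 h0 h1 hbg (hBl g h4)) ha

/-- Pairs at distance at most `2`. -/
theorem pair_O2 {q : ℝ} (h0 : 0 ≤ q) (h1 : q ≤ 1) {U : Finset Edg} {I J : Set Vtx} {O : Set Edg}
    {ρ : ℕ} (hρ : 1 ≤ ρ) {e g : Edg} (h4 : dst e g ≤ 4 * ρ) :
    PQ q U (SD (CO I J O) e g) ≤ PQ q U (Bf (CO I J O) (NP.tb ρ (NP.tl ρ e))) := by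
  have hOk : Ok (fun _ : Edg => q) := fun _ => ⟨h0, h1⟩
  refine Pr_mono hOk ?_
  intro F _ hF
  have hee : dst e e ≤ 4 * ρ := by rw [NP.dst_self]; positivity
  exact SD_BfO (NP.mem_tb hρ hee) (NP.mem_tb hρ h4) hF

end Pool.Agent.D0H95.AL
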