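import Pool.Agent.D0H95.AL.Clus
import Pool.Agent.H974R2.Infinite

/-!
The number of open clusters of a box, in terms of the measure on the configurations.
-/

set_option autoImplicit false
set_option maxHeartbeats 400000

namespace Pool.Agent.D0H95.AL

open H974 H12S H973N Finset Filter MeasureTheory

/-- The vertices of the `n × n` box. -/
def Box (n : ℕ) : Set (ℤ × ℤ) := {v | (0 ≤ v.1 ∧ v.1 < n) ∧ (0 ≤ v.2 ∧ v.2 < n)}

/-- The number of clusters of bond percolation restricted to the `n × n` box: the number of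
connected components of the graph formed by the vertices of the box and the open edges between
them. -/
noncomputable def KK (n : ℕ) (ω : sqLattice.edgeSet → Bool) : ℕ :=
  Nat.card ((openGraph ω).induce (Box n)).ConnectedComponent

theorem mem_Vb {n : ℕ} {v : Vtx} : v ∈ Vb n ↔ v ∈ Box n := by
  unfold Vb Box
  rw [Finset.mem_product, Finset.mem_Ico, Finset.mem_Ico]
  rfl

theorem Sb_of_ends {n : ℕ} {e : Edg} (h1 : src e ∈ Box n) (h2 : tgt e ∈ Box n) : e ∈ Sb n := by
  obtain ⟨x, y, b⟩ := e
  unfold Box at h1 h2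
  unfold Sb
  cases b
  · rw [mem_RE_false]
    simp only [src_mk, tgt_false, Set.mem_setOf_eq] at h1 h2
    omega
  · rw [mem_RE_true]
    simp only [src_mk, tgt_true, Set.mem_setOf_eq] at h1 h2
    omega

theorem step_iff {n : ℕ} {ω : sqLattice.edgeSet → Bool} {u v : Vtx} :
    Adj (↑(FF (Sb n) ω) : Set Edg) u v ↔ (u ∈ Box n ∧ v ∈ Box n ∧ (openGraph ω).Adj u v) := by
  rw [openGraph_adj]
  constructor
  · rintro ⟨e, he, hc⟩
    rw [Finset.mem_coe, mem_FF] at he
    obtain ⟨k1, k2⟩ := Sb_ends he.1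
    rw [mem_Vb] at k1 k2
    refine ⟨?_, ?_, e, he.2, hc⟩
    · rcases hc with ⟨h1, _⟩ | ⟨_, h2⟩
      · rw [← h1]; exact k1
      · rw [← h2]; exact k2
    · rcases hc with ⟨_, h2⟩ | ⟨h1, _⟩
      · rw [← h2]; exact k2
      · rw [← h1]; exact k1
  · rintro ⟨hu, hv, e, he, hc⟩
    refine ⟨e, ?_, hc⟩
    rw [Finset.mem_coe, mem_FF]
    refine ⟨?_, he⟩
    rcases hc with ⟨h1, h2⟩ | ⟨h1, h2⟩
    · exact Sb_of_ends (h1 ▸ hu) (h2 ▸ hv)
    · exact Sb_of_ends (h1 ▸ hv) (h2 ▸ hu)

theorem reach_iff {n : ℕ} {ω : sqLattice.edgeSet → Bool} (u v : Box n) :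
    ((openGraph ω).induce (Box n)).Reachable u v ↔
      Reach (↑(FF (Sb n) ω) : Set Edg) (u : Vtx) (v : Vtx) := by
  rw [SimpleGraph.reachable_iff_reflTransGen]
  constructor
  · intro h
    induction h with
    | refl => exact Reach.refl _ _
    | @tail v w _ hs ih =>
      refine ih.trans (Adj.reach ?_)
      rw [step_iff]
      exact ⟨v.2, w.2, hs⟩
  · intro h
    obtain ⟨u, hu⟩ := u
    obtain ⟨v, hv⟩ := v
    simp only at h
    have key : ∀ w : Vtx, Reach (↑(FF (Sb n) ω) : Set Edg) u w → ∀ hw : w ∈ Box n,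
        Relation.ReflTransGen ((openGraph ω).induce (Box n)).Adj ⟨u, hu⟩ ⟨w, hw⟩ := by
      intro w hr
      induction hr with
      | refl => intro _; exact Relation.ReflTransGen.refl
      | @tail w w' _ hs ih =>
        intro hw'
        have h3 := step_iff.mp hs
        exact (ih h3.1).tail h3.2.2
    exact key v h hv

theorem KK_eq (n : ℕ) (ω : sqLattice.edgeSet → Bool) : KK n ω = nC n (FF (Sb n) ω) := by
  classical
  unfold KK nC NC
  rw [TC_univ]
  obtain ⟨F, hF⟩ : ∃ F : Set Edg, F = (↑(FF (Sb n) ω) : Set Edg) := ⟨_, rfl⟩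
  have hreach : ∀ u v : Box n, ((openGraph ω).induce (Box n)).Reachable u v ↔
      Reach F (u : Vtx) (v : Vtx) := by
    intro u v
    rw [hF]
    exact reach_iff u v
  rw [← hF]
  have hclu : ∀ u v : Box n, ((openGraph ω).induce (Box n)).Reachable u v ↔
      clu src tgt F (u : Vtx) = clu src tgt F (v : Vtx) := by
    intro u v
    rw [hreach]
    constructor
    · intro h
      exact clu_eq h
    · intro h
      have h1 : (v : Vtx) ∈ clu src tgt F (v : Vtx) := GR.refl _ _
      rw [← h] at h1
      exact h1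
  let φ : ((openGraph ω).induce (Box n)).ConnectedComponent →
      {C // C ∈ (Vb n).image (clu src tgt F)} :=
    SimpleGraph.ConnectedComponent.lift
      (fun v : Box n => ⟨clu src tgt F (v : Vtx),
        Finset.mem_image.mpr ⟨(v : Vtx), mem_Vb.mpr v.2, rfl⟩⟩) (by
        intro u v p _
        apply Subtype.ext
        exact (hclu u v).mp ⟨p⟩)
  have hbij : Function.Bijective φ := by
    constructor
    · intro a b hab
      induction a using SimpleGraph.ConnectedComponent.ind with
      | _ u =>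
      induction b using SimpleGraph.ConnectedComponent.ind with
      | _ v =>
      apply SimpleGraph.ConnectedComponent.sound
      rw [hclu]
      exact congrArg Subtype.val hab
    · rintro ⟨C, hC'⟩
      obtain ⟨x, hx, hxC⟩ := Finset.mem_image.mp hC'
      refine ⟨((openGraph ω).induce (Box n)).connectedComponentMk ⟨x, mem_Vb.mp hx⟩, ?_⟩
      apply Subtype.ext
      exact hxC
  rw [Nat.card_eq_of_bijective φ hbij, Nat.card_eq_fintype_card, Fintype.card_coe]

theorem integral_FF (p : unitInterval) (S : Finset Edg) (g : Finset Edg → ℝ) :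
    ∫ ω, g (FF S ω) ∂(bondLaw p) = Ex (fun _ => (p:ℝ)) S g := by
  classical
  have h1 : ∀ ω, g (FF S ω) = ∑ T ∈ S.powerset, Set.indicator {ω | FF S ω = T} (fun _ => g T) ω := by
    intro ω
    have hm : FF S ω ∈ S.powerset := by
      rw [Finset.mem_powerset]
      exact Finset.filter_subset _ _
    rw [Finset.sum_eq_single_of_mem _ hm]
    · rw [Set.indicator_of_mem]
      exact rfl
    · intro T _ hT
      rw [Set.indicator_of_notMem]
      intro h
      exact hT h.symm
  have h2 : ∫ ω, g (FF S ω) ∂(bondLaw p) =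
      ∫ ω, ∑ T ∈ S.powerset, Set.indicator {ω | FF S ω = T} (fun _ => g T) ω ∂(bondLaw p) :=
    integral_congr_ae (Eventually.of_forall h1)
  rw [h2, integral_finset_sum]
  · unfold Ex
    refine Finset.sum_congr rfl fun T hT => ?_
    rw [integral_indicator_const _ (meas_FF S T), law_eq p (Finset.mem_powerset.mp hT),
      smul_eq_mul]
  · intro T _
    exact (integrable_const (g T)).indicator (meas_FF S T)

theorem mean_KK (p : unitInterval) (n : ℕ) :
    ∫ ω, (KK n ω : ℝ) ∂(bondLaw p) = mC n p := by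
  have h := integral_FF p (Sb n) (fun F => (nC n F : ℝ))
  unfold mC
  rw [← h]
  refine integral_congr_ae (Eventually.of_forall fun ω => ?_)
  simp only [KK_eq]

theorem KK_tendsto (p : unitInterval) :
    Tendsto (fun n : ℕ => (∫ ω, (KK n ω : ℝ) ∂(bondLaw p)) / (n:ℝ)^2) atTop
      (nhds (kap0 p)) := by
  simp only [mean_KK]
  exact mC_tendsto p.2.1 p.2.2

end Pool.Agent.D0H95.AL
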