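import Pool.Agent.D0H95.AL.Loc
import Pool.Agent.H973R3.NC.AR

/-!
Sums over pairs of edges at distance `≍ 2^k` of a given edge.
-/

set_option autoImplicit false

namespace Pool.Agent.D0H95.AL

open H974 H12S H973N Finset

/-- number of tiles around `c` -/
theorem card_tilesC (ρ : ℕ) (hρ : 1 ≤ ρ) (M : ℕ) (hM : 2 ≤ M) (c : Edg) (G : Finset Edg)
    (hG : ∀ e ∈ G, dst c e ≤ M * ρ) :
    Real.sqrt ((G.image (NP.tl ρ)).card : ℝ) ≤ 3 * (M : ℝ) := by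
  have hρ' : (1 : ℤ) ≤ ρ := by exact_mod_cast hρ
  have hM' : (2 : ℤ) ≤ M := by exact_mod_cast hM
  have dc1 := NP.div_spec hρ c.1
  have dc2 := NP.div_spec hρ c.2.1
  obtain ⟨z1, hz1⟩ : ∃ z1 : ℤ, z1 = (c.1 + (ρ : ℤ)) / ((2 * ρ : ℕ) : ℤ) := ⟨_, rfl⟩
  obtain ⟨z2, hz2⟩ : ∃ z2 : ℤ, z2 = (c.2.1 + (ρ : ℤ)) / ((2 * ρ : ℕ) : ℤ) := ⟨_, rfl⟩
  rw [← hz1] at dc1
  rw [← hz2] at dc2
  have h1 : G.image (NP.tl ρ) ⊆ (Finset.Icc (z1 - M) (z1 + M)) ×ˢ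
      (Finset.Icc (z2 - M) (z2 + M)) := by
    intro t ht
    rw [Finset.mem_image] at ht
    obtain ⟨e, he, rfl⟩ := ht
    have d1 := NP.div_spec hρ e.1
    have d2 := NP.div_spec hρ e.2.1
    obtain ⟨⟨b1, b2⟩, b3, b4⟩ := NP.dst_le (hG e he)
    rw [Finset.mem_product, Finset.mem_Icc, Finset.mem_Icc]
    unfold NP.tl
    simp only
    generalize (e.1 + (ρ : ℤ)) / ((2 * ρ : ℕ) : ℤ) = u at d1 ⊢
    generalize (e.2.1 + (ρ : ℤ)) / ((2 * ρ : ℕ) : ℤ) = v at d2 ⊢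
    push_cast at d1 d2 dc1 dc2
    have key : ∀ x y x' y' : ℤ, 2 * (ρ : ℤ) * y ≤ x + ρ → x < 2 * (ρ : ℤ) * y + ρ →
        2 * (ρ : ℤ) * y' ≤ x' + ρ → x' < 2 * (ρ : ℤ) * y' + ρ →
        -(M * ρ : ℤ) ≤ x' - x → x' - x ≤ M * ρ → y' - M ≤ y ∧ y ≤ y' + M := by
      intro x y x' y' q1 q2 q3 q4 q5 q6
      constructor
      · by_contra hcon
        push Not at hcon
        have h5 : 2 * (ρ : ℤ) * (y + M + 1) ≤ 2 * ρ * y' :=
          mul_le_mul_of_nonneg_left (by linarith) (by linarith)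
        nlinarith
      · by_contra hcon
        push Not at hcon
        have h5 : 2 * (ρ : ℤ) * (y' + M + 1) ≤ 2 * ρ * y :=
          mul_le_mul_of_nonneg_left (by linarith) (by linarith)
        nlinarith
    exact ⟨key _ _ _ _ d1.1 d1.2 dc1.1 dc1.2 b1 b2, key _ _ _ _ d2.1 d2.2 dc2.1 dc2.2 b3 b4⟩
  have h2 := Finset.card_le_card h1
  rw [Finset.card_product, Int.card_Icc, Int.card_Icc] at h2
  have e1 : ∀ z : ℤ, (z + M + 1 - (z - M)).toNat = 2 * M + 1 := by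
    intro z
    rw [show z + M + 1 - (z - M) = ((2 * M + 1 : ℕ) : ℤ) by push_cast; ring]
    exact Int.toNat_natCast _
  rw [e1, e1] at h2
  have h3 : (2 * M + 1) * (2 * M + 1) ≤ (3 * M) ^ 2 := by nlinarith
  have h4 : ((G.image (NP.tl ρ)).card : ℝ) ≤ (3 * (M : ℝ)) ^ 2 := by exact_mod_cast h2.trans h3
  rw [Real.sqrt_le_left (by positivity)]
  exact h4

/-- one class of pairs -/
theorem class_O {κ q : ℝ} {n : ℕ} (hW : Win q κ n) {U : Finset Edg} {I J : Set Vtx} {O : Set Edg}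
    (hOU : Disjoint O (↑U : Set Edg)) {ρ : ℕ} (hρ : 1 ≤ ρ) (hn : 12 * ρ ≤ n) {M : ℕ} (hM : 2 ≤ M)
    {c : Edg} {G V : Finset Edg} (hG : ∀ e ∈ G, dst c e ≤ M * ρ)
    (hU : ∀ e ∈ G, blk (bp e) (20 * ρ) ⊆ U)
    (hI : ∀ e ∈ G, Off (e.1 - 20 * ρ) (e.1 + 20 * ρ) (e.2.1 - 20 * ρ) (e.2.1 + 20 * ρ) I J)
    (P : Edg → Edg → Prop) (hP : ∀ e g, P e g → dst e g ≤ 4 * (ρ : ℤ)) {A : ℝ} (hA : 0 ≤ A)
    (hb : ∀ e ∈ G, ∀ g ∈ V, P e g → PQ q U (SD (CO I J O) e g) ≤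
      A * PQ q U (Bf (CO I J O) (NP.tb ρ (NP.tl ρ e)))) :
    ∑ e ∈ G, ∑ g ∈ V, ind (P e g) * PQ q U (SD (CO I J O) e g) ≤
      162 * 18 * 722 * 3 * κ⁻¹ ^ 4 * ((ρ : ℝ) ^ 4 * A * M) := by
  classical
  have h0 : 0 ≤ q := by linarith [hW.lo]
  have h1 : q ≤ 1 := by linarith [hW.hi]
  have hOk : Ok (fun _ : Edg => q) := fun _ => ⟨h0, h1⟩
  have hρ1z : (1 : ℤ) ≤ ρ := by exact_mod_cast hρ
  set B : ℤ × ℤ → ℝ := fun t => PQ q U (Bf (CO I J O) (NP.tb ρ t)) with hB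
  have hB0 : ∀ t, 0 ≤ B t := fun t => Pr_nonneg hOk _ _
  -- inner sums
  have inner : ∀ e ∈ G, ∑ g ∈ V, ind (P e g) * PQ q U (SD (CO I J O) e g) ≤
      162 * (ρ : ℝ) ^ 2 * (A * B (NP.tl ρ e)) := by
    intro e he
    have hAB : 0 ≤ A * B (NP.tl ρ e) := mul_nonneg hA (hB0 _)
    calc ∑ g ∈ V, ind (P e g) * PQ q U (SD (CO I J O) e g)
        ≤ ∑ g ∈ V, if dst e g ≤ 4 * ρ then A * B (NP.tl ρ e) else 0 := by
          refine Finset.sum_le_sum fun g hg => ?_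
          by_cases hp : P e g
          · rw [ind_of hp, one_mul, if_pos (hP e g hp)]
            exact hb e he g hg hp
          · rw [ind_not_of hp, zero_mul]
            split_ifs
            · exact hAB
            · exact le_rfl
      _ = (V.filter (fun g => dst e g ≤ 4 * ρ)).card * (A * B (NP.tl ρ e)) := by
          rw [← Finset.sum_filter, Finset.sum_const, nsmul_eq_mul]
      _ ≤ 162 * (ρ : ℝ) ^ 2 * (A * B (NP.tl ρ e)) :=
          mul_le_mul_of_nonneg_right (NP.card_near e ρ hρ _) hAB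
  set T : Finset (ℤ × ℤ) := G.image (NP.tl ρ) with hT
  have tile : ∑ t ∈ T, B t ≤ 2 * (19 : ℕ) ^ 2 * κ⁻¹ ^ 4 * Real.sqrt T.card := by
    have hTs := tile_sum hW (S := U) (I := I) (J := J) (O := O)
      hOU (s := 2 * ρ) (R := 6 * ρ) (K := 19) (by omega) (by omega)
      (by omega) (by norm_num) (by omega) T ?_ ?_
    · exact hTs
    · intro t ht
      rw [hT, Finset.mem_image] at ht
      obtain ⟨e, he, rfl⟩ := ht
      have d1 := NP.div_spec hρ e.1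
      have d2 := NP.div_spec hρ e.2.1
      refine Finset.Subset.trans ?_ (hU e he)
      unfold blk NP.tl bp
      push_cast at d1 d2 ⊢
      apply RE_subset <;> linarith
    · intro t ht
      rw [hT, Finset.mem_image] at ht
      obtain ⟨e, he, rfl⟩ := ht
      have d1 := NP.div_spec hρ e.1
      have d2 := NP.div_spec hρ e.2.1
      unfold NP.tl
      push_cast at d1 d2 ⊢
      apply NP.Off_sub (hI e he) <;> linarith
  have hfib : ∑ e ∈ G, 162 * (ρ : ℝ) ^ 2 * (A * B (NP.tl ρ e)) ≤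
      162 * (ρ : ℝ) ^ 2 * A * (18 * (ρ : ℝ) ^ 2 * ∑ t ∈ T, B t) := by
    have h2 : ∑ e ∈ G, 162 * (ρ : ℝ) ^ 2 * (A * B (NP.tl ρ e)) =
        162 * (ρ : ℝ) ^ 2 * A * ∑ e ∈ G, B (NP.tl ρ e) := by
      rw [Finset.mul_sum]
      refine Finset.sum_congr rfl fun e _ => ?_
      ring
    rw [h2]
    apply mul_le_mul_of_nonneg_left _ (by positivity)
    have h3 : ∑ e ∈ G, B (NP.tl ρ e) =
        ∑ t ∈ T, ∑ e ∈ G.filter (fun e => NP.tl ρ e = t), B (NP.tl ρ e) :=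
      (Finset.sum_fiberwise_of_maps_to (fun e he => Finset.mem_image_of_mem _ he) _).symm
    rw [h3, Finset.mul_sum]
    refine Finset.sum_le_sum fun t _ => ?_
    have h4 : ∑ e ∈ G.filter (fun e => NP.tl ρ e = t), B (NP.tl ρ e) =
        (G.filter (fun e => NP.tl ρ e = t)).card * B t := by
      rw [← nsmul_eq_mul, ← Finset.sum_const]
      refine Finset.sum_congr rfl fun e he => ?_
      rw [(Finset.mem_filter.mp he).2]
    rw [h4]
    exact mul_le_mul_of_nonneg_right (NP.card_tile ρ hρ G t) (hB0 t)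
  have hsq : Real.sqrt (T.card : ℝ) ≤ 3 * (M : ℝ) := card_tilesC ρ hρ M hM c G hG
  have hκ : 0 ≤ κ⁻¹ ^ 4 := by
    have := hW.kpos
    positivity
  calc ∑ e ∈ G, ∑ g ∈ V, ind (P e g) * PQ q U (SD (CO I J O) e g)
      ≤ ∑ e ∈ G, 162 * (ρ : ℝ) ^ 2 * (A * B (NP.tl ρ e)) := Finset.sum_le_sum inner
    _ ≤ 162 * (ρ : ℝ) ^ 2 * A * (18 * (ρ : ℝ) ^ 2 * ∑ t ∈ T, B t) := hfib
    _ ≤ 162 * (ρ : ℝ) ^ 2 * A * (18 * (ρ : ℝ) ^ 2 * (2 * (19 : ℕ) ^ 2 * κ⁻¹ ^ 4 *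
          (3 * (M : ℝ)))) := by
        apply mul_le_mul_of_nonneg_left _ (by positivity)
        apply mul_le_mul_of_nonneg_left _ (by positivity)
        refine tile.trans ?_
        apply mul_le_mul_of_nonneg_left hsq (by positivity)
    _ = 162 * 18 * 722 * 3 * κ⁻¹ ^ 4 * ((ρ : ℝ) ^ 4 * A * M) := by
        push_cast
        ring

/-- one class of pairs, crude bound -/
theorem class_crude {ρ : ℕ} (hρ : 1 ≤ ρ)
    {R : ℕ} (hR : 1 ≤ R) {c : Edg} {G V : Finset Edg} (hG : ∀ e ∈ G, dst c e ≤ 4 * (R : ℤ))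
    (f : Edg → Edg → ℝ) {A : ℝ} (hA : 0 ≤ A) (P : Edg → Edg → Prop)
    (hP : ∀ e g, P e g → dst e g ≤ 4 * (ρ : ℤ))
    (hb : ∀ e ∈ G, ∀ g ∈ V, P e g → f e g ≤ A) :
    ∑ e ∈ G, ∑ g ∈ V, ind (P e g) * f e g ≤
      (162 * (R:ℝ)^2) * (162 * (ρ:ℝ)^2) * A := by
  have inner : ∀ e ∈ G, ∑ g ∈ V, ind (P e g) * f e g ≤ 162 * (ρ : ℝ) ^ 2 * A := by
    intro e he
    calc ∑ g ∈ V, ind (P e g) * f e g
        ≤ ∑ g ∈ V, if dst e g ≤ 4 * ρ then A else 0 := by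
          refine Finset.sum_le_sum fun g hg => ?_
          by_cases hp : P e g
          · rw [ind_of hp, one_mul, if_pos (hP e g hp)]
            exact hb e he g hg hp
          · rw [ind_not_of hp, zero_mul]
            split_ifs
            · exact hA
            · exact le_rfl
      _ = (V.filter (fun g => dst e g ≤ 4 * ρ)).card * A := by
          rw [← Finset.sum_filter, Finset.sum_const, nsmul_eq_mul]
      _ ≤ 162 * (ρ : ℝ) ^ 2 * A :=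
          mul_le_mul_of_nonneg_right (NP.card_near e ρ hρ _) hA
  have hc : (G.card : ℝ) ≤ 162 * (R:ℝ)^2 := by
    have h3 := NP.card_near c R hR G
    rwa [Finset.filter_true_of_mem hG] at h3
  calc ∑ e ∈ G, ∑ g ∈ V, ind (P e g) * f e g ≤ ∑ e ∈ G, 162 * (ρ : ℝ) ^ 2 * A :=
        Finset.sum_le_sum inner
    _ = G.card * (162 * (ρ : ℝ) ^ 2 * A) := by rw [Finset.sum_const, nsmul_eq_mul]
    _ ≤ (162 * (R:ℝ)^2) * (162 * (ρ : ℝ) ^ 2 * A) :=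
        mul_le_mul_of_nonneg_right hc (by positivity)
    _ = _ := by ring

end Pool.Agent.D0H95.AL
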