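import Mathlib

/-!
Regularity from the three-point inequality.
-/

set_option autoImplicit false
set_option maxHeartbeats 400000

namespace Pool.Agent.D0H95.AL

open Filter

theorem cauchy_one {u ω : ℝ → ℝ} {δ : ℝ} (hδ : 0 < δ)
    (hω : Tendsto ω (nhdsWithin 0 (Set.Ioi 0)) (nhds 0))
    (h : ∀ t t', 0 < t' → t' < t → t ≤ δ → |u t - u t'| ≤ ω t) :
    ∃ L : ℝ, ∀ t, 0 < t → t ≤ δ → |u t - L| ≤ ω t := by
  obtain ⟨a, ha⟩ : ∃ a : ℕ → ℝ, a = fun n : ℕ => δ / ((n:ℝ) + 1) := ⟨_, rfl⟩
  have ha0 : ∀ n, 0 < a n := by intro n; rw [ha]; positivity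
  have hat : Tendsto a atTop (nhds 0) := by
    rw [ha]
    exact tendsto_const_div_atTop_nhds_zero_nat δ |>.comp (tendsto_add_atTop_nat 1) |>.congr
      (fun n => by simp [Function.comp])
  have hat' : Tendsto a atTop (nhdsWithin 0 (Set.Ioi 0)) :=
    tendsto_nhdsWithin_iff.mpr ⟨hat, Eventually.of_forall ha0⟩
  have haδ : ∀ n, a n ≤ δ := by
    intro n
    rw [ha]
    simp only
    rw [div_le_iff₀ (by positivity)]
    have : (0:ℝ) ≤ n := by positivity
    nlinarith
  have hanti : ∀ n m : ℕ, n < m → a m < a n := by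
    intro n m hnm
    rw [ha]
    simp only
    apply div_lt_div_of_pos_left hδ (by positivity)
    have : (n:ℝ) < m := by exact_mod_cast hnm
    linarith
  have hω0 : ∀ n, 0 ≤ ω (a n) := fun n =>
    (abs_nonneg _).trans (h (a n) (a (n+1)) (ha0 _) (hanti n (n+1) (Nat.lt_succ_self n)) (haδ n))
  have hc : CauchySeq (fun n => u (a n)) := by
    apply cauchySeq_of_le_tendsto_0' (fun n => ω (a n))
    · intro n m hnm
      rw [Real.dist_eq]
      rcases hnm.eq_or_lt with h1 | h1
      · subst h1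
        rw [sub_self, abs_zero]
        exact hω0 n
      · exact h _ _ (ha0 m) (hanti n m h1) (haδ n)
    · exact hω.comp hat'
  obtain ⟨L, hL⟩ := cauchySeq_tendsto_of_complete hc
  refine ⟨L, ?_⟩
  intro t ht htδ
  have t1 : Tendsto (fun n => |u t - u (a n)|) atTop (nhds |u t - L|) :=
    (hL.const_sub _).abs
  refine le_of_tendsto t1 ?_
  filter_upwards [hat.eventually (gt_mem_nhds ht)] with n hn
  exact h t (a n) (ha0 n) hn htδ

/-- slope -/
noncomputable def slope2 (f : ℝ → ℝ) (x y : ℝ) : ℝ := (f y - f x) / (y - x)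

theorem slope2_comm (f : ℝ → ℝ) (x y : ℝ) : slope2 f x y = slope2 f y x := by
  unfold slope2
  rw [← neg_sub (f x) (f y), ← neg_sub x y, neg_div_neg_eq]

theorem slope_conv (f : ℝ → ℝ) {x y z : ℝ} (hxy : x < y) (hyz : y < z) :
    slope2 f x z - slope2 f x y = (z - y) / (z - x) * (slope2 f y z - slope2 f x y) := by
  unfold slope2
  have h1 : y - x ≠ 0 := by linarith
  have h2 : z - y ≠ 0 := by linarith
  have h3 : z - x ≠ 0 := by linarith
  field_simp
  ring

theorem slope_conv' (f : ℝ → ℝ) {x y z : ℝ} (hxy : x < y) (hyz : y < z) :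
    slope2 f x z - slope2 f y z = (y - x) / (z - x) * (slope2 f x y - slope2 f y z) := by
  unfold slope2
  have h1 : y - x ≠ 0 := by linarith
  have h2 : z - y ≠ 0 := by linarith
  have h3 : z - x ≠ 0 := by linarith
  field_simp
  ring

theorem deriv_at {f W : ℝ → ℝ} {A B : ℝ} (hAB : A < B) (hW : Continuous W)
    (h : ∀ x y z : ℝ, A ≤ x → x < y → y < z → z ≤ B →
      |slope2 f x y - slope2 f y z| ≤ W z - W x) {x : ℝ} (hx : A ≤ x)
    (hx' : x ≤ B) : ∃ L : ℝ, ∀ y, A ≤ y → y ≤ B → y ≠ x →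
      |slope2 f x y - L| ≤ |W y - W x| := by
  rcases hx'.lt_or_eq with hlt | heq
  · -- right derivative
    obtain ⟨L, hL⟩ := cauchy_one (u := fun t => slope2 f x (x + t))
      (ω := fun t => W (x + t) - W x) (δ := B - x)
      (by linarith) (by
        have hc : Continuous (fun t : ℝ => W (x + t) - W x) := by fun_prop
        have := hc.tendsto 0
        simp only [add_zero, sub_self] at this
        exact tendsto_nhdsWithin_of_tendsto_nhds this) (by
        intro t t' h1 h2 h3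
        rw [slope_conv f (x := x) (y := x + t') (z := x + t) (by linarith) (by linarith), abs_mul]
        have h4 := h x (x + t') (x + t) hx (by linarith) (by linarith) (by linarith)
        have h5 : |(x + t - (x + t')) / (x + t - x)| ≤ 1 := by
          rw [abs_of_nonneg (div_nonneg (by linarith) (by linarith)), div_le_one (by linarith)]
          linarith
        rw [abs_sub_comm] at h4
        calc |(x + t - (x + t')) / (x + t - x)| * |slope2 f (x + t') (x + t) -
              slope2 f x (x + t')| ≤ 1 * (W (x + t) - W x) :=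
              mul_le_mul h5 h4 (abs_nonneg _) zero_le_one
          _ = _ := one_mul _)
    refine ⟨L, ?_⟩
    intro y hy hy' hne
    rcases lt_or_gt_of_ne hne with h1 | h1
    · -- left of `x`
      have : (nhdsWithin x (Set.Ioo x B)).NeBot := by
        rw [← mem_closure_iff_nhdsWithin_neBot, closure_Ioo (by linarith)]
        exact ⟨le_rfl, hlt.le⟩
      have t1 : Tendsto (fun z : ℝ => (W z - W y) + (W z - W x))
          (nhdsWithin x (Set.Ioo x B)) (nhds ((W x - W y) + (W x - W x))) := by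
        have hc : Continuous (fun z : ℝ => (W z - W y) + (W z - W x)) := by fun_prop
        exact tendsto_nhdsWithin_of_tendsto_nhds (hc.tendsto x)
      rw [sub_self, add_zero] at t1
      have h6 : |slope2 f x y - L| ≤ W x - W y := by
        refine ge_of_tendsto t1 ?_
        filter_upwards [self_mem_nhdsWithin] with z hz
        have h2 := h y x z hy h1 hz.1 hz.2.le
        have h3 := hL (z - x) (by linarith [hz.1]) (by linarith [hz.2])
        simp only [add_sub_cancel] at h3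
        rw [slope2_comm f x y]
        calc |slope2 f y x - L| = |(slope2 f y x - slope2 f x z) + (slope2 f x z - L)| := by
              congr 1; ring
          _ ≤ _ := (abs_add_le _ _).trans (add_le_add h2 h3)
      rw [abs_sub_comm (W y)]
      exact h6.trans (le_abs_self _)
    · have h3 := hL (y - x) (by linarith) (by linarith)
      simp only [add_sub_cancel] at h3
      exact h3.trans (le_abs_self _)
  · subst heq
    obtain ⟨L, hL⟩ := cauchy_one (u := fun t => slope2 f (x - t) x)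
      (ω := fun t => W x - W (x - t)) (δ := x - A)
      (by linarith) (by
        have hc : Continuous (fun t : ℝ => W x - W (x - t)) := by fun_prop
        have := hc.tendsto 0
        simp only [sub_zero, sub_self] at this
        exact tendsto_nhdsWithin_of_tendsto_nhds this) (by
        intro t t' h1 h2 h3
        rw [slope_conv' f (x := x - t) (y := x - t') (z := x) (by linarith) (by linarith), abs_mul]
        have h4 := h (x - t) (x - t') x (by linarith) (by linarith) (by linarith) le_rfl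
        have h5 : |(x - t' - (x - t)) / (x - (x - t))| ≤ 1 := by
          rw [abs_of_nonneg (div_nonneg (by linarith) (by linarith)), div_le_one (by linarith)]
          linarith
        calc |(x - t' - (x - t)) / (x - (x - t))| * |slope2 f (x - t) (x - t') -
              slope2 f (x - t') x| ≤ 1 * (W x - W (x - t)) :=
              mul_le_mul h5 h4 (abs_nonneg _) zero_le_one
          _ = _ := one_mul _)
    refine ⟨L, ?_⟩
    intro y hy hy' hne
    have hlt : y < x := lt_of_le_of_ne hy' hne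
    have h3 := hL (x - y) (by linarith) (by linarith)
    simp only [sub_sub_cancel] at h3
    rw [slope2_comm f x y, abs_sub_comm (W y)]
    exact h3.trans (le_abs_self _)

theorem rpow_split {a : ℝ} (ha : 0 ≤ a) : a ^ (2/3 : ℝ) * a = a ^ (5/3 : ℝ) := by
  rcases ha.eq_or_lt with h | h
  · subst h
    rw [mul_zero, Real.zero_rpow (by norm_num)]
  · nth_rewrite 2 [← Real.rpow_one a]
    rw [← Real.rpow_add h]
    norm_num

/-- Regularity on a closed interval. -/
theorem reg_Icc {f W : ℝ → ℝ} {A B M : ℝ} (hAB : A < B) (hW : Continuous W)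
    (hWM : ∀ x y, |W y - W x| ≤ M * |y - x| ^ (2/3 : ℝ))
    (h : ∀ x y z : ℝ, A ≤ x → x < y → y < z → z ≤ B →
      |slope2 f x y - slope2 f y z| ≤ W z - W x) :
    ∃ g : ℝ → ℝ, (∀ x y, x ∈ Set.Icc A B → y ∈ Set.Icc A B →
      |f y - f x - g x * (y - x)| ≤ M * |y - x| ^ (5/3 : ℝ)) ∧
      (∀ x y, x ∈ Set.Icc A B → y ∈ Set.Icc A B →
        |g x - g y| ≤ 2 * |W y - W x|) := by
  have h1 : ∀ x, ∃ L : ℝ, x ∈ Set.Icc A B → ∀ y, A ≤ y → y ≤ B → y ≠ x →
      |slope2 f x y - L| ≤ |W y - W x| := by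
    intro x
    by_cases hx : x ∈ Set.Icc A B
    · obtain ⟨L, hL⟩ := deriv_at hAB hW h hx.1 hx.2
      exact ⟨L, fun _ => hL⟩
    · exact ⟨0, fun h => absurd h hx⟩
  choose g hg using h1
  refine ⟨g, ?_, ?_⟩
  · intro x y hx hy
    by_cases hne : y = x
    · subst hne
      simp
    · have h2 := (hg x hx y hy.1 hy.2 hne).trans (hWM x y)
      have hd : y - x ≠ 0 := sub_ne_zero.mpr hne
      have e : f y - f x - g x * (y - x) = (slope2 f x y - g x) * (y - x) := by
        unfold slope2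
        field_simp
      rw [e, abs_mul]
      calc |slope2 f x y - g x| * |y - x| ≤ (M * |y - x| ^ (2/3 : ℝ)) * |y - x| :=
            mul_le_mul_of_nonneg_right h2 (abs_nonneg _)
        _ = M * |y - x| ^ (5/3 : ℝ) := by
            rw [mul_assoc, rpow_split (abs_nonneg _)]
  · intro x y hx hy
    by_cases hne : y = x
    · subst hne
      simp
    · have h2 := hg x hx y hy.1 hy.2 hne
      have h3 := hg y hy x hx.1 hx.2 (Ne.symm hne)
      rw [slope2_comm, abs_sub_comm (W x)] at h3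
      rw [abs_sub_comm] at h2
      calc |g x - g y| = |(g x - slope2 f x y) + (slope2 f x y - g y)| := by congr 1; ring
        _ ≤ _ := abs_add_le _ _
        _ ≤ |W y - W x| + |W y - W x| := add_le_add h2 h3
        _ = _ := by ring

/-- The modulus. -/
noncomputable def Wm (M x : ℝ) : ℝ := if x ≤ 1/2 then -(M * |x - 1/2| ^ (2/3 : ℝ)) else
  M * |x - 1/2| ^ (2/3 : ℝ)

/-- Extension by symmetry. -/
theorem reg_sym {f W : ℝ → ℝ} {s M : ℝ} (hs : 0 < s) (hM : 0 ≤ M) (hW : Continuous W)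
    (hWM : ∀ x y, |W y - W x| ≤ M * |y - x| ^ (2/3 : ℝ))
    (h : ∀ x y z : ℝ, 1/2 - s ≤ x → x < y → y < z → z ≤ 1/2 →
      |slope2 f x y - slope2 f y z| ≤ W z - W x)
    (hWsym : ∀ x, W (1 - x) = - W x)
    (hsym : ∀ x, 1/2 - s ≤ x → x ≤ 1/2 + s → f (1 - x) = 1 - f x) :
    ∃ g : ℝ → ℝ, (∀ x y, |x - 1/2| ≤ s → |y - 1/2| ≤ s →
      |f y - f x - g x * (y - x)| ≤ 4 * M * |y - x| ^ (5/3 : ℝ)) ∧
      (∀ x y, |x - 1/2| ≤ s → |y - 1/2| ≤ s →
        |g x - g y| ≤ 2 * |W y - W x|) := by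
  obtain ⟨g, h1, h2⟩ := reg_Icc (f := f) (A := 1/2 - s) (B := 1/2) (by linarith) hW hWM h
  obtain ⟨G, hG⟩ : ∃ G : ℝ → ℝ, G = fun x => if x ≤ 1/2 then g x else g (1 - x) := ⟨_, rfl⟩
  have hGl : ∀ x, x ≤ 1/2 → G x = g x := by intro x hx; rw [hG]; simp only [hx, if_true]
  have hGr : ∀ x, 1/2 ≤ x → G x = g (1 - x) := by
    intro x hx
    rcases hx.eq_or_lt with h | h
    · rw [hGl x h.symm.le]
      congr 1
      linarith
    · rw [hG]
      simp only [not_le.mpr h, if_false]
  have hmono : ∀ x z : ℝ, 1/2 - s ≤ x → x ≤ z → z ≤ 1/2 → W x ≤ W z := by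
    intro x z hx hxz hz
    rcases hxz.eq_or_lt with h' | h'
    · rw [h']
    · have h3 := (abs_nonneg _).trans (h x ((x+z)/2) z hx (by linarith) (by linarith) hz)
      linarith
  have hW0 : W (1/2) = 0 := by
    have := hWsym (1/2)
    norm_num at this
    linarith
  -- both on the left
  have L1 : ∀ x y, 1/2 - s ≤ x → x ≤ 1/2 → 1/2 - s ≤ y → y ≤ 1/2 →
      |f y - f x - G x * (y - x)| ≤ M * |y - x| ^ (5/3 : ℝ) := by
    intro x y a1 a2 a3 a4
    rw [hGl x a2]
    exact h1 x y ⟨a1, a2⟩ ⟨a3, a4⟩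
  have L2 : ∀ x y, 1/2 - s ≤ x → x ≤ 1/2 → 1/2 - s ≤ y → y ≤ 1/2 →
      |G x - G y| ≤ 2 * |W y - W x| := by
    intro x y a1 a2 a3 a4
    rw [hGl x a2, hGl y a4]
    exact h2 x y ⟨a1, a2⟩ ⟨a3, a4⟩
  -- both on the right
  have R1 : ∀ x y, 1/2 ≤ x → x ≤ 1/2 + s → 1/2 ≤ y → y ≤ 1/2 + s →
      |f y - f x - G x * (y - x)| ≤ M * |y - x| ^ (5/3 : ℝ) := by
    intro x y a1 a2 a3 a4
    rw [hGr x a1]
    have h3 := h1 (1 - x) (1 - y) ⟨by linarith, by linarith⟩ ⟨by linarith, by linarith⟩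
    rw [hsym x (by linarith) a2, hsym y (by linarith) a4] at h3
    have e1 : 1 - f y - (1 - f x) - g (1 - x) * (1 - y - (1 - x)) =
        -(f y - f x - g (1 - x) * (y - x)) := by ring
    have e2 : 1 - y - (1 - x) = -(y - x) := by ring
    rw [e1, e2, abs_neg, abs_neg] at h3
    exact h3
  have R2 : ∀ x y, 1/2 ≤ x → x ≤ 1/2 + s → 1/2 ≤ y → y ≤ 1/2 + s →
      |G x - G y| ≤ 2 * |W y - W x| := by
    intro x y a1 a2 a3 a4
    rw [hGr x a1, hGr y a3]
    have h3 := h2 (1 - x) (1 - y) ⟨by linarith, by linarith⟩ ⟨by linarith, by linarith⟩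
    rw [hWsym, hWsym] at h3
    have e2 : - W y - - W x = -(W y - W x) := by ring
    rw [e2, abs_neg] at h3
    exact h3
  have bd : ∀ x, |x - 1/2| ≤ s → 1/2 - s ≤ x ∧ x ≤ 1/2 + s := by
    intro x hx
    have := abs_le.mp hx
    constructor <;> linarith
  -- the two sides
  have pw : ∀ a b p : ℝ, 0 ≤ a → a ≤ b → 0 ≤ p → a ^ p ≤ b ^ p := by
    intro a b p ha hab hp
    exact Real.rpow_le_rpow ha hab hp
  have cross2 : ∀ x y, 1/2 - s ≤ x → x ≤ 1/2 → 1/2 ≤ y → y ≤ 1/2 + s →
      |G x - G y| ≤ 2 * |W y - W x| := by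
    intro x y a1 a2 a3 a4
    have b1 := L2 x (1/2) a1 a2 (by linarith) le_rfl
    have b2 := R2 (1/2) y le_rfl (by linarith) a3 a4
    have c1 : W x ≤ 0 := by rw [← hW0]; exact hmono x (1/2) a1 a2 le_rfl
    have c2 : 0 ≤ W y := by
      have h5 := hmono (1 - y) (1/2) (by linarith) (by linarith) le_rfl
      rw [hWsym, hW0] at h5
      linarith
    rw [hW0] at b1 b2
    rw [abs_of_nonneg (by linarith : (0:ℝ) ≤ 0 - W x)] at b1
    rw [abs_of_nonneg (by linarith : (0:ℝ) ≤ W y - 0)] at b2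
    rw [abs_of_nonneg (by linarith : (0:ℝ) ≤ W y - W x)]
    calc |G x - G y| = |(G x - G (1/2)) + (G (1/2) - G y)| := by congr 1; ring
      _ ≤ _ := abs_add_le _ _
      _ ≤ 2 * (0 - W x) + 2 * (W y - 0) := add_le_add b1 b2
      _ = _ := by ring
  have gen : ∀ x y X : ℝ, 0 ≤ X → (|y - 1/2| + |x - 1/2| = |y - x|) →
      |f y - f (1/2) - G (1/2) * (y - 1/2)| ≤ M * |y - 1/2| ^ (5/3 : ℝ) →
      |f (1/2) - f x - G x * (1/2 - x)| ≤ M * |x - 1/2| ^ (5/3 : ℝ) →
      |G x - G (1/2)| ≤ 2 * M * |x - 1/2| ^ (2/3 : ℝ) →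
      |f y - f x - G x * (y - x)| ≤ 4 * M * |y - x| ^ (5/3 : ℝ) := by
    intro x y _ _ hadd k1 k2 k3
    have e : f y - f x - G x * (y - x) = (f y - f (1/2) - G (1/2) * (y - 1/2)) +
        (f (1/2) - f x - G x * (1/2 - x)) + (G (1/2) - G x) * (y - 1/2) := by ring
    have n1 := abs_nonneg (y - 1/2)
    have n2 := abs_nonneg (x - 1/2)
    have n3 := abs_nonneg (y - x)
    have c1 := pw |y - 1/2| |y - x| (5/3) n1 (by linarith) (by norm_num)
    have c2 := pw |x - 1/2| |y - x| (5/3) n2 (by linarith) (by norm_num)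
    have c3 := pw |x - 1/2| |y - x| (2/3) n2 (by linarith) (by norm_num)
    have k4 : |(G (1/2) - G x) * (y - 1/2)| ≤ 2 * M * |y - x| ^ (5/3 : ℝ) := by
      rw [abs_mul, abs_sub_comm (G (1/2)), ← rpow_split n3]
      calc |G x - G (1/2)| * |y - 1/2| ≤ (2 * M * |y - x| ^ (2/3 : ℝ)) * |y - x| := by
            apply mul_le_mul _ (by linarith) n1 (by positivity)
            exact k3.trans (mul_le_mul_of_nonneg_left c3 (by positivity))
        _ = _ := by ring
    rw [e]
    calc |(f y - f (1/2) - G (1/2) * (y - 1/2)) + (f (1/2) - f x - G x * (1/2 - x)) +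
          (G (1/2) - G x) * (y - 1/2)| ≤ |f y - f (1/2) - G (1/2) * (y - 1/2)| +
          |f (1/2) - f x - G x * (1/2 - x)| + |(G (1/2) - G x) * (y - 1/2)| := abs_add_three _ _ _
      _ ≤ M * |y - x| ^ (5/3 : ℝ) + M * |y - x| ^ (5/3 : ℝ) + 2 * M * |y - x| ^ (5/3 : ℝ) := by
          apply add_le_add (add_le_add _ _) k4
          · exact k1.trans (mul_le_mul_of_nonneg_left c1 hM)
          · exact k2.trans (mul_le_mul_of_nonneg_left c2 hM)
      _ = _ := by ring
  have up1 : ∀ X : ℝ, 0 ≤ X → M * X ≤ 4 * M * X := by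
    intro X hX
    have := mul_nonneg hM hX
    linarith
  have WM2 : ∀ x, 2 * |W (1/2) - W x| ≤ 2 * M * |x - 1/2| ^ (2/3 : ℝ) := by
    intro x
    have := hWM x (1/2)
    rw [abs_sub_comm (1/2) x] at this
    linarith
  refine ⟨G, ?_, ?_⟩
  · intro x y hx hy
    obtain ⟨x1, x2⟩ := bd x hx
    obtain ⟨y1, y2⟩ := bd y hy
    have hh : |(1/2 : ℝ) - 1/2| ≤ s := by simp [hs.le]
    rcases le_total x (1/2) with hx' | hx' <;> rcases le_total y (1/2) with hy' | hy'
    · exact (L1 x y x1 hx' y1 hy').trans (up1 _ (by positivity))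
    · apply gen x y 0 le_rfl
      · rw [abs_of_nonneg (by linarith : (0:ℝ) ≤ y - 1/2), abs_of_nonpos (by linarith : x - 1/2 ≤ 0),
          abs_of_nonneg (by linarith : (0:ℝ) ≤ y - x)]
        ring
      · exact R1 (1/2) y le_rfl (by linarith) hy' y2
      · have := L1 x (1/2) x1 hx' (by linarith) le_rfl
        rwa [abs_sub_comm (1/2) x] at this
      · exact (L2 x (1/2) x1 hx' (by linarith) le_rfl).trans (WM2 x)
    · apply gen x y 0 le_rfl
      · rw [abs_of_nonpos (by linarith : y - 1/2 ≤ 0), abs_of_nonneg (by linarith : 0 ≤ x - 1/2),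
          abs_of_nonpos (by linarith : y - x ≤ 0)]
        ring
      · exact L1 (1/2) y (by linarith) le_rfl y1 hy'
      · have := R1 x (1/2) hx' x2 le_rfl (by linarith)
        rwa [abs_sub_comm (1/2) x] at this
      · exact (R2 x (1/2) hx' x2 le_rfl (by linarith)).trans (WM2 x)
    · exact (R1 x y hx' x2 hy' y2).trans (up1 _ (by positivity))
  · intro x y hx hy
    obtain ⟨x1, x2⟩ := bd x hx
    obtain ⟨y1, y2⟩ := bd y hy
    rcases le_total x (1/2) with hx' | hx' <;> rcases le_total y (1/2) with hy' | hy'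
    · exact L2 x y x1 hx' y1 hy'
    · exact cross2 x y x1 hx' hy' y2
    · have := cross2 y x y1 hy' hx' x2
      rwa [abs_sub_comm (G y), abs_sub_comm (W x)] at this
    · exact R2 x y hx' x2 hy' y2

/-! ### the modulus -/

theorem sub_rpow_le {a b : ℝ} (ha : 0 ≤ a) (hb : 0 ≤ b) :
    |a ^ (2/3 : ℝ) - b ^ (2/3 : ℝ)| ≤ |a - b| ^ (2/3 : ℝ) := by
  have key : ∀ a b : ℝ, 0 ≤ b → b ≤ a → a ^ (2/3 : ℝ) - b ^ (2/3 : ℝ) ≤ (a - b) ^ (2/3 : ℝ) := by
    intro a b hb hab
    have h := Real.rpow_add_le_add_rpow (a := b) (b := a - b) (p := 2/3) hb (by linarith)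
      (by norm_num) (by norm_num)
    rw [add_sub_cancel] at h
    linarith
  rcases le_total b a with h | h
  · have h1 : b ^ (2/3 : ℝ) ≤ a ^ (2/3 : ℝ) := Real.rpow_le_rpow hb h (by norm_num)
    rw [abs_of_nonneg (by linarith), abs_of_nonneg (by linarith)]
    exact key a b hb h
  · have h1 : a ^ (2/3 : ℝ) ≤ b ^ (2/3 : ℝ) := Real.rpow_le_rpow ha h (by norm_num)
    rw [abs_of_nonpos (by linarith), abs_of_nonpos (by linarith)]
    have := key b a ha h
    rw [neg_sub, neg_sub]
    exact this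

theorem Wm_left {M x : ℝ} (hx : x ≤ 1/2) : Wm M x = -(M * (1/2 - x) ^ (2/3 : ℝ)) := by
  unfold Wm
  rw [if_pos hx, abs_of_nonpos (by linarith)]
  congr 3
  ring

theorem Wm_right {M x : ℝ} (hx : 1/2 ≤ x) : Wm M x = M * (x - 1/2) ^ (2/3 : ℝ) := by
  rcases hx.eq_or_lt with h | h
  · rw [← h, Wm_left le_rfl]
    norm_num
  · unfold Wm
    rw [if_neg (not_le.mpr h), abs_of_pos (by linarith)]

theorem Wm_sym (M x : ℝ) : Wm M (1 - x) = - Wm M x := by
  rcases le_total x (1/2) with h | h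
  · rw [Wm_left h, Wm_right (by linarith)]
    rw [neg_neg]
    congr 2
    ring
  · rw [Wm_right h, Wm_left (by linarith)]
    congr 3
    ring

theorem Wm_holder {M : ℝ} (hM : 0 ≤ M) (x y : ℝ) :
    |Wm M y - Wm M x| ≤ 2 * M * |y - x| ^ (2/3 : ℝ) := by
  have up : ∀ X : ℝ, 0 ≤ X → M * X ≤ 2 * M * X := by
    intro X hX
    have := mul_nonneg hM hX
    linarith
  have pw : ∀ a b : ℝ, 0 ≤ a → a ≤ b → a ^ (2/3 : ℝ) ≤ b ^ (2/3 : ℝ) := by
    intro a b ha hab
    exact Real.rpow_le_rpow ha hab (by norm_num)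
  have cross : ∀ x y : ℝ, x ≤ 1/2 → 1/2 ≤ y → |Wm M y - Wm M x| ≤ 2 * M * |y - x| ^ (2/3 : ℝ) := by
    intro x y hx hy
    rw [Wm_left hx, Wm_right hy]
    have h1 := mul_le_mul_of_nonneg_left (pw (y - 1/2) (y - x) (by linarith) (by linarith)) hM
    have h2 := mul_le_mul_of_nonneg_left (pw (1/2 - x) (y - x) (by linarith) (by linarith)) hM
    have h3 : 0 ≤ M * (y - 1/2) ^ (2/3 : ℝ) :=
      mul_nonneg hM (Real.rpow_nonneg (by linarith) _)
    have h4 : 0 ≤ M * (1/2 - x) ^ (2/3 : ℝ) :=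
      mul_nonneg hM (Real.rpow_nonneg (by linarith) _)
    rw [abs_of_nonneg (by linarith : (0:ℝ) ≤ y - x), abs_of_nonneg (by linarith)]
    linarith
  rcases le_total x (1/2) with hx | hx <;> rcases le_total y (1/2) with hy | hy
  · rw [Wm_left hx, Wm_left hy]
    have h := sub_rpow_le (a := 1/2 - x) (b := 1/2 - y) (by linarith) (by linarith)
    have e : 1/2 - x - (1/2 - y) = y - x := by ring
    rw [e] at h
    have e2 : -(M * (1/2 - y) ^ (2/3 : ℝ)) - -(M * (1/2 - x) ^ (2/3 : ℝ)) =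
        M * ((1/2 - x) ^ (2/3 : ℝ) - (1/2 - y) ^ (2/3 : ℝ)) := by ring
    rw [e2, abs_mul, abs_of_nonneg hM]
    exact (mul_le_mul_of_nonneg_left h hM).trans (up _ (by positivity))
  · exact cross x y hx hy
  · have := cross y x hy hx
    rwa [abs_sub_comm (Wm M x), abs_sub_comm x y] at this
  · rw [Wm_right hx, Wm_right hy]
    have h := sub_rpow_le (a := y - 1/2) (b := x - 1/2) (by linarith) (by linarith)
    have e : y - 1/2 - (x - 1/2) = y - x := by ring
    rw [e] at h
    rw [← mul_sub, abs_mul, abs_of_nonneg hM]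
    exact (mul_le_mul_of_nonneg_left h hM).trans (up _ (by positivity))

theorem Wm_cont {M : ℝ} (hM : 0 ≤ M) : Continuous (Wm M) := by
  rw [continuous_iff_continuousAt]
  intro x
  rw [ContinuousAt, tendsto_iff_dist_tendsto_zero]
  have h1 : Tendsto (fun y : ℝ => 2 * M * |y - x| ^ (2/3 : ℝ)) (nhds x)
      (nhds (2 * M * |x - x| ^ (2/3 : ℝ))) := by
    have hc : Continuous (fun y : ℝ => |y - x|) := by fun_prop
    exact ((hc.tendsto x).rpow_const (Or.inr (by norm_num))).const_mul _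
  rw [sub_self, abs_zero, Real.zero_rpow (by norm_num), mul_zero] at h1
  refine squeeze_zero (fun y => dist_nonneg) (fun y => ?_) h1
  rw [Real.dist_eq]
  exact Wm_holder hM x y

end Pool.Agent.D0H95.AL
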