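import Pool.Agent.D0H95.AL.Hfun
import Pool.Agent.D0H95.AL.Reg


/-!
The second derivative of the averaged connection probability, and the three-point inequality.
-/

set_option autoImplicit false
set_option maxHeartbeats 400000

namespace Pool.Agent.D0H95.AL

open H974 H12S H973N Finset Filter Pool.Agent.W424.NC

/-- Averaged connection probability. -/
noncomputable def AK (K : ℕ) (q : ℝ) : ℝ :=
  ((boxE (64 * 2^K)).card : ℝ)⁻¹ * ∑ e ∈ boxE (64 * 2^K), PQ q (boxE (400 * 2^K)) (hC e)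

/-- Its derivative. -/
noncomputable def BK (K : ℕ) (q : ℝ) : ℝ :=
  ((boxE (64 * 2^K)).card : ℝ)⁻¹ * ∑ e ∈ boxE (64 * 2^K), ∑ f ∈ boxE (400 * 2^K),
    PQ q (boxE (400 * 2^K)) (Pf (hC e) f)

theorem AK_deriv (K : ℕ) (q : ℝ) : HasDerivAt (AK K) (BK K q) q := by
  unfold AK BK
  apply HasDerivAt.const_mul
  have h := HasDerivAt.fun_sum (u := boxE (64 * 2^K))
    (A := fun e q => PQ q (boxE (400 * 2^K)) (hC e))
    (A' := fun e => ∑ f ∈ boxE (400 * 2^K), PQ q (boxE (400 * 2^K)) (Pf (hC e) f)) (x := q)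
    (fun e _ => deriv_f (boxE (400 * 2^K)) (hC e) (hC_mono e) q)
  exact h

/-- The error term. -/
noncomputable def etaK (K : ℕ) (q : ℝ) : ℝ :=
  12 * ((boxE (400 * 2^K)).card : ℝ)^2 * arm q (64 * 2^K)

theorem BK_deriv : ∃ C s0 : ℝ, 0 < C ∧ 0 < s0 ∧ s0 ≤ 1/4 ∧ ∀ q : ℝ, 1/2 - s0 ≤ q → q < 1/2 →
    ∀ K : ℕ, ∃ D : ℝ, HasDerivAt (BK K) D q ∧ |D| ≤ C * (1/2 - q) ^ (-(1/3) : ℝ) + etaK K q := by
  obtain ⟨C, s0, hCp, hs0, hs04, htot⟩ := total
  refine ⟨C, s0, hCp, hs0, hs04, ?_⟩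
  intro q hq0 hq1 K
  have h0 : 0 ≤ q := by linarith
  have h1 : q ≤ 1 := by linarith
  have hd := fun e : Edg => deriv_T (boxE (400 * 2^K)) (boxE (400 * 2^K)) (Finset.Subset.refl _)
    (hC e) (hC_mono e) q h0 h1
  choose D hD1 hD2 using hd
  refine ⟨((boxE (64 * 2^K)).card : ℝ)⁻¹ * ∑ e ∈ boxE (64 * 2^K), D e, ?_, ?_⟩
  · unfold BK
    apply HasDerivAt.const_mul
    exact HasDerivAt.fun_sum (u := boxE (64 * 2^K))
      (A := fun e q => ∑ f ∈ boxE (400 * 2^K), PQ q (boxE (400 * 2^K)) (Pf (hC e) f))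
      (A' := D) (x := q) (fun e _ => hD1 e)
  · have hcard : (0:ℝ) < ((boxE (64 * 2^K)).card : ℝ) := by
      have := le_card_boxE (64 * 2^K)
      push_cast at this
      have h7 : (0:ℝ) < 4 * (64 * 2^K)^2 := by positivity
      linarith
    rw [abs_mul, abs_of_pos (inv_pos.mpr hcard), inv_mul_le_iff₀ hcard]
    refine (Finset.abs_sum_le_sum_abs _ _).trans ?_
    refine (Finset.sum_le_sum fun e _ => hD2 e).trans ?_
    exact htot q hq0 hq1 K

theorem etaK_mono {K : ℕ} {q q' : ℝ} (h0 : 0 ≤ q) (h : q ≤ q') (h1 : q' ≤ 1) :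
    etaK K q ≤ etaK K q' := by
  unfold etaK
  exact mul_le_mul_of_nonneg_left (arm_mono_param h0 h h1 _) (by positivity)

theorem etaK_nonneg {K : ℕ} {q : ℝ} (h0 : 0 ≤ q) (h1 : q ≤ 1) : 0 ≤ etaK K q := by
  unfold etaK
  have := arm_nonneg h0 h1 (64 * 2^K)
  positivity

theorem etaK_tendsto {q : ℝ} (h0 : 0 ≤ q) (h1 : q < 1/2) :
    Tendsto (fun K : ℕ => etaK K q) atTop (nhds 0) := by
  obtain ⟨c, C, hc, hC, h⟩ := arm_upper
  obtain ⟨a, ha⟩ : ∃ a : ℝ, a = 64 * c * (1/2 - q)^(4/3 : ℝ) := ⟨_, rfl⟩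
  have ha0 : 0 < a := by
    rw [ha]
    have : 0 < (1/2 - q)^(4/3 : ℝ) := Real.rpow_pos_of_pos (by linarith) _
    positivity
  have t1 : Tendsto (fun x : ℝ => x^4 * Real.exp (-x)) atTop (nhds 0) :=
    Real.tendsto_pow_mul_exp_neg_atTop_nhds_zero 4
  have t2 : Tendsto (fun K : ℕ => a * (2:ℝ)^K) atTop atTop :=
    (tendsto_pow_atTop_atTop_of_one_lt (by norm_num)).const_mul_atTop ha0
  have t3 := (t1.comp t2).const_mul (12 * (2 * 801^2)^2 * C / a^4)
  rw [mul_zero] at t3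
  refine squeeze_zero (fun K => etaK_nonneg h0 (by linarith)) ?_ t3
  intro K
  have hx0 : (0:ℝ) < 2^K := by positivity
  have hx1 : (1:ℝ) ≤ 2^K := one_le_pow₀ (by norm_num)
  have hc1 : ((boxE (400 * 2^K)).card : ℝ) ≤ 2 * 801^2 * ((2:ℝ)^K)^2 := by
    refine (card_boxE_le _).trans ?_
    push_cast
    nlinarith
  have hn : 1 ≤ 64 * 2^K := by
    have : 1 ≤ 2^K := Nat.one_le_two_pow
    omega
  have h5 := h q h0 h1.le (64 * 2^K) hn
  have h6 : (((64 * 2^K : ℕ) : ℝ))^(-(5/48) : ℝ) ≤ 1 := by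
    apply Real.rpow_le_one_of_one_le_of_nonpos
    · exact_mod_cast hn
    · norm_num
  have h7 : arm q (64 * 2^K) ≤ C * Real.exp (-(a * 2^K)) := by
    refine h5.trans ?_
    have e1 : -(c * (((64 * 2^K : ℕ) : ℝ) * (1/2 - q)^(4/3 : ℝ))) = -(a * 2^K) := by
      rw [ha]; push_cast; ring
    rw [e1]
    apply mul_le_mul_of_nonneg_right _ (Real.exp_pos _).le
    exact mul_le_of_le_one_right hC.le h6
  have h8 := arm_nonneg h0 (by linarith : q ≤ 1) (64 * 2^K)
  unfold etaK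
  simp only [Function.comp]
  calc 12 * ((boxE (400 * 2^K)).card : ℝ)^2 * arm q (64 * 2^K) ≤
      12 * (2 * 801^2 * ((2:ℝ)^K)^2)^2 * (C * Real.exp (-(a * 2^K))) := by
        apply mul_le_mul _ h7 h8 (by positivity)
        apply mul_le_mul_of_nonneg_left _ (by norm_num)
        exact pow_le_pow_left₀ (by positivity) hc1 2
    _ = 12 * (2 * 801^2)^2 * C / a^4 * ((a * 2^K)^4 * Real.exp (-(a * 2^K))) := by
        field_simp

/-- The averages converge. -/
theorem AK_tendsto {q : ℝ} (h0 : 0 ≤ q) (h1 : q ≤ 1) :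
    Tendsto (fun K : ℕ => AK K q) atTop (nhds (Hf q)) := by
  have hcard : ∀ K : ℕ, (0:ℝ) < ((boxE (64 * 2^K)).card : ℝ) := by
    intro K
    have := le_card_boxE (64 * 2^K)
    push_cast at this
    have h7 : (0:ℝ) < 4 * (64 * 2^K)^2 := by positivity
    linarith
  have hgeo : ∀ K : ℕ, ∀ e ∈ boxE (64 * 2^K), blk (bp e) (300 * 2^K) ⊆ boxE (400 * 2^K) ∧
      boxE (400 * 2^K) ⊆ blk (bp e) (500 * 2^K) := by
    intro K e he
    obtain ⟨⟨r1, r2⟩, r3, r4⟩ := NP.RE_weak he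
    have hp : (0:ℤ) < 2^K := by positivity
    unfold blk bp boxE
    push_cast at r1 r2 r3 r4 ⊢
    constructor
    · apply RE_subset <;> linarith
    · apply RE_subset <;> linarith
  have t0 : Tendsto (fun K : ℕ => 300 * 2^K) atTop atTop := by
    refine tendsto_atTop_mono (fun K => ?_) tendsto_id
    have : K < 2^K := Nat.lt_two_pow_self
    simp only [id]
    omega
  have t1 := (Hf_tendsto h0 h1).comp t0
  refine tendsto_of_tendsto_of_tendsto_of_le_of_le t1 tendsto_const_nhds ?_ ?_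
  · intro K
    simp only [Function.comp]
    unfold AK
    rw [le_inv_mul_iff₀ (hcard K)]
    calc ((boxE (64 * 2^K)).card : ℝ) * Hl true q (300 * 2^K) =
        ∑ e ∈ boxE (64 * 2^K), Hl true q (300 * 2^K) := by
          rw [Finset.sum_const, nsmul_eq_mul]
      _ ≤ _ := Finset.sum_le_sum fun e he => pr_hC_ge h0 h1 (hgeo K e he).1
  · intro K
    simp only
    unfold AK
    rw [inv_mul_le_iff₀ (hcard K)]
    calc ∑ e ∈ boxE (64 * 2^K), PQ q (boxE (400 * 2^K)) (hC e) ≤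
        ∑ e ∈ boxE (64 * 2^K), Hf q := Finset.sum_le_sum fun e he =>
          (pr_hC_le h0 h1 (hgeo K e he).2).trans (Hl_le_Hf h0 h1 _)
      _ = _ := by rw [Finset.sum_const, nsmul_eq_mul]

/-! ### the three-point inequality -/

/-- slope -/
noncomputable def slp (f : ℝ → ℝ) (x y : ℝ) : ℝ := (f y - f x) / (y - x)

theorem three_pt {f f' : ℝ → ℝ} {C η x y z : ℝ} (hxy : x < y) (hyz : y < z)
    (hz : z < 1/2) (h1 : ∀ t ∈ Set.Icc x z, HasDerivAt f (f' t) t)
    (h2 : ∀ t ∈ Set.Icc x z, ∃ D, HasDerivAt f' D t ∧ |D| ≤ C * (1/2 - t) ^ (-(1/3) : ℝ) + η)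
    (hC : 0 ≤ C) (hη : 0 ≤ η) :
    |slp f x y - slp f y z| ≤
      3/2 * C * ((1/2 - x) ^ (2/3 : ℝ) - (1/2 - z) ^ (2/3 : ℝ)) + η * (z - x) := by
  obtain ⟨G, hG⟩ : ∃ G : ℝ → ℝ, G = fun t => -(3/2 * C * (1/2 - t) ^ (2/3 : ℝ)) + η * t :=
    ⟨_, rfl⟩
  have hGd : ∀ t, t < 1/2 → HasDerivAt G (C * (1/2 - t) ^ (-(1/3) : ℝ) + η) t := by
    intro t ht
    have hp : 0 < 1/2 - t := by linarith
    have d1 : HasDerivAt (fun t : ℝ => 1/2 - t) (-1) t := (hasDerivAt_id t).const_sub (1/2)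
    have d2 := d1.rpow_const (p := 2/3) (Or.inl hp.ne')
    have d3 := (d2.const_mul (3/2 * C)).neg.add ((hasDerivAt_id t).const_mul η)
    rw [hG]
    refine d3.congr_deriv ?_
    have : (2/3 : ℝ) - 1 = -(1/3) := by norm_num
    rw [this]
    simp only [mul_one]
    ring
  choose! D hD1 hD2 using h2
  have hc' : ContinuousOn f' (Set.Icc x z) := fun t ht => (hD1 t ht).continuousAt.continuousWithinAt
  have hcG : ContinuousOn G (Set.Icc x z) := fun t ht =>
    (hGd t (by linarith [ht.2])).continuousAt.continuousWithinAt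
  have mono1 : MonotoneOn (fun t => G t - f' t) (Set.Icc x z) := by
    apply monotoneOn_of_deriv_nonneg (convex_Icc x z) (hcG.sub hc')
    · intro t ht
      rw [interior_Icc] at ht
      have ht' : t ∈ Set.Icc x z := ⟨ht.1.le, ht.2.le⟩
      exact ((hGd t (by linarith [ht.2])).sub (hD1 t ht')).differentiableAt.differentiableWithinAt
    · intro t ht
      rw [interior_Icc] at ht
      have ht' : t ∈ Set.Icc x z := ⟨ht.1.le, ht.2.le⟩
      have hd := (hGd t (by linarith [ht.2])).sub (hD1 t ht')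
      rw [hd.deriv]
      have := (abs_le.mp (hD2 t ht')).2
      linarith
  have mono2 : MonotoneOn (fun t => G t + f' t) (Set.Icc x z) := by
    apply monotoneOn_of_deriv_nonneg (convex_Icc x z) (hcG.add hc')
    · intro t ht
      rw [interior_Icc] at ht
      have ht' : t ∈ Set.Icc x z := ⟨ht.1.le, ht.2.le⟩
      exact ((hGd t (by linarith [ht.2])).add (hD1 t ht')).differentiableAt.differentiableWithinAt
    · intro t ht
      rw [interior_Icc] at ht
      have ht' : t ∈ Set.Icc x z := ⟨ht.1.le, ht.2.le⟩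
      have hd := (hGd t (by linarith [ht.2])).add (hD1 t ht')
      rw [hd.deriv]
      have := (abs_le.mp (hD2 t ht')).1
      linarith
  have monoG : MonotoneOn G (Set.Icc x z) := by
    apply monotoneOn_of_deriv_nonneg (convex_Icc x z) hcG
    · intro t ht
      rw [interior_Icc] at ht
      exact (hGd t (by linarith [ht.2])).differentiableAt.differentiableWithinAt
    · intro t ht
      rw [interior_Icc] at ht
      rw [(hGd t (by linarith [ht.2])).deriv]
      have : 0 < 1/2 - t := by linarith [ht.2]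
      positivity
  obtain ⟨ξ1, hξ1, e1⟩ := exists_hasDerivAt_eq_slope f f' hxy
    (fun t ht => (h1 t ⟨ht.1, ht.2.trans hyz.le⟩).continuousAt.continuousWithinAt)
    (fun t ht => h1 t ⟨ht.1.le, (ht.2.trans hyz).le⟩)
  obtain ⟨ξ2, hξ2, e2⟩ := exists_hasDerivAt_eq_slope f f' hyz
    (fun t ht => (h1 t ⟨hxy.le.trans ht.1, ht.2⟩).continuousAt.continuousWithinAt)
    (fun t ht => h1 t ⟨(hxy.trans ht.1).le, ht.2.le⟩)
  have m1 : ξ1 ∈ Set.Icc x z := ⟨hξ1.1.le, (hξ1.2.trans hyz).le⟩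
  have m2 : ξ2 ∈ Set.Icc x z := ⟨(hxy.trans hξ2.1).le, hξ2.2.le⟩
  have hxm : x ∈ Set.Icc x z := ⟨le_rfl, (hxy.trans hyz).le⟩
  have hzm : z ∈ Set.Icc x z := ⟨(hxy.trans hyz).le, le_rfl⟩
  have hle : ξ1 ≤ ξ2 := (hξ1.2.trans hξ2.1).le
  have a1 := mono1 m1 m2 hle
  have a2 := mono2 m1 m2 hle
  have a3 := monoG hxm m1 hξ1.1.le
  have a4 := monoG m2 hzm hξ2.2.le
  simp only at a1 a2
  have e3 : slp f x y = f' ξ1 := by unfold slp; rw [e1]
  have e4 : slp f y z = f' ξ2 := by unfold slp; rw [e2]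
  rw [e3, e4, abs_le]
  have e5 : G z - G x = 3/2 * C * ((1/2 - x) ^ (2/3 : ℝ) - (1/2 - z) ^ (2/3 : ℝ)) +
      η * (z - x) := by
    rw [hG]; ring
  rw [← e5]
  constructor <;> linarith

theorem slp_tendsto {F : ℕ → ℝ → ℝ} {f : ℝ → ℝ} {x y : ℝ}
    (hx : Tendsto (fun n => F n x) atTop (nhds (f x)))
    (hy : Tendsto (fun n => F n y) atTop (nhds (f y))) :
    Tendsto (fun n => slp (F n) x y) atTop (nhds (slp f x y)) := by
  unfold slp
  exact (hy.sub hx).div_const _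

theorem slp_eq (f : ℝ → ℝ) (x y : ℝ) : slp f x y = slope2 f x y := rfl

/-- The three-point inequality on the left of `1/2`. -/
theorem Hf_three : ∃ M s0 : ℝ, 0 < M ∧ 0 < s0 ∧ s0 ≤ 1/4 ∧ ∀ x y z : ℝ, 1/2 - s0 ≤ x → x < y →
    y < z → z ≤ 1/2 → |slope2 Hf x y - slope2 Hf y z| ≤ Wm M z - Wm M x := by
  obtain ⟨C, s0, hC, hs0, hs04, hB⟩ := BK_deriv
  refine ⟨3/2 * C, s0, by positivity, hs0, hs04, ?_⟩
  have key : ∀ x y z : ℝ, 1/2 - s0 ≤ x → x < y → y < z → z < 1/2 →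
      |slp Hf x y - slp Hf y z| ≤ Wm (3/2 * C) z - Wm (3/2 * C) x := by
    intro x y z hx hxy hyz hz
    have hx0 : 0 ≤ x := by linarith
    have hz1 : z ≤ 1 := by linarith
    have t1 : Tendsto (fun K : ℕ => |slp (AK K) x y - slp (AK K) y z|) atTop
        (nhds |slp Hf x y - slp Hf y z|) := by
      refine Tendsto.abs (Tendsto.sub ?_ ?_)
      · exact slp_tendsto (AK_tendsto hx0 (by linarith)) (AK_tendsto (by linarith) (by linarith))
      · exact slp_tendsto (AK_tendsto (by linarith) (by linarith)) (AK_tendsto (by linarith) hz1)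
    have t2 : Tendsto (fun K : ℕ => 3/2 * C * ((1/2 - x) ^ (2/3 : ℝ) - (1/2 - z) ^ (2/3 : ℝ)) +
        etaK K z * (z - x)) atTop (nhds (3/2 * C * ((1/2 - x) ^ (2/3 : ℝ) -
          (1/2 - z) ^ (2/3 : ℝ)) + 0 * (z - x))) :=
      ((etaK_tendsto (by linarith) hz).mul_const _).const_add _
    rw [zero_mul, add_zero] at t2
    have h3 : |slp Hf x y - slp Hf y z| ≤
        3/2 * C * ((1/2 - x) ^ (2/3 : ℝ) - (1/2 - z) ^ (2/3 : ℝ)) := by
      refine le_of_tendsto_of_tendsto' t1 t2 ?_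
      intro K
      apply three_pt hxy hyz hz (f' := BK K) (fun t _ => AK_deriv K t) _ hC.le
        (etaK_nonneg (by linarith) hz1)
      intro t ht
      obtain ⟨D, hD1, hD2⟩ := hB t (by linarith [ht.1]) (by linarith [ht.2]) K
      refine ⟨D, hD1, hD2.trans ?_⟩
      have := etaK_mono (K := K) (q := t) (q' := z) (by linarith [ht.1]) ht.2 hz1
      linarith
    refine h3.trans (le_of_eq ?_)
    rw [Wm_left hz.le, Wm_left (by linarith)]
    ring
  intro x y z hx hxy hyz hz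
  rw [← slp_eq, ← slp_eq]
  rcases hz.lt_or_eq with hz' | hz'
  · exact key x y z hx hxy hyz hz'
  · -- limit `z → 1/2`
    subst hz'
    have hcw : ContinuousWithinAt Hf (Set.Icc 0 1) (1/2) := Hf_cont _ ⟨by norm_num, by norm_num⟩
    have hc1 : Tendsto Hf (nhdsWithin (1/2) (Set.Ioo y (1/2))) (nhds (Hf (1/2))) := by
      refine (hcw.mono ?_).tendsto
      intro t ht
      exact ⟨by linarith [ht.1], by linarith [ht.2]⟩
    have hid : Tendsto (fun t : ℝ => t) (nhdsWithin (1/2) (Set.Ioo y (1/2))) (nhds (1/2)) :=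
      tendsto_nhdsWithin_of_tendsto_nhds tendsto_id
    have : (nhdsWithin (1/2 : ℝ) (Set.Ioo y (1/2))).NeBot := by
      rw [← mem_closure_iff_nhdsWithin_neBot, closure_Ioo (by linarith)]
      exact ⟨by linarith, le_rfl⟩
    have t1 : Tendsto (fun t : ℝ => |slp Hf x y - slp Hf y t|)
        (nhdsWithin (1/2) (Set.Ioo y (1/2))) (nhds |slp Hf x y - slp Hf y (1/2)|) := by
      refine Tendsto.abs (Tendsto.const_sub _ ?_)
      unfold slp
      exact (hc1.sub_const _).div (hid.sub_const _) (by linarith)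
    refine le_of_tendsto t1 ?_
    filter_upwards [self_mem_nhdsWithin] with t ht
    refine (key x y t hx hxy ht.1 ht.2).trans ?_
    have h5 : Wm (3/2 * C) t ≤ Wm (3/2 * C) (1/2) := by
      rw [Wm_left ht.2.le, Wm_left le_rfl]
      have h6 : 0 ≤ 3/2 * C * (1/2 - t) ^ (2/3 : ℝ) :=
        mul_nonneg (by positivity) (Real.rpow_nonneg (by linarith [ht.2]) _)
      have h7 : 3/2 * C * ((1:ℝ)/2 - 1/2) ^ (2/3 : ℝ) = 0 := by
        rw [sub_self, Real.zero_rpow (by norm_num), mul_zero]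
      linarith
    linarith

/-- Regularity of the connection probability. -/
theorem Hf_reg : ∃ M s0 : ℝ, 0 < M ∧ 0 < s0 ∧ s0 ≤ 1/4 ∧ ∃ g : ℝ → ℝ,
    (∀ x y, |x - 1/2| ≤ s0 → |y - 1/2| ≤ s0 →
      |Hf y - Hf x - g x * (y - x)| ≤ M * |y - x| ^ (5/3 : ℝ)) ∧
    (∀ x y, |x - 1/2| ≤ s0 → |y - 1/2| ≤ s0 → |g x - g y| ≤ M * |y - x| ^ (2/3 : ℝ)) ∧
    (∀ x y, |x - 1/2| ≤ s0 → |y - 1/2| ≤ s0 → 0 ≤ (x - 1/2) * (y - 1/2) →
      |g x - g y| ≤ M * |(|y - 1/2| ^ (2/3 : ℝ) - |x - 1/2| ^ (2/3 : ℝ))|) := by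
  obtain ⟨M, s0, hM, hs0, hs04, h⟩ := Hf_three
  obtain ⟨g, h1, h2⟩ := reg_sym hs0 (M := 2 * M) (by positivity) (Wm_cont hM.le)
    (Wm_holder hM.le) h (Wm_sym M) (fun x hx hx' => Hf_dual (by linarith) (by linarith))
  refine ⟨8 * M, s0, by positivity, hs0, hs04, g, ?_, ?_, ?_⟩
  · intro x y hx hy
    refine (h1 x y hx hy).trans (le_of_eq ?_)
    ring
  · intro x y hx hy
    have h3 := h2 x y hx hy
    have h4 := Wm_holder hM.le x y
    have h5 : 0 ≤ M * |y - x| ^ (2/3 : ℝ) := by positivity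
    linarith
  · intro x y hx hy hxy
    have h3 := h2 x y hx hy
    have h4 : |Wm M y - Wm M x| ≤ M * |(|y - 1/2| ^ (2/3 : ℝ) - |x - 1/2| ^ (2/3 : ℝ))| := by
      rcases le_total x (1/2) with hx' | hx' <;> rcases le_total y (1/2) with hy' | hy'
      · rw [Wm_left hx', Wm_left hy', abs_of_nonpos (by linarith : x - 1/2 ≤ 0),
          abs_of_nonpos (by linarith : y - 1/2 ≤ 0), neg_sub, neg_sub]
        have e : -(M * (1/2 - y) ^ (2/3 : ℝ)) - -(M * (1/2 - x) ^ (2/3 : ℝ)) =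
          -(M * ((1/2 - y) ^ (2/3 : ℝ) - (1/2 - x) ^ (2/3 : ℝ))) := by ring
        rw [e, abs_neg, abs_mul, abs_of_pos hM]
      · have h5 : x = 1/2 ∨ y = 1/2 := by
          by_contra hcon
          push Not at hcon
          have a1 : x - 1/2 < 0 := by
            rcases hx'.lt_or_eq with h | h
            · linarith
            · exact absurd h hcon.1
          have a2 : 0 < y - 1/2 := by
            rcases hy'.lt_or_eq with h | h
            · linarith
            · exact absurd h.symm hcon.2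
          nlinarith
        rcases h5 with h5 | h5
        · subst h5
          rw [Wm_right le_rfl, Wm_right hy', abs_of_nonneg (by linarith : 0 ≤ y - 1/2)]
          rw [← mul_sub, abs_mul, abs_of_pos hM]
          norm_num
        · subst h5
          rw [Wm_left hx', Wm_left le_rfl, abs_of_nonpos (by linarith : x - 1/2 ≤ 0), neg_sub]
          have e : -(M * ((1:ℝ)/2 - 1/2) ^ (2/3 : ℝ)) - -(M * (1/2 - x) ^ (2/3 : ℝ)) =
            -(M * (((1:ℝ)/2 - 1/2) ^ (2/3 : ℝ) - (1/2 - x) ^ (2/3 : ℝ))) := by ring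
          rw [e, abs_neg, abs_mul, abs_of_pos hM]
          norm_num
      · have h5 : x = 1/2 ∨ y = 1/2 := by
          by_contra hcon
          push Not at hcon
          have a1 : 0 < x - 1/2 := by
            rcases hx'.lt_or_eq with h | h
            · linarith
            · exact absurd h.symm hcon.1
          have a2 : y - 1/2 < 0 := by
            rcases hy'.lt_or_eq with h | h
            · linarith
            · exact absurd h hcon.2
          nlinarith
        rcases h5 with h5 | h5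
        · subst h5
          rw [Wm_left le_rfl, Wm_left hy', abs_of_nonpos (by linarith : y - 1/2 ≤ 0), neg_sub]
          have e : -(M * (1/2 - y) ^ (2/3 : ℝ)) - -(M * ((1:ℝ)/2 - 1/2) ^ (2/3 : ℝ)) =
            -(M * ((1/2 - y) ^ (2/3 : ℝ) - ((1:ℝ)/2 - 1/2) ^ (2/3 : ℝ))) := by ring
          rw [e, abs_neg, abs_mul, abs_of_pos hM]
          norm_num
        · subst h5
          rw [Wm_right hx', Wm_right le_rfl, abs_of_nonneg (by linarith : 0 ≤ x - 1/2)]
          rw [← mul_sub, abs_mul, abs_of_pos hM]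
          norm_num
      · rw [Wm_right hx', Wm_right hy', abs_of_nonneg (by linarith : 0 ≤ x - 1/2),
          abs_of_nonneg (by linarith : 0 ≤ y - 1/2), ← mul_sub, abs_mul, abs_of_pos hM]
    have h5 : 0 ≤ M * |(|y - 1/2| ^ (2/3 : ℝ) - |x - 1/2| ^ (2/3 : ℝ))| := by positivity
    linarith

end Pool.Agent.D0H95.AL
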