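import Pool.Agent.D0H95.AL.Near

/-!
The sum over the pairs of edges in a shell.
-/

set_option autoImplicit false
set_option maxHeartbeats 4000000

namespace Pool.Agent.D0H95.AL

open H974 H12S H973N Finset

/-- Geometry of the shell. -/
theorem shell_geo {c a : Edg} {k : ℕ} {S : Finset Edg} (hS : blk (bp c) (200 * 2^k) ⊆ S)
    (h1 : 32 * 2^k < dst c a) (h2 : dst c a ≤ 64 * 2^k) {r : ℕ} (hr : r ≤ 20 * 2^k) :
    blk (bp a) r ⊆ S \ blk (bp c) (2^k) := by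
  obtain ⟨⟨b1, b2⟩, b3, b4⟩ := NP.dst_le h2
  have hr' : (r : ℤ) ≤ 20 * 2^k := by exact_mod_cast hr
  intro x hx
  rw [Finset.mem_sdiff]
  constructor
  · apply hS
    revert hx
    apply Finset.mem_of_subset
    unfold blk bp
    push_cast
    apply RE_subset <;> linarith
  · intro hx'
    unfold blk bp at hx hx'
    obtain ⟨⟨p1, p2⟩, p3, p4⟩ := NP.RE_weak hx
    obtain ⟨⟨r1, r2⟩, r3, r4⟩ := NP.RE_weak hx'
    simp only at p1 p2 p3 p4 r1 r2 r3 r4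
    push_cast at r1 r2 r3 r4
    have hk : (0:ℤ) < 2^k := by positivity
    have : dst c a ≤ 21 * 2^k := by
      unfold dst
      apply max_le <;> rw [abs_le] <;> constructor <;> linarith
    linarith

theorem shell_off {c a : Edg} {k : ℕ} (h1 : 32 * 2^k < dst c a) {r : ℕ} (hr : r ≤ 20 * 2^k) :
    Off (a.1 - r) (a.1 + r) (a.2.1 - r) (a.2.1 + r) {src c} {tgt c} := by
  apply Off_edge
  intro hx
  obtain ⟨⟨p1, p2⟩, p3, p4⟩ := NP.RE_weak hx
  have hr' : (r : ℤ) ≤ 20 * 2^k := by exact_mod_cast hr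
  have hk : (0:ℤ) < 2^k := by positivity
  have : dst c a ≤ 20 * 2^k := by
    unfold dst
    apply max_le <;> rw [abs_le] <;> constructor <;> linarith
  linarith

theorem near_geo {a b : Edg} {ρ : ℕ} (h : dst a b ≤ 4 * (ρ : ℤ)) :
    blk (bp b) ρ ⊆ blk (bp a) (20 * ρ) := by
  obtain ⟨⟨b1, b2⟩, b3, b4⟩ := NP.dst_le h
  have hρ : (0:ℤ) ≤ ρ := Int.natCast_nonneg ρ
  unfold blk bp
  push_cast
  apply RE_subset <;> linarith

theorem pow_calc (x y : ℝ) (hx : 0 < x) :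
    x ^ 4 * (x ^ (-(5/4) : ℝ)) ^ 2 * (y / x) = y * Real.sqrt x := by
  have h1 : (x ^ (-(5/4) : ℝ)) ^ 2 = x ^ (-(5/2) : ℝ) := by
    rw [← Real.rpow_natCast, ← Real.rpow_mul hx.le]; norm_num
  have h2 : x ^ 4 = x ^ (4 : ℝ) := by rw [← Real.rpow_natCast]; norm_num
  have h3 : y / x = y * x ^ (-1 : ℝ) := by rw [Real.rpow_neg_one, div_eq_mul_inv]
  rw [h1, h2, h3, Real.sqrt_eq_rpow]
  have h4 : x ^ (4:ℝ) * x ^ (-(5/2) : ℝ) * (y * x ^ (-1:ℝ)) =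
      y * (x ^ (4:ℝ) * x ^ (-(5/2) : ℝ) * x ^ (-1:ℝ)) := by ring
  rw [h4, ← Real.rpow_add hx, ← Real.rpow_add hx]
  norm_num

theorem shell_near {κ q : ℝ} {n : ℕ} (hW : Win q κ n) (hn : 12 ≤ n) {A : ℝ} (hA : 1 ≤ A)
    (ha : ∀ j : ℕ, a4 q (2^j) ≤ A * ((2:ℝ)^j) ^ (-(5/4) : ℝ)) {c : Edg} {k : ℕ}
    {S : Finset Edg} (hS : blk (bp c) (200 * 2^k) ⊆ S) {G V : Finset Edg}
    (hG : ∀ a ∈ G, 32 * 2^k < dst c a ∧ dst c a ≤ 64 * 2^k) {w : Finset Edg}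
    (hw : w ⊆ blk (bp c) (2^k)) :
    ∑ a ∈ G, ∑ b ∈ V, ind (dst a b ≤ 4 * 2^k) *
      PQ q (S \ blk (bp c) (2^k)) (SD (CO {src c} {tgt c} (↑(w.erase c) : Set Edg)) a b) ≤
      10^10 * κ⁻¹ ^ 4 * A ^ 2 * ((2:ℝ)^k * (Real.sqrt 2)^k * (1 + (2:ℝ)^k / n)) := by
  have h0 : 0 ≤ q := by linarith [hW.lo]
  have h1 : q ≤ 1 := by linarith [hW.hi]
  have hOk : Ok (fun _ : Edg => q) := fun _ => ⟨h0, h1⟩
  have hn0 : (0:ℝ) < n := by
    have : 0 < n := by omega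
    exact_mod_cast this
  have hκ1 : 1 ≤ κ⁻¹ ^ 4 := by
    have h2 : 1 ≤ κ⁻¹ := by
      rw [one_le_inv₀ hW.kpos]
      linarith [hW.kle]
    exact one_le_pow₀ h2
  obtain ⟨U, hU⟩ : ∃ U : Finset Edg, U = S \ blk (bp c) (2^k) := ⟨_, rfl⟩
  obtain ⟨O, hO⟩ : ∃ O : Set Edg, O = (↑(w.erase c) : Set Edg) := ⟨_, rfl⟩
  have hOU : Disjoint O (↑U : Set Edg) := by
    rw [hO, hU, Set.disjoint_left]
    intro x hx hx'
    rw [Finset.mem_coe] at hx hx'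
    exact (Finset.mem_sdiff.mp hx').2 (hw (Finset.mem_of_mem_erase hx))
  rw [← hU, ← hO]
  obtain ⟨I, hI⟩ : ∃ I : Set Vtx, I = {src c} := ⟨_, rfl⟩
  obtain ⟨J, hJ⟩ : ∃ J : Set Vtx, J = {tgt c} := ⟨_, rfl⟩
  rw [← hI, ← hJ]
  obtain ⟨f, hf⟩ : ∃ f : Edg → Edg → ℝ, f = fun a b => PQ q U (SD (CO I J O) a b) := ⟨_, rfl⟩
  have hf0 : ∀ a b, 0 ≤ f a b := by intro a b; rw [hf]; exact Pr_nonneg hOk _ _
  have hsplit : ∑ a ∈ G, ∑ b ∈ V, ind (dst a b ≤ 4 * 2^k) * f a b ≤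
      ∑ a ∈ G, ∑ b ∈ V, ind (dst a b ≤ 2) * f a b +
      ∑ j ∈ Finset.range (k + 1), ∑ a ∈ G, ∑ b ∈ V,
        ind (2 * ((2 ^ j : ℕ) : ℤ) < dst a b ∧ dst a b ≤ 4 * ((2 ^ j : ℕ) : ℤ)) * f a b := by
    have e1 : ∑ j ∈ Finset.range (k + 1), ∑ a ∈ G, ∑ b ∈ V,
        ind (2 * ((2 ^ j : ℕ) : ℤ) < dst a b ∧ dst a b ≤ 4 * ((2 ^ j : ℕ) : ℤ)) * f a b =
        ∑ a ∈ G, ∑ b ∈ V, ∑ j ∈ Finset.range (k + 1),
        ind (2 * ((2 ^ j : ℕ) : ℤ) < dst a b ∧ dst a b ≤ 4 * ((2 ^ j : ℕ) : ℤ)) * f a b := by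
      rw [Finset.sum_comm]
      refine Finset.sum_congr rfl fun a _ => ?_
      rw [Finset.sum_comm]
    rw [e1, ← Finset.sum_add_distrib]
    refine Finset.sum_le_sum fun a _ => ?_
    rw [← Finset.sum_add_distrib]
    refine Finset.sum_le_sum fun b _ => ?_
    rw [← Finset.sum_mul, ← add_mul]
    exact mul_le_mul_of_nonneg_right (NP.ind_split k (dst a b)) (hf0 a b)
  have hbig : (1:ℝ) ≤ (Real.sqrt 2)^k := one_le_pow₀ (by
    rw [Real.one_le_sqrt]; norm_num)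
  have h2k : (0:ℝ) < (2:ℝ)^k := by positivity
  have hyn : 0 ≤ (2:ℝ)^k / n := by positivity
  -- pairs at distance at most two
  have hzero : ∑ a ∈ G, ∑ b ∈ V, ind (dst a b ≤ 2) * f a b ≤
      162 * 18 * 722 * 3 * 64 * κ⁻¹ ^ 4 * (2:ℝ)^k := by
    have h5 := class_O hW hOU (ρ := 1) le_rfl (by omega) (M := 64 * 2^k)
      (by have : 1 ≤ 2^k := Nat.one_le_two_pow
          omega) (c := c) (G := G) (V := V)
      (fun a haG => by have := (hG a haG).2; push_cast; linarith)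
      (fun a haG => by
        rw [hU]
        exact shell_geo hS (hG a haG).1 (hG a haG).2 (by
          have : 1 ≤ 2^k := Nat.one_le_two_pow
          omega))
      (fun a haG => by
        have h6 := shell_off (hG a haG).1 (r := 20) (by
          have : 1 ≤ 2^k := Nat.one_le_two_pow
          omega)
        rw [← hI, ← hJ] at h6
        exact_mod_cast h6)
      (fun a b => dst a b ≤ 2) (fun a b h => by push_cast; linarith) (A := 1) zero_le_one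
      (fun a _ b _ h => by
        rw [one_mul]
        exact pair_O2 h0 h1 le_rfl (by push_cast; linarith))
    rw [hf]
    refine h5.trans (le_of_eq ?_)
    push_cast
    ring
  -- the other classes
  have hj : ∀ j ∈ Finset.range (k + 1), ∑ a ∈ G, ∑ b ∈ V,
      ind (2 * ((2 ^ j : ℕ) : ℤ) < dst a b ∧ dst a b ≤ 4 * ((2 ^ j : ℕ) : ℤ)) * f a b ≤
      (162 * 18 * 722 * 3 * 64) * κ⁻¹ ^ 4 * A ^ 2 * ((2:ℝ)^k * (1 + (2:ℝ)^k / n)) *
        (Real.sqrt 2)^j := by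
    intro j hjr
    have hjk : j ≤ k := by
      have := Finset.mem_range.mp hjr
      omega
    have hpow : 2^j ≤ 2^k := Nat.pow_le_pow_right (by norm_num) hjk
    have hρ : 1 ≤ 2^j := Nat.one_le_two_pow
    have hx0 : (0:ℝ) < (2:ℝ)^j := by positivity
    have hkj : (2:ℝ)^k / (2:ℝ)^j = (2:ℝ)^(k - j) := by
      rw [pow_sub₀ _ (by norm_num) hjk, div_eq_mul_inv]
    have ha0 := a4nn h0 h1 (2^j)
    have hsq : (a4 q (2^j))^2 ≤ A^2 * (((2:ℝ)^j) ^ (-(5/4) : ℝ))^2 := by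
      rw [← mul_pow]
      exact pow_le_pow_left₀ ha0 (ha j) 2
    have hpair : ∀ a ∈ G, ∀ b ∈ V, (2 * ((2 ^ j : ℕ) : ℤ) < dst a b ∧
        dst a b ≤ 4 * ((2 ^ j : ℕ) : ℤ)) → PQ q U (SD (CO I J O) a b) ≤
        (a4 q (2^j))^2 * PQ q U (Bf (CO I J O) (NP.tb (2^j) (NP.tl (2^j) a))) := by
      intro a haG b _ hab
      have g1 : blk (bp a) (20 * 2^j) ⊆ U := by
        rw [hU]; exact shell_geo hS (hG a haG).1 (hG a haG).2 (by omega)
      have g2 : blk (bp a) (2^j) ⊆ blk (bp a) (20 * 2^j) := by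
        unfold blk
        apply RE_subset <;> push_cast <;> linarith [show (0:ℤ) < 2^j by positivity]
      have g3 := near_geo hab.2
      have g4 : Off (a.1 - (20 * 2^j : ℕ)) (a.1 + (20 * 2^j : ℕ)) (a.2.1 - (20 * 2^j : ℕ))
          (a.2.1 + (20 * 2^j : ℕ)) I J := by
        rw [hI, hJ]; exact shell_off (hG a haG).1 (by omega)
      obtain ⟨⟨b1, b2⟩, b3, b4⟩ := NP.dst_le hab.2
      push_cast at b1 b2 b3 b4 g4
      have hp : (0:ℤ) < 2^j := by positivity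
      apply pair_O h0 h1 hOU hρ (g2.trans g1) (g3.trans g1)
      · push_cast
        apply NP.Off_sub g4 <;> linarith
      · push_cast
        apply NP.Off_sub g4 <;> linarith
      · exact_mod_cast hab.2
      · exact_mod_cast hab.1
    by_cases hwin : 12 * 2^j ≤ n
    · have h5 := class_O hW hOU (ρ := 2^j) hρ hwin (M := 64 * 2^(k-j))
        (by have : 1 ≤ 2^(k-j) := Nat.one_le_two_pow
            omega) (c := c) (G := G) (V := V)
        (fun a haG => by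
          have h6 := (hG a haG).2
          have e : (((64 * 2^(k-j) : ℕ) : ℤ) * ((2^j : ℕ) : ℤ)) = 64 * 2^k := by
            push_cast
            rw [mul_assoc, ← pow_add]
            congr 2
            omega
          rw [e]
          exact h6)
        (fun a haG => by
          rw [hU]
          exact shell_geo hS (hG a haG).1 (hG a haG).2 (by omega))
        (fun a haG => by
          have h6 := shell_off (hG a haG).1 (r := 20 * 2^j) (by omega)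
          rw [← hI, ← hJ] at h6
          exact_mod_cast h6)
        (fun a b => 2 * ((2 ^ j : ℕ) : ℤ) < dst a b ∧ dst a b ≤ 4 * ((2 ^ j : ℕ) : ℤ))
        (fun a b h => h.2) (A := (a4 q (2^j))^2) (by positivity) hpair
      rw [hf]
      refine h5.trans ?_
      push_cast
      have e3 := pow_calc ((2:ℝ)^j) ((2:ℝ)^k) hx0
      rw [hkj, sqrt_two_pow] at e3
      have h7 : ((2:ℝ)^j)^4 * (a4 q (2^j))^2 * (64 * 2^(k-j)) ≤
          64 * A^2 * ((2:ℝ)^k * (Real.sqrt 2)^j) := by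
        calc ((2:ℝ)^j)^4 * (a4 q (2^j))^2 * (64 * 2^(k-j)) ≤
            ((2:ℝ)^j)^4 * (A^2 * (((2:ℝ)^j) ^ (-(5/4) : ℝ))^2) * (64 * 2^(k-j)) := by
              apply mul_le_mul_of_nonneg_right _ (by positivity)
              exact mul_le_mul_of_nonneg_left hsq (by positivity)
          _ = 64 * A^2 * (((2:ℝ)^j)^4 * (((2:ℝ)^j) ^ (-(5/4) : ℝ))^2 * 2^(k-j)) := by ring
          _ = _ := by rw [e3]
      have h8 : 64 * A^2 * ((2:ℝ)^k * (Real.sqrt 2)^j) ≤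
          64 * A^2 * ((2:ℝ)^k * (1 + (2:ℝ)^k / n) * (Real.sqrt 2)^j) := by
        apply mul_le_mul_of_nonneg_left _ (by positivity)
        apply mul_le_mul_of_nonneg_right _ (by positivity)
        nlinarith
      calc 162 * 18 * 722 * 3 * κ⁻¹ ^ 4 * (((2:ℝ)^j)^4 * (a4 q (2^j))^2 * (64 * 2^(k-j))) ≤
          162 * 18 * 722 * 3 * κ⁻¹ ^ 4 *
            (64 * A^2 * ((2:ℝ)^k * (1 + (2:ℝ)^k / n) * (Real.sqrt 2)^j)) := by
            apply mul_le_mul_of_nonneg_left (h7.trans h8) (by positivity)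
        _ = _ := by ring
    · have h5 := class_crude (ρ := 2^j) hρ (R := 16 * 2^k)
        (by have : 1 ≤ 2^k := Nat.one_le_two_pow
            omega) (c := c) (G := G) (V := V)
        (fun a haG => by have := (hG a haG).2; push_cast; linarith) f
        (A := (a4 q (2^j))^2) (by positivity)
        (fun a b => 2 * ((2 ^ j : ℕ) : ℤ) < dst a b ∧ dst a b ≤ 4 * ((2 ^ j : ℕ) : ℤ))
        (fun a b h => h.2)
        (fun a haG b hb hab => by
          rw [hf]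
          refine (hpair a haG b hb hab).trans ?_
          have := Pr_le_one hOk U (Bf (CO I J O) (NP.tb (2^j) (NP.tl (2^j) a)))
          exact mul_le_of_le_one_right (by positivity) this)
      refine h5.trans ?_
      push_cast
      have hnj : (n:ℝ) < 12 * (2:ℝ)^j := by
        have : n < 12 * 2^j := by omega
        exact_mod_cast this
      have h9 : (2:ℝ)^k / (2:ℝ)^j ≤ 12 * ((2:ℝ)^k / n) := by
        rw [← mul_div_assoc, div_le_div_iff₀ hx0 hn0]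
        nlinarith
      have e3 := pow_calc ((2:ℝ)^j) ((2:ℝ)^k) hx0
      rw [sqrt_two_pow] at e3
      have h10 : ((2:ℝ)^k)^2 * ((2:ℝ)^j)^2 * (((2:ℝ)^j) ^ (-(5/4) : ℝ))^2 =
          ((2:ℝ)^k / (2:ℝ)^j) * ((2:ℝ)^k * (Real.sqrt 2)^j) := by
        rw [← e3]
        field_simp
      have h11 : (162 * (16 * (2:ℝ)^k)^2) * (162 * ((2:ℝ)^j)^2) * (a4 q (2^j))^2 ≤
          (162 * 256 * 162) * A^2 *
            ((12 * ((2:ℝ)^k / n)) * ((2:ℝ)^k * (Real.sqrt 2)^j)) := by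
        calc (162 * (16 * (2:ℝ)^k)^2) * (162 * ((2:ℝ)^j)^2) * (a4 q (2^j))^2 ≤
            (162 * (16 * (2:ℝ)^k)^2) * (162 * ((2:ℝ)^j)^2) *
              (A^2 * (((2:ℝ)^j) ^ (-(5/4) : ℝ))^2) :=
              mul_le_mul_of_nonneg_left hsq (by positivity)
          _ = (162 * 256 * 162) * A^2 *
              (((2:ℝ)^k)^2 * ((2:ℝ)^j)^2 * (((2:ℝ)^j) ^ (-(5/4) : ℝ))^2) := by ring
          _ = (162 * 256 * 162) * A^2 *
              (((2:ℝ)^k / (2:ℝ)^j) * ((2:ℝ)^k * (Real.sqrt 2)^j)) := by rw [h10]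
          _ ≤ _ := by
              apply mul_le_mul_of_nonneg_left _ (by positivity)
              exact mul_le_mul_of_nonneg_right h9 (by positivity)
      refine h11.trans ?_
      have h12 : (162 * 256 * 162) * A^2 *
            ((12 * ((2:ℝ)^k / n)) * ((2:ℝ)^k * (Real.sqrt 2)^j)) =
            (162 * 256 * 162 * 12) * (A^2 * (((2:ℝ)^k / n) * ((2:ℝ)^k * (Real.sqrt 2)^j))) := by
        ring
      have h13 : (162 * 18 * 722 * 3 * 64) * κ⁻¹ ^ 4 * A ^ 2 * ((2:ℝ)^k * (1 + (2:ℝ)^k / n)) *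
        (Real.sqrt 2)^j = (162 * 18 * 722 * 3 * 64) *
          (κ⁻¹ ^ 4 * (A^2 * ((1 + (2:ℝ)^k / n) * ((2:ℝ)^k * (Real.sqrt 2)^j)))) := by ring
      rw [h12, h13]
      have h14 : A^2 * (((2:ℝ)^k / n) * ((2:ℝ)^k * (Real.sqrt 2)^j)) ≤
          κ⁻¹ ^ 4 * (A^2 * ((1 + (2:ℝ)^k / n) * ((2:ℝ)^k * (Real.sqrt 2)^j))) := by
        have h15 : A^2 * (((2:ℝ)^k / n) * ((2:ℝ)^k * (Real.sqrt 2)^j)) ≤
            A^2 * ((1 + (2:ℝ)^k / n) * ((2:ℝ)^k * (Real.sqrt 2)^j)) := by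
          apply mul_le_mul_of_nonneg_left _ (by positivity)
          exact mul_le_mul_of_nonneg_right (by linarith) (by positivity)
        have h16 : 0 ≤ A^2 * ((1 + (2:ℝ)^k / n) * ((2:ℝ)^k * (Real.sqrt 2)^j)) := by positivity
        nlinarith
      have h17 : 0 ≤ A^2 * (((2:ℝ)^k / n) * ((2:ℝ)^k * (Real.sqrt 2)^j)) := by positivity
      nlinarith
  have hgeo : ∑ j ∈ Finset.range (k + 1), (Real.sqrt 2)^j ≤ 7 * (Real.sqrt 2)^k := by
    apply geo_le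
    rw [Real.le_sqrt' (by norm_num)]
    norm_num
  have hsum : ∑ j ∈ Finset.range (k + 1), ∑ a ∈ G, ∑ b ∈ V,
      ind (2 * ((2 ^ j : ℕ) : ℤ) < dst a b ∧ dst a b ≤ 4 * ((2 ^ j : ℕ) : ℤ)) * f a b ≤
      (162 * 18 * 722 * 3 * 64) * κ⁻¹ ^ 4 * A ^ 2 * ((2:ℝ)^k * (1 + (2:ℝ)^k / n)) *
        (7 * (Real.sqrt 2)^k) := by
    refine (Finset.sum_le_sum hj).trans ?_
    rw [← Finset.mul_sum]
    exact mul_le_mul_of_nonneg_left hgeo (by positivity)
  have hgoal : ∑ a ∈ G, ∑ b ∈ V, ind (dst a b ≤ 4 * 2^k) * f a b ≤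
      10^10 * κ⁻¹ ^ 4 * A ^ 2 * ((2:ℝ)^k * (Real.sqrt 2)^k * (1 + (2:ℝ)^k / n)) := by
    refine hsplit.trans ((add_le_add hzero hsum).trans ?_)
    have hX : 1 ≤ (Real.sqrt 2)^k * (1 + (2:ℝ)^k / n) := by nlinarith
    have hA2 : 1 ≤ A^2 := one_le_pow₀ hA
    have h20 : κ⁻¹ ^ 4 * (2:ℝ)^k ≤ κ⁻¹ ^ 4 * A ^ 2 * ((2:ℝ)^k * (Real.sqrt 2)^k *
        (1 + (2:ℝ)^k / n)) := by
      have h21 : 1 ≤ A^2 * ((Real.sqrt 2)^k * (1 + (2:ℝ)^k / n)) := by nlinarith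
      have h22 : 0 ≤ κ⁻¹ ^ 4 * (2:ℝ)^k := by positivity
      calc κ⁻¹ ^ 4 * (2:ℝ)^k = κ⁻¹ ^ 4 * (2:ℝ)^k * 1 := by ring
        _ ≤ κ⁻¹ ^ 4 * (2:ℝ)^k * (A^2 * ((Real.sqrt 2)^k * (1 + (2:ℝ)^k / n))) :=
            mul_le_mul_of_nonneg_left h21 h22
        _ = _ := by ring
    obtain ⟨X, hXd⟩ : ∃ X : ℝ, X = κ⁻¹ ^ 4 * A ^ 2 * ((2:ℝ)^k * (Real.sqrt 2)^k *
        (1 + (2:ℝ)^k / n)) := ⟨_, rfl⟩
    have h23 : 0 ≤ X := by rw [hXd]; positivity
    rw [← hXd] at h20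
    calc 162 * 18 * 722 * 3 * 64 * κ⁻¹ ^ 4 * (2:ℝ)^k + (162 * 18 * 722 * 3 * 64) * κ⁻¹ ^ 4 *
          A ^ 2 * ((2:ℝ)^k * (1 + (2:ℝ)^k / n)) * (7 * (Real.sqrt 2)^k)
        = 162 * 18 * 722 * 3 * 64 * (κ⁻¹ ^ 4 * (2:ℝ)^k) +
          (162 * 18 * 722 * 3 * 64 * 7) * X := by rw [hXd]; ring
      _ ≤ 162 * 18 * 722 * 3 * 64 * X + (162 * 18 * 722 * 3 * 64 * 7) * X := by
          apply add_le_add _ le_rfl
          exact mul_le_mul_of_nonneg_left h20 (by norm_num)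
      _ ≤ 10^10 * X := by
          rw [← add_mul]
          exact mul_le_mul_of_nonneg_right (by norm_num) h23
      _ = _ := by rw [hXd]; ring
  rw [hf] at hgoal
  exact hgoal

end Pool.Agent.D0H95.AL
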