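import Pool.Agent.D0H95.AL.Sec
import Pool.Agent.D0H95.AL.Model

/-!
The mean cluster density of bond percolation on the square lattice near the critical point.
-/

set_option autoImplicit false
set_option maxHeartbeats 400000

namespace Pool.Agent.D0H95.AL

open H974 Filter MeasureTheory

/-- The remainder of the second Taylor polynomial at the critical point. -/
noncomputable def Rem (κ : ℝ → ℝ) (p : ℝ) : ℝ :=
  κ p - κ (pcrit : ℝ) - deriv κ (pcrit : ℝ) * (p - (pcrit : ℝ)) -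
    1 / 2 * deriv (deriv κ) (pcrit : ℝ) * (p - (pcrit : ℝ)) ^ 2

/-- The exponent `α` exists and is equal to `a`: `|R(p)| = |p - p_c|^(2 - a + o(1))`. -/
def HasAlpha (κ : ℝ → ℝ) (a : ℝ) : Prop :=
  ∀ ε : ℝ, 0 < ε → ∀ᶠ p in nhdsWithin (pcrit : ℝ) {(pcrit : ℝ)}ᶜ,
    |p - (pcrit : ℝ)| ^ (2 - a + ε) ≤ |Rem κ p| ∧ |Rem κ p| ≤ |p - (pcrit : ℝ)| ^ (2 - a - ε)

/-- The derivative of the density. -/
noncomputable def kd (q : ℝ) : ℝ := -(2 * (1 - Hf q))

theorem kap_deriv {q : ℝ} (h0 : 0 < q) (h1 : q < 1) : HasDerivAt kap0 (kd q) q := by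
  have hc : ContinuousOn (fun t => 2 * (1 - Hf t)) (Set.Icc 0 1) :=
    continuousOn_const.mul (continuousOn_const.sub Hf_cont)
  have hi : IntervalIntegrable (fun t => 2 * (1 - Hf t)) volume 0 q := by
    apply ContinuousOn.intervalIntegrable
    rw [Set.uIcc_of_le h0.le]
    exact hc.mono (Set.Icc_subset_Icc le_rfl h1.le)
  have hn : Set.Icc (0:ℝ) 1 ∈ nhds q := Icc_mem_nhds h0 h1
  have hca : ContinuousAt (fun t => 2 * (1 - Hf t)) q := (hc.continuousAt hn)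
  have hm : StronglyMeasurableAtFilter (fun t => 2 * (1 - Hf t)) (nhds q) volume :=
    hc.mono Set.Ioo_subset_Icc_self |>.stronglyMeasurableAtFilter isOpen_Ioo q ⟨h0, h1⟩
  have h := intervalIntegral.integral_hasDerivAt_right hi hm hca
  unfold kap0 kd
  exact h.const_sub 1

theorem kap_cont_bound {q : ℝ} (h0 : 0 ≤ q) (h1 : q ≤ 1) : |kap0 q| ≤ 3 := by
  have h : ‖∫ t in (0:ℝ)..q, 2 * (1 - Hf t)‖ ≤ 2 * |q - 0| := by
    apply intervalIntegral.norm_integral_le_of_norm_le_const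
    intro t ht
    rw [Set.uIoc_of_le h0] at ht
    have a1 := Hf_nonneg ht.1.le (ht.2.trans h1)
    have a2 := Hf_le_one ht.1.le (ht.2.trans h1)
    rw [Real.norm_eq_abs, abs_of_nonneg (by linarith)]
    linarith
  rw [Real.norm_eq_abs, sub_zero, abs_of_nonneg h0] at h
  unfold kap0
  rw [abs_le] at h ⊢
  constructor <;> linarith [h.1, h.2]

theorem kap_dual {q : ℝ} (h0 : 0 ≤ q) (h1 : q ≤ 1) : kap0 (1 - q) = kap0 q + 2 * q - 1 := by
  have hc : ContinuousOn (fun t => 2 * (1 - Hf t)) (Set.Icc 0 1) :=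
    continuousOn_const.mul (continuousOn_const.sub Hf_cont)
  have hii : ∀ a b : ℝ, a ∈ Set.Icc (0:ℝ) 1 → b ∈ Set.Icc (0:ℝ) 1 →
      IntervalIntegrable (fun t => 2 * (1 - Hf t)) volume a b := by
    intro a b ha hb
    apply ContinuousOn.intervalIntegrable
    exact hc.mono (Set.uIcc_subset_Icc ha hb)
  have hq : q ∈ Set.Icc (0:ℝ) 1 := ⟨h0, h1⟩
  have hq' : 1 - q ∈ Set.Icc (0:ℝ) 1 := ⟨by linarith, by linarith⟩
  have hz : (0:ℝ) ∈ Set.Icc (0:ℝ) 1 := ⟨le_rfl, zero_le_one⟩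
  have e1 : ∫ t in (0:ℝ)..(1 - q), 2 * (1 - Hf t) =
      (∫ t in (0:ℝ)..q, 2 * (1 - Hf t)) + ∫ t in q..(1 - q), 2 * (1 - Hf t) :=
    (intervalIntegral.integral_add_adjacent_intervals (hii _ _ hz hq) (hii _ _ hq hq')).symm
  have e2 : ∫ t in q..(1 - q), 2 * (1 - Hf t) = ∫ t in q..(1 - q), 2 * (1 - Hf (1 - t)) := by
    have h := intervalIntegral.integral_comp_sub_left (a := q) (b := 1 - q)
      (fun t => 2 * (1 - Hf t)) 1
    rw [h]
    congr 1
    ring
  have e3 : ∫ t in q..(1 - q), 2 * (1 - Hf (1 - t)) =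
      ∫ t in q..(1 - q), (2 - 2 * (1 - Hf t)) := by
    apply intervalIntegral.integral_congr
    intro t ht
    have ht' := Set.uIcc_subset_Icc hq hq' ht
    have := Hf_dual ht'.1 ht'.2
    simp only
    rw [this]
    ring
  have e4 : ∫ t in q..(1 - q), (2 - 2 * (1 - Hf t)) =
      2 * (1 - q - q) - ∫ t in q..(1 - q), 2 * (1 - Hf t) := by
    rw [intervalIntegral.integral_sub intervalIntegrable_const (hii _ _ hq hq'),
      intervalIntegral.integral_const, smul_eq_mul]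
    ring
  rw [e3, e4] at e2
  unfold kap0
  rw [e1]
  linarith

/-- The main theorem. -/
theorem alpha_main : ∃ κ : ℝ → ℝ,
    (∀ p : unitInterval, Tendsto (fun n : ℕ => (∫ ω, (KK n ω : ℝ) ∂(bondLaw p)) / (n:ℝ)^2)
      atTop (nhds (κ p))) ∧
    (∀ p ∈ Set.Ioo (0:ℝ) 1, DifferentiableAt ℝ κ p) ∧ deriv κ (pcrit : ℝ) = -1 ∧
    (∀ p ∈ Set.Icc (0:ℝ) 1, κ (1 - p) = κ p + 2 * p - 1) ∧
    ∃ C s : ℝ, 0 < C ∧ 0 < s ∧
      (∀ p : ℝ, |p - (pcrit : ℝ)| < s → DifferentiableAt ℝ (deriv κ) p) ∧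
      (∀ p q : ℝ, |p - (pcrit : ℝ)| < s → |q - (pcrit : ℝ)| < s →
        |deriv (deriv κ) p - deriv (deriv κ) q| ≤ C * |p - q| ^ (2/3 : ℝ)) ∧
      (∀ p q : ℝ, |p - (pcrit : ℝ)| < s → |q - (pcrit : ℝ)| < s →
        0 ≤ (p - (pcrit : ℝ)) * (q - (pcrit : ℝ)) →
        |deriv (deriv κ) p - deriv (deriv κ) q| ≤
          C * |(|p - (pcrit : ℝ)| ^ (2/3 : ℝ) - |q - (pcrit : ℝ)| ^ (2/3 : ℝ))|) ∧
      (∀ p ∈ Set.Icc (0:ℝ) 1, |Rem κ p| ≤ C * |p - (pcrit : ℝ)| ^ (8/3 : ℝ)) ∧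
      (∀ a : ℝ, HasAlpha κ a → a ≤ -(2/3)) := by
  obtain ⟨M, s, hM, hs, hs4, g, hg1, hg2, hg3⟩ := Hf_reg
  have hpc : (pcrit : ℝ) = 1/2 := pcrit_eq
  have hd0 : ∀ p ∈ Set.Ioo (0:ℝ) 1, HasDerivAt kap0 (kd p) p := fun p hp => kap_deriv hp.1 hp.2
  have hder : ∀ p ∈ Set.Ioo (0:ℝ) 1, deriv kap0 p = kd p := fun p hp => (hd0 p hp).deriv
  have hnb : ∀ p : ℝ, |p - 1/2| < s → p ∈ Set.Ioo (0:ℝ) 1 := by
    intro p hp
    have := abs_lt.mp hp
    exact ⟨by linarith, by linarith⟩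
  -- the second derivative
  have hHd : ∀ p : ℝ, |p - 1/2| < s → HasDerivAt Hf (g p) p := by
    intro p hp
    rw [hasDerivAt_iff_isLittleO]
    have hev : ∀ᶠ y in nhds p, |y - 1/2| ≤ s := by
      have hc : Continuous (fun y : ℝ => |y - 1/2|) := by fun_prop
      exact (hc.tendsto p).eventually (ge_mem_nhds hp)
    have hO : (fun y => Hf y - Hf p - (y - p) • g p) =O[nhds p]
        (fun y => |y - p| ^ (5/3 : ℝ)) := by
      apply Asymptotics.IsBigO.of_bound M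
      filter_upwards [hev] with y hy
      have h := hg1 p y hp.le hy
      rw [Real.norm_eq_abs, Real.norm_eq_abs, smul_eq_mul, mul_comm (y - p),
        abs_of_nonneg (by positivity : 0 ≤ |y - p| ^ (5/3 : ℝ))]
      exact h
    refine hO.trans_isLittleO ?_
    rw [Asymptotics.isLittleO_iff]
    intro c hc
    have ht : Tendsto (fun y : ℝ => |y - p| ^ (2/3 : ℝ)) (nhds p) (nhds 0) := by
      have hcc : Continuous (fun y : ℝ => |y - p|) := by fun_prop
      have := (hcc.tendsto p).rpow_const (p := 2/3) (Or.inr (by norm_num))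
      rwa [sub_self, abs_zero, Real.zero_rpow (by norm_num)] at this
    filter_upwards [ht.eventually (gt_mem_nhds hc)] with y hy
    rw [Real.norm_eq_abs, Real.norm_eq_abs, abs_of_nonneg (by positivity : 0 ≤ |y - p| ^ (5/3 : ℝ)),
      ← rpow_split (abs_nonneg _)]
    exact mul_le_mul_of_nonneg_right hy.le (abs_nonneg _)
  have hdd : ∀ p : ℝ, |p - 1/2| < s → HasDerivAt (deriv kap0) (2 * g p) p := by
    intro p hp
    have h1 : HasDerivAt kd (2 * g p) p := by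
      have h2 := (((hHd p hp).const_sub 1).const_mul 2).neg
      refine h2.congr_deriv ?_
      ring
    refine h1.congr_of_eventuallyEq ?_
    filter_upwards [Ioo_mem_nhds (hnb p hp).1 (hnb p hp).2] with y hy
    exact hder y hy
  have hhalf : |(1/2 : ℝ) - 1/2| < s := by simpa using hs
  have hkd : deriv kap0 (1/2) = -1 := by
    rw [hder _ ⟨by norm_num, by norm_num⟩]
    unfold kd
    rw [Hf_half]
    norm_num
  -- the remainder
  have hR : ∀ p, Rem kap0 p = kap0 p - kap0 (1/2) - (-1) * (p - 1/2) -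
      1/2 * (2 * g (1/2)) * (p - 1/2)^2 := by
    intro p
    unfold Rem
    rw [hpc, hkd, (hdd _ hhalf).deriv]
  have hR1 : ∀ p, |p - 1/2| < s → |Rem kap0 p| ≤ 2 * M * |p - 1/2| ^ (8/3 : ℝ) := by
    intro p hp
    obtain ⟨φ, hφ⟩ : ∃ φ : ℝ → ℝ, φ = fun p => kap0 p - kap0 (1/2) - (-1) * (p - 1/2) -
      1/2 * (2 * g (1/2)) * (p - 1/2)^2 := ⟨_, rfl⟩
    have hφd : ∀ t, |t - 1/2| < s → HasDerivAt φ
        (2 * (Hf t - Hf (1/2) - g (1/2) * (t - 1/2))) t := by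
      intro t ht
      have d1 := hd0 t (hnb t ht)
      have d2 : HasDerivAt (fun p : ℝ => p - 1/2) 1 t := (hasDerivAt_id t).sub_const (1/2)
      have d3 := ((d1.sub_const (kap0 (1/2))).sub (d2.const_mul (-1))).sub
        ((d2.pow 2).const_mul (1/2 * (2 * g (1/2))))
      rw [hφ]
      refine d3.congr_deriv ?_
      unfold kd
      rw [Hf_half]
      simp
      ring
    have hconv : ∀ t ∈ Set.uIcc (1/2) p, |t - 1/2| ≤ |p - 1/2| := by
      intro t ht
      exact Set.abs_sub_left_of_mem_uIcc ht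
    have hmv : ‖φ p - φ (1/2)‖ ≤ (2 * M * |p - 1/2| ^ (5/3 : ℝ)) * ‖p - 1/2‖ := by
      apply Convex.norm_image_sub_le_of_norm_hasDerivWithin_le (s := Set.uIcc (1/2) p)
        (f' := fun t => 2 * (Hf t - Hf (1/2) - g (1/2) * (t - 1/2)))
      · intro t ht
        exact (hφd t ((hconv t ht).trans_lt hp)).hasDerivWithinAt
      · intro t ht
        have h1 := hg1 (1/2) t hhalf.le ((hconv t ht).trans hp.le)
        rw [Real.norm_eq_abs, abs_mul, abs_of_pos (by norm_num : (0:ℝ) < 2)]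
        have h2 : |t - 1/2| ^ (5/3 : ℝ) ≤ |p - 1/2| ^ (5/3 : ℝ) :=
          Real.rpow_le_rpow (abs_nonneg _) (hconv t ht) (by norm_num)
        have h3 := mul_le_mul_of_nonneg_left h2 hM.le
        linarith
      · exact convex_uIcc _ _
      · exact Set.left_mem_uIcc
      · exact Set.right_mem_uIcc
    have h0 : φ (1/2) = 0 := by rw [hφ]; ring
    have hpw : |p - 1/2| ^ (5/3 : ℝ) * |p - 1/2| = |p - 1/2| ^ (8/3 : ℝ) := by
      rcases (abs_nonneg (p - 1/2)).eq_or_lt with h | h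
      · rw [← h, mul_zero, Real.zero_rpow (by norm_num)]
      · nth_rewrite 2 [← Real.rpow_one |p - 1/2|]
        rw [← Real.rpow_add h]
        norm_num
    rw [h0, sub_zero, Real.norm_eq_abs, Real.norm_eq_abs, mul_assoc, hpw] at hmv
    rw [hR p]
    have e : φ p = kap0 p - kap0 (1/2) - (-1) * (p - 1/2) -
      1/2 * (2 * g (1/2)) * (p - 1/2)^2 := by rw [hφ]
    rw [← e]
    exact hmv
  obtain ⟨C0, hC0⟩ : ∃ C0 : ℝ, C0 = (7 + |g (1/2)|) / s ^ (8/3 : ℝ) := ⟨_, rfl⟩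
  have hsp : 0 < s ^ (8/3 : ℝ) := by positivity
  have hC0p : 0 < C0 := by rw [hC0]; positivity
  have hR2 : ∀ p ∈ Set.Icc (0:ℝ) 1, |Rem kap0 p| ≤ (2 * M + C0) * |p - 1/2| ^ (8/3 : ℝ) := by
    intro p hp
    rcases lt_or_ge |p - 1/2| s with h | h
    · refine (hR1 p h).trans ?_
      apply mul_le_mul_of_nonneg_right _ (by positivity)
      linarith
    · have a1 := kap_cont_bound hp.1 hp.2
      have a2 := kap_cont_bound (q := 1/2) (by norm_num) (by norm_num)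
      have a3 : |p - 1/2| ≤ 1 := by rw [abs_le]; constructor <;> linarith [hp.1, hp.2]
      have a4 : (p - 1/2)^2 ≤ 1 := by
        rw [← sq_abs]
        exact pow_le_one₀ (abs_nonneg _) a3
      have a5 : |Rem kap0 p| ≤ 7 + |g (1/2)| := by
        rw [hR p]
        have b1 : |kap0 p - kap0 (1/2) - (-1) * (p - 1/2) -
            1/2 * (2 * g (1/2)) * (p - 1/2)^2| ≤ |kap0 p| + |kap0 (1/2)| + |p - 1/2| +
              |g (1/2)| * (p - 1/2)^2 := by
          have e : kap0 p - kap0 (1/2) - (-1) * (p - 1/2) - 1/2 * (2 * g (1/2)) * (p - 1/2)^2 =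
              (kap0 p + -(kap0 (1/2)) + (p - 1/2)) + -(g (1/2) * (p - 1/2)^2) := by ring
          rw [e]
          refine (abs_add_le _ _).trans ?_
          rw [abs_neg, abs_mul, abs_of_nonneg (sq_nonneg (p - 1/2))]
          have b2 := abs_add_three (kap0 p) (-(kap0 (1/2))) (p - 1/2)
          rw [abs_neg] at b2
          linarith
        have b3 := mul_le_mul_of_nonneg_left a4 (abs_nonneg (g (1/2)))
        linarith
      have a6 : s ^ (8/3 : ℝ) ≤ |p - 1/2| ^ (8/3 : ℝ) := Real.rpow_le_rpow hs.le h (by norm_num)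
      calc |Rem kap0 p| ≤ 7 + |g (1/2)| := a5
        _ = C0 * s ^ (8/3 : ℝ) := by rw [hC0]; field_simp
        _ ≤ C0 * |p - 1/2| ^ (8/3 : ℝ) := mul_le_mul_of_nonneg_left a6 hC0p.le
        _ ≤ _ := by
            apply mul_le_mul_of_nonneg_right _ (by positivity)
            linarith
  refine ⟨kap0, KK_tendsto, fun p hp => (hd0 p hp).differentiableAt, ?_, ?_,
    2 * M + C0, s, by positivity, hs, ?_, ?_, ?_, ?_, ?_⟩
  · rw [hpc]; exact hkd
  · intro p hp
    exact kap_dual hp.1 hp.2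
  · intro p hp
    rw [hpc] at hp
    exact (hdd p hp).differentiableAt
  · intro p q hp hq
    rw [hpc] at hp hq
    rw [(hdd p hp).deriv, (hdd q hq).deriv, ← mul_sub, abs_mul, abs_of_pos (by norm_num : (0:ℝ) < 2)]
    have h1 := hg2 p q hp.le hq.le
    rw [abs_sub_comm q p] at h1
    have h2 : 0 ≤ C0 * |p - q| ^ (2/3 : ℝ) := by positivity
    linarith
  · intro p q hp hq hpq
    rw [hpc] at hp hq hpq ⊢
    rw [(hdd p hp).deriv, (hdd q hq).deriv, ← mul_sub, abs_mul, abs_of_pos (by norm_num : (0:ℝ) < 2)]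
    have h1 := hg3 p q hp.le hq.le hpq
    rw [abs_sub_comm (|q - 1/2| ^ (2/3 : ℝ))] at h1
    have h2 : 0 ≤ C0 * |(|p - 1/2| ^ (2/3 : ℝ) - |q - 1/2| ^ (2/3 : ℝ))| := by positivity
    linarith
  · intro p hp
    rw [hpc]
    exact hR2 p hp
  · intro a ha
    by_contra hcon
    push Not at hcon
    -- take `ε` with `2 - a + ε < 8 / 3`
    obtain ⟨ε, hε⟩ : ∃ ε : ℝ, ε = (a + 2/3) / 2 := ⟨_, rfl⟩
    have hε0 : 0 < ε := by rw [hε]; linarith
    have h1 := ha ε hε0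
    rw [hpc] at h1
    obtain ⟨δ, hδ⟩ : ∃ δ : ℝ, δ = 8/3 - (2 - a + ε) := ⟨_, rfl⟩
    have hδ0 : 0 < δ := by rw [hδ, hε]; linarith
    have ht : Tendsto (fun y : ℝ => |y - 1/2| ^ δ) (nhds (1/2)) (nhds 0) := by
      have hcc : Continuous (fun y : ℝ => |y - 1/2|) := by fun_prop
      have := (hcc.tendsto (1/2)).rpow_const (p := δ) (Or.inr hδ0.le)
      rwa [sub_self, abs_zero, Real.zero_rpow hδ0.ne'] at this
    have hK : 0 < 1 / (2 * M + C0 + 1) := by positivity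
    have h2 : ∀ᶠ p in nhdsWithin (1/2 : ℝ) {(1/2 : ℝ)}ᶜ, |p - 1/2| ^ δ < 1 / (2 * M + C0 + 1) :=
      (ht.eventually (gt_mem_nhds hK)).filter_mono nhdsWithin_le_nhds
    have h3 : ∀ᶠ p in nhdsWithin (1/2 : ℝ) {(1/2 : ℝ)}ᶜ, p ∈ Set.Icc (0:ℝ) 1 := by
      have : Set.Icc (0:ℝ) 1 ∈ nhds (1/2 : ℝ) := Icc_mem_nhds (by norm_num) (by norm_num)
      exact mem_nhdsWithin_of_mem_nhds this
    obtain ⟨p, ⟨h4, h5, h6⟩, h7⟩ := ((h1.and (h2.and h3)).and self_mem_nhdsWithin).exists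
    have hpne : 0 < |p - 1/2| := abs_pos.mpr (sub_ne_zero.mpr h7)
    have h8 := h4.1.trans (hR2 p h6)
    have e : |p - 1/2| ^ (8/3 : ℝ) = |p - 1/2| ^ (2 - a + ε) * |p - 1/2| ^ δ := by
      rw [← Real.rpow_add hpne]
      congr 1
      rw [hδ]
      ring
    rw [e] at h8
    have h9 : 0 < |p - 1/2| ^ (2 - a + ε) := Real.rpow_pos_of_pos hpne _
    have h10 : 1 ≤ (2 * M + C0) * |p - 1/2| ^ δ := by
      by_contra hc
      push Not at hc
      have := mul_lt_mul_of_pos_left hc h9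
      linarith
    have h11 : (2 * M + C0) * |p - 1/2| ^ δ < 1 := by
      rw [lt_div_iff₀ (by positivity)] at h5
      have h12 : 0 ≤ |p - 1/2| ^ δ := by positivity
      nlinarith
    linarith

end Pool.Agent.D0H95.AL
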