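import Pool.Agent.H973R3.NC.NP

/-!
Triple differences of the number of clusters of bond percolation on `ℤ²`: symmetry and local
four-arm events.
-/

set_option autoImplicit false

namespace Pool.Agent.D0H95.AL

open H974 H12S H973N Finset

/-- The end points of `e` are connected off `e`. -/
def hC (e : Edg) (F : Finset Edg) : Prop := Reach ((↑F : Set Edg) \ {e}) (src e) (tgt e)

theorem hC_mono (e : Edg) : ∀ F G : Finset Edg, F ⊆ G → hC e F → hC e G := by
  intro F G h hF
  exact Reach.mono (Set.sdiff_subset_sdiff_left (by exact_mod_cast h)) hF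

/-- The triple difference at `e, f, g` does not vanish. -/
def T3 (e f g : Edg) (F : Finset Edg) : Prop := SD (hC e) f g F

/-! ### symmetry -/

theorem absorb {G : Set Edg} {e : Edg} (h : Reach G (src e) (tgt e)) {u v : Vtx} :
    Reach (insert e G) u v ↔ Reach G u v := by
  constructor
  · intro huv
    have h3 : Reach G u v ∨ (Reach G u (src e) ∧ Reach G (tgt e) v) ∨
        (Reach G u (tgt e) ∧ Reach G (src e) v) :=
      (GR_insert (s := src) (t := tgt) (F := G) (e := e) (x := u) (y := v)).mp huv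
    rcases h3 with h3 | ⟨h3, h4⟩ | ⟨h3, h4⟩
    · exact h3
    · exact (h3.trans h).trans h4
    · exact (h3.trans h.symm).trans h4
  · intro h1
    exact h1.mono (Set.subset_insert _ _)

theorem exch {G : Set Edg} {e f : Edg} (h1 : ¬ Reach G (src e) (tgt e))
    (h2 : Reach (insert f G) (src e) (tgt e)) :
    ¬ Reach G (src f) (tgt f) ∧ Reach (insert e G) (src f) (tgt f) := by
  constructor
  · intro h
    exact h1 ((absorb h).mp h2)
  · have h3 : Reach G (src e) (tgt e) ∨ (Reach G (src e) (src f) ∧ Reach G (tgt f) (tgt e)) ∨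
        (Reach G (src e) (tgt f) ∧ Reach G (src f) (tgt e)) :=
      (GR_insert (s := src) (t := tgt) (F := G) (e := f) (x := src e) (y := tgt e)).mp h2
    have hs : G ⊆ insert e G := Set.subset_insert _ _
    have he : Reach (insert e G) (src e) (tgt e) :=
      Adj.reach ⟨e, Set.mem_insert _ _, Or.inl ⟨rfl, rfl⟩⟩
    rcases h3 with h3 | ⟨h3, h4⟩ | ⟨h3, h4⟩
    · exact absurd h3 h1
    · exact ((h3.symm.mono hs).trans he).trans (h4.symm.mono hs)
    · exact ((h4.mono hs).trans he.symm).trans (h3.mono hs)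

/-- The triple difference in terms of the configuration off the three edges. -/
def TT (e f g : Edg) (G : Set Edg) : Prop :=
  Reach (insert f (insert g G)) (src e) (tgt e) ∧ ¬ Reach G (src e) (tgt e) ∧
    (Reach (insert f G) (src e) (tgt e) ↔ Reach (insert g G) (src e) (tgt e))

theorem TT_swap {e f g : Edg} {G : Set Edg} (h : TT e f g G) : TT f e g G := by
  obtain ⟨h1, h2, h3⟩ := h
  have sg : G ⊆ insert g G := Set.subset_insert _ _
  by_cases h4 : Reach (insert f G) (src e) (tgt e)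
  · have h5 := h3.mp h4
    obtain ⟨k1, k2⟩ := exch h2 h4
    have k3 : Reach (insert e (insert g G)) (src f) (tgt f) :=
      k2.mono (Set.insert_subset_insert sg)
    refine ⟨k3, k1, ?_⟩
    constructor
    · intro _
      exact (absorb h5).mp k3
    · intro _
      exact k2
  · have h5 : ¬ Reach (insert g G) (src e) (tgt e) := fun h => h4 (h3.mpr h)
    obtain ⟨k1, k2⟩ := exch h5 h1
    refine ⟨k2, fun h => k1 (h.mono sg), ?_⟩
    constructor
    · intro h6
      have h7 : ¬ Reach G (src f) (tgt f) := fun h => k1 (h.mono sg)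
      exact absurd (exch h7 h6).2 h4
    · intro h6
      exact absurd h6 k1

theorem TT_swap' {e f g : Edg} {G : Set Edg} (h : TT e f g G) : TT e g f G := by
  obtain ⟨h1, h2, h3⟩ := h
  rw [Set.insert_comm] at h1
  exact ⟨h1, h2, h3.symm⟩

theorem T3_iff {e f g : Edg} (hef : e ≠ f) (heg : e ≠ g) (hfg : f ≠ g) {F : Finset Edg} :
    T3 e f g F ↔ TT e f g (((↑F : Set Edg) \ {e}) \ {f, g}) := by
  set G : Set Edg := ((↑F : Set Edg) \ {e}) \ {f, g} with hG
  have e1 : ((↑(insert f (insert g F)) : Set Edg) \ {e}) = insert f (insert g G) := by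
    ext x
    simp only [hG, Finset.coe_insert, Set.mem_sdiff, Set.mem_insert_iff, Finset.mem_coe,
      Set.mem_singleton_iff]
    constructor
    · rintro ⟨h1 | h1 | h1, h2⟩
      · exact Or.inl h1
      · exact Or.inr (Or.inl h1)
      · by_cases hf : x = f
        · exact Or.inl hf
        · by_cases hg : x = g
          · exact Or.inr (Or.inl hg)
          · exact Or.inr (Or.inr ⟨⟨h1, h2⟩, by simp [hf, hg]⟩)
    · rintro (h1 | h1 | ⟨⟨h1, h2⟩, _⟩)
      · exact ⟨Or.inl h1, fun h => hef (h ▸ h1)⟩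
      · exact ⟨Or.inr (Or.inl h1), fun h => heg (h ▸ h1)⟩
      · exact ⟨Or.inr (Or.inr h1), h2⟩
  have e2 : ((↑((F.erase f).erase g) : Set Edg) \ {e}) = G := by
    ext x
    simp only [hG, Finset.coe_erase, Set.mem_sdiff, Set.mem_insert_iff, Finset.mem_coe,
      Set.mem_singleton_iff]
    tauto
  have e3 : ((↑(insert f (F.erase g)) : Set Edg) \ {e}) = insert f G := by
    ext x
    simp only [hG, Finset.coe_insert, Finset.coe_erase, Set.mem_sdiff, Set.mem_insert_iff,
      Finset.mem_coe, Set.mem_singleton_iff]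
    constructor
    · rintro ⟨h1 | h1, h2⟩
      · exact Or.inl h1
      · by_cases hf : x = f
        · exact Or.inl hf
        · exact Or.inr ⟨⟨h1.1, h2⟩, by simp [hf, h1.2]⟩
    · rintro (h1 | ⟨⟨h1, h2⟩, h3⟩)
      · exact ⟨Or.inl h1, fun h => hef (h ▸ h1)⟩
      · push Not at h3
        exact ⟨Or.inr ⟨h1, h3.2⟩, h2⟩
  have e4 : ((↑((insert g F).erase f) : Set Edg) \ {e}) = insert g G := by
    ext x
    simp only [hG, Finset.coe_insert, Finset.coe_erase, Set.mem_sdiff, Set.mem_insert_iff,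
      Finset.mem_coe, Set.mem_singleton_iff]
    constructor
    · rintro ⟨⟨h1 | h1, h3⟩, h2⟩
      · exact Or.inl h1
      · by_cases hg : x = g
        · exact Or.inl hg
        · exact Or.inr ⟨⟨h1, h2⟩, by simp [hg, h3]⟩
    · rintro (h1 | ⟨⟨h1, h2⟩, h3⟩)
      · exact ⟨⟨Or.inl h1, fun h => hfg (h ▸ h1)⟩, fun h => heg (h ▸ h1)⟩
      · push Not at h3
        exact ⟨⟨Or.inr h1, h3.1⟩, h2⟩
  have e5 : ((↑(insert g (F.erase f)) : Set Edg) \ {e}) = insert g G := by
    rw [← e4]
    ext x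
    simp only [Finset.coe_insert, Finset.coe_erase, Set.mem_sdiff, Set.mem_insert_iff,
      Finset.mem_coe, Set.mem_singleton_iff]
    constructor
    · rintro ⟨h1 | h1, h2⟩
      · exact ⟨⟨Or.inl h1, fun h => hfg (h ▸ h1)⟩, h2⟩
      · exact ⟨⟨Or.inr h1.1, h1.2⟩, h2⟩
    · rintro ⟨⟨h1 | h1, h3⟩, h2⟩
      · exact ⟨Or.inl h1, h2⟩
      · exact ⟨Or.inr ⟨h1, h3⟩, h2⟩
  have e6 : ((↑((insert f F).erase g) : Set Edg) \ {e}) = insert f G := by
    rw [← e3]
    ext x
    simp only [Finset.coe_insert, Finset.coe_erase, Set.mem_sdiff, Set.mem_insert_iff,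
      Finset.mem_coe, Set.mem_singleton_iff]
    constructor
    · rintro ⟨⟨h1 | h1, h3⟩, h2⟩
      · exact ⟨Or.inl h1, h2⟩
      · exact ⟨Or.inr ⟨h1, h3⟩, h2⟩
    · rintro ⟨h1 | h1, h2⟩
      · exact ⟨⟨Or.inl h1, fun h => hfg (h1.symm.trans h)⟩, h2⟩
      · exact ⟨⟨Or.inr h1.1, h1.2⟩, h2⟩
  have e7 : ((↑((F.erase g).erase f) : Set Edg) \ {e}) = G := by
    rw [Finset.erase_right_comm, e2]
  have mf : G ⊆ insert f G := Set.subset_insert _ _
  have mg : G ⊆ insert g G := Set.subset_insert _ _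
  have mff : insert f G ⊆ insert f (insert g G) := Set.insert_subset_insert mg
  have mgg : insert g G ⊆ insert f (insert g G) := Set.subset_insert _ _
  have e8 : ((↑(insert g (insert f F)) : Set Edg) \ {e}) = insert f (insert g G) := by
    rw [Finset.insert_comm, e1]
  unfold T3 SD Pf TT hC
  rw [e1, e2, e3, e4, e5, e6, e7, e8]
  constructor
  · rintro ⟨h1, h2, h3, h4⟩
    refine ⟨h3, h4, ?_, ?_⟩
    · intro h5
      rcases h2 with h2 | h2
      · exact h2.1
      · exact absurd h5 h2.2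
    · intro h5
      rcases h1 with h1 | h1
      · exact h1.1
      · exact absurd h5 h1.2
  · rintro ⟨h3, h4, h5⟩
    refine ⟨?_, ?_, h3, h4⟩
    · by_cases h6 : Reach (insert f G) (src e) (tgt e)
      · exact Or.inl ⟨h6, h4⟩
      · exact Or.inr ⟨h3, fun h => h6 (h5.mpr h)⟩
    · by_cases h6 : Reach (insert g G) (src e) (tgt e)
      · exact Or.inl ⟨h6, h4⟩
      · exact Or.inr ⟨h3, fun h => h6 (h5.mp h)⟩

theorem offset_eq (F : Set Edg) (e f g : Edg) :
    (F \ {e}) \ {f, g} = (F \ {f}) \ {e, g} := by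
  ext x
  simp only [Set.mem_sdiff, Set.mem_insert_iff, Set.mem_singleton_iff]
  tauto

theorem T3_swap {e f g : Edg} (hef : e ≠ f) (heg : e ≠ g) (hfg : f ≠ g) {F : Finset Edg}
    (h : T3 e f g F) : T3 f e g F := by
  rw [T3_iff hef heg hfg] at h
  rw [T3_iff hef.symm hfg heg, ← offset_eq]
  exact TT_swap h

theorem T3_swap' {e f g : Edg} (hef : e ≠ f) (heg : e ≠ g) (hfg : f ≠ g) {F : Finset Edg}
    (h : T3 e f g F) : T3 e g f F := by
  rw [T3_iff hef heg hfg] at h
  rw [T3_iff heg hef hfg.symm, Set.pair_comm]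
  exact TT_swap' h

end Pool.Agent.D0H95.AL
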